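import Mathlib

set_option autoImplicit false

namespace Pool.Agent.Lib.MP_03b26c_an

lemma A1a (e : ℝ) (h0 : 0 ≤ e) (h1 : e ≤ 1) :
    24 * (4 - e) * ((8 + 2 * e + e^2)/15)
      < 97409/1000 * (76/525 - 2/525 * e - 1/84 * e^2 - 1/350 * e^3) * (4 + 11/25 * e) := by
  nlinarith [mul_nonneg h0 (sub_nonneg.mpr h1), mul_nonneg (mul_nonneg h0 h0) (sub_nonneg.mpr h1),
    mul_nonneg (mul_nonneg (mul_nonneg h0 h0) h0) (sub_nonneg.mpr h1)]

lemma A1b (e : ℝ) (h0 : 0 ≤ e) (h1 : e ≤ 13/20) :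
    24 * (4 - e) * ((8 + 2 * e + e^2)/15)
      < 97409/1000 * (76/525 - 2/525 * e - 1/84 * e^2 - 1/350 * e^3) * 4 := by
  nlinarith [mul_nonneg h0 (sub_nonneg.mpr h1), mul_nonneg (mul_nonneg h0 h0) (sub_nonneg.mpr h1),
    mul_nonneg (mul_nonneg (mul_nonneg h0 h0) h0) (sub_nonneg.mpr h1)]

lemma A1c (e : ℝ) (h0 : 0 ≤ e) (h1 : e ≤ 2/5) :
    24 * (4 - e) * ((8 + 2 * e + e^2)/15)
      < 97409/1000 * (76/525 - 2/525 * e - 1/84 * e^2 - 1/350 * e^3) * (4 - 7/16 * e) := by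
  nlinarith [mul_nonneg h0 (sub_nonneg.mpr h1), mul_nonneg (mul_nonneg h0 h0) (sub_nonneg.mpr h1),
    mul_nonneg (mul_nonneg (mul_nonneg h0 h0) h0) (sub_nonneg.mpr h1)]

lemma A3d (e S : ℝ) (h0 : 13/20 ≤ e) (h1 : e ≤ 1) (hS0 : 1 ≤ S) (hS1 : S ≤ 6/5) :
    24 * ((1 - S)^2 * (4 - e) + (3 + S^2) * e) < 264395/10000 * (4 + (S^2 - 1) * e) * e := by
  nlinarith [mul_nonneg (sub_nonneg.mpr h0) (sub_nonneg.mpr h1),
    mul_nonneg (sub_nonneg.mpr hS0) (sub_nonneg.mpr hS1),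
    mul_nonneg (mul_nonneg (sub_nonneg.mpr hS0) (sub_nonneg.mpr hS1)) (sub_nonneg.mpr h0),
    mul_nonneg (mul_nonneg (sub_nonneg.mpr hS0) (sub_nonneg.mpr hS1)) (sub_nonneg.mpr h1),
    mul_nonneg (mul_nonneg (sub_nonneg.mpr hS0) (sub_nonneg.mpr h0)) (sub_nonneg.mpr h1),
    mul_nonneg (mul_nonneg (sub_nonneg.mpr hS1) (sub_nonneg.mpr h0)) (sub_nonneg.mpr h1),
    mul_nonneg (sub_nonneg.mpr hS1) (sub_nonneg.mpr h0),
    mul_nonneg (sub_nonneg.mpr hS1) (sub_nonneg.mpr h1),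
    mul_nonneg (sub_nonneg.mpr hS0) (sub_nonneg.mpr h0),
    mul_nonneg (sub_nonneg.mpr hS0) (sub_nonneg.mpr h1)]

lemma A3e (e S : ℝ) (h0 : 2/5 ≤ e) (h1 : e ≤ 1) (hS0 : 3/4 ≤ S) (hS1 : S ≤ 1) :
    24 * ((1 - S)^2 * (4 - e) + (3 + S^2) * e) < 264395/10000 * (4 + (S^2 - 1) * e) * e := by
  nlinarith [mul_nonneg (sub_nonneg.mpr h0) (sub_nonneg.mpr h1),
    mul_nonneg (sub_nonneg.mpr hS0) (sub_nonneg.mpr hS1),
    mul_nonneg (mul_nonneg (sub_nonneg.mpr hS0) (sub_nonneg.mpr hS1)) (sub_nonneg.mpr h0),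
    mul_nonneg (mul_nonneg (sub_nonneg.mpr hS0) (sub_nonneg.mpr hS1)) (sub_nonneg.mpr h1),
    mul_nonneg (mul_nonneg (sub_nonneg.mpr hS0) (sub_nonneg.mpr h0)) (sub_nonneg.mpr h1),
    mul_nonneg (mul_nonneg (sub_nonneg.mpr hS1) (sub_nonneg.mpr h0)) (sub_nonneg.mpr h1),
    mul_nonneg (sub_nonneg.mpr hS1) (sub_nonneg.mpr h0),
    mul_nonneg (sub_nonneg.mpr hS1) (sub_nonneg.mpr h1),
    mul_nonneg (sub_nonneg.mpr hS0) (sub_nonneg.mpr h0),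
    mul_nonneg (sub_nonneg.mpr hS0) (sub_nonneg.mpr h1)]

lemma aux_pos {p r k : ℝ} (hdet : p * r - k^2 = 1) (hp : 0 < p) (hr : 0 < r) :
    0 < p + r + 2 * k ∧ 0 < p + r - 2 * k := by
  have h1 : (2 * k)^2 < (p + r)^2 := by nlinarith [sq_nonneg (p - r)]
  have h2 := abs_lt_of_sq_lt_sq h1 (by linarith)
  rw [abs_lt] at h2
  constructor <;> linarith

lemma aux_lam {Λ : ℝ} (h : 9.8696 < Λ) : 97409/1000 ≤ Λ^2 := by nlinarith

lemma aux_e {δ : ℝ} (h1 : -1 < δ) (h2 : δ < 1) : 0 < 1 - δ^2 ∧ 1 - δ^2 ≤ 1 := by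
  constructor
  · nlinarith
  · nlinarith [sq_nonneg δ]

lemma aux_D {S e : ℝ} (he0 : 0 < e) (he1 : e ≤ 1) : 0 < 4 + (S^2 - 1) * e := by
  nlinarith [mul_nonneg (sq_nonneg S) he0.le]

lemma aux_V {e : ℝ} (he0 : 0 < e) (he1 : e ≤ 1) :
    0 < (76/525 - 2/525 * e - 1/84 * e^2 - 1/350 * e^3) := by
  nlinarith [mul_nonneg he0.le (sub_nonneg.mpr he1),
    mul_nonneg (mul_nonneg he0.le he0.le) (sub_nonneg.mpr he1)]

lemma aux_D1 {S e : ℝ} (he0 : 0 < e) (h : 3/4 ≤ S) : 4 - 7/16 * e ≤ 4 + (S^2 - 1) * e := by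
  have : 9/16 ≤ S^2 := by nlinarith
  nlinarith

lemma aux_D2 {S e : ℝ} (he0 : 0 < e) (h : 1 ≤ S) : 4 ≤ 4 + (S^2 - 1) * e := by
  have : 1 ≤ S^2 := by nlinarith
  nlinarith

lemma aux_D3 {S e : ℝ} (he0 : 0 < e) (h : 6/5 ≤ S) : 4 + 11/25 * e ≤ 4 + (S^2 - 1) * e := by
  have : 36/25 ≤ S^2 := by nlinarith
  nlinarith

lemma aux_lin {Λ Q T X c : ℝ} (hΛ : 0 < Λ) (hc : 0 < c) (hX : 0 < X)
    (h1 : Λ / 12 * (1/6 * Q) ≤ X) (h2 : 3 * T * X^2 ≤ c * Q) :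
    Λ * T * X ≤ 24 * c := by
  have h3 : Λ * (3 * T * X^2) ≤ Λ * (c * Q) := mul_le_mul_of_nonneg_left h2 hΛ.le
  have h4 : c * (Λ / 12 * (1/6 * Q)) ≤ c * X := mul_le_mul_of_nonneg_left h1 hc.le
  have h5 : (Λ * T * X) * X ≤ (24 * c) * X := by linarith
  exact le_of_mul_le_mul_right h5 hX

/-- upper bounds for the diagonals from linear trial functions -/
lemma lin_X {α β Λ p r k S δ : ℝ} (hSd : S = (α + β)/2)
    (hδd : δ = (α - β)/2) (hdet : p * r - k^2 = 1) (hp : 0 < p) (hr : 0 < r) (hΛ : 0 < Λ)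
    (Lin : ∀ v1 v2 : ℝ, Λ / 12 * ((1 + α^2/4 - β^2/12) * v1^2 + 2 * (α * β / 6) * (v1 * v2)
      + (1 + β^2/4 - α^2/12) * v2^2) ≤ r * v1^2 - 2 * k * v1 * v2 + p * v2^2) :
    Λ * (3 + S^2 + δ^2 - S^2 * δ^2) * (p + r + 2 * k) ≤ 24 * (3 + δ^2) ∧
    Λ * (3 + S^2 + δ^2 - S^2 * δ^2) * (p + r - 2 * k) ≤ 24 * (3 + S^2) := by
  have hα : α = S + δ := by rw [hSd, hδd]; ring
  have hβ : β = S - δ := by rw [hSd, hδd]; ring
  obtain ⟨hXpos, hYpos⟩ := aux_pos hdet hp hr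
  have hk : k^2 = p * r - 1 := by linarith
  constructor
  · have h1 := Lin (p + k) (r + k)
    rw [hα, hβ] at h1
    have e1 : r * (p + k)^2 - 2 * k * (p + k) * (r + k) + p * (r + k)^2 = p + r + 2 * k := by
      linear_combination (p + r + 2 * k) * hdet
    rw [e1] at h1
    set X := p + r + 2 * k with hX
    set D := r - p with hD
    have e2 : (1 + (S + δ)^2/4 - (S - δ)^2/12) * (p + k)^2
        + 2 * ((S + δ) * (S - δ) / 6) * ((p + k) * (r + k))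
        + (1 + (S - δ)^2/4 - (S + δ)^2/12) * (r + k)^2
        = 1/6 * ((3 + S^2) * X^2 - 4 * S * δ * X * D + (3 + δ^2) * D^2) := by
      rw [hX, hD]; ring
    rw [e2] at h1
    have h2 : 3 * (3 + S^2 + δ^2 - S^2 * δ^2) * X^2
        ≤ (3 + δ^2) * ((3 + S^2) * X^2 - 4 * S * δ * X * D + (3 + δ^2) * D^2) := by
      nlinarith [sq_nonneg ((3 + δ^2) * D - 2 * S * δ * X)]
    exact aux_lin hΛ (by positivity) hXpos h1 h2
  · have h1 := Lin (p - k) (k - r)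
    rw [hα, hβ] at h1
    have e1 : r * (p - k)^2 - 2 * k * (p - k) * (k - r) + p * (k - r)^2 = p + r - 2 * k := by
      linear_combination (p + r - 2 * k) * hdet
    rw [e1] at h1
    set Y := p + r - 2 * k with hY
    set D := r - p with hD
    have e2 : (1 + (S + δ)^2/4 - (S - δ)^2/12) * (p - k)^2
        + 2 * ((S + δ) * (S - δ) / 6) * ((p - k) * (k - r))
        + (1 + (S - δ)^2/4 - (S + δ)^2/12) * (k - r)^2
        = 1/6 * ((3 + S^2) * D^2 - 4 * S * δ * Y * D + (3 + δ^2) * Y^2) := by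
      rw [hY, hD]; ring
    rw [e2] at h1
    have h2 : 3 * (3 + S^2 + δ^2 - S^2 * δ^2) * Y^2
        ≤ (3 + S^2) * ((3 + S^2) * D^2 - 4 * S * δ * Y * D + (3 + δ^2) * Y^2) := by
      nlinarith [sq_nonneg ((3 + S^2) * D - 2 * S * δ * Y)]
    exact aux_lin hΛ (by positivity) hYpos h1 h2

/-- contradiction in the regime `S ≥ 3/4` -/
theorem part1 {α β Λ p r k : ℝ} (hδ : |α - β| < 2) (hS : 3/2 ≤ α + β)
    (hdet : p * r - k^2 = 1) (hp : 0 < p) (hr : 0 < r) (hΛ : 9.8696 < Λ)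
    (Lin : ∀ v1 v2 : ℝ, Λ / 12 * ((1 + α^2/4 - β^2/12) * v1^2 + 2 * (α * β / 6) * (v1 * v2)
      + (1 + β^2/4 - α^2/12) * v2^2) ≤ r * v1^2 - 2 * k * v1 * v2 + p * v2^2)
    (Cub : Λ * (53/420 + 19/525 * ((α - β)/2)^2 - 43/2100 * ((α - β)/2)^4
        + 1/350 * ((α - β)/2)^6)
      ≤ (p + r + 2 * k) * (11/15 - 4/15 * ((α - β)/2)^2 + 1/15 * ((α - β)/2)^4))
    (Rad : Λ * (19/140) ≤ (p * (1 - α/2)^2 - k * β * (1 - α/2) + r * β^2/4) / (1 - (α - β)/2)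
      + (p * α^2/4 - k * α * (1 - β/2) + r * (1 - β/2)^2) / (1 + (α - β)/2)) : False := by
  obtain ⟨S, hSd⟩ : ∃ S, S = (α + β)/2 := ⟨_, rfl⟩
  obtain ⟨δ, hδd⟩ : ∃ δ, δ = (α - β)/2 := ⟨_, rfl⟩
  have hα : α = S + δ := by rw [hSd, hδd]; ring
  have hβ : β = S - δ := by rw [hSd, hδd]; ring
  have hΛ0 : 0 < Λ := by linarith
  obtain ⟨hX, hY⟩ := lin_X hSd hδd hdet hp hr hΛ0 Lin
  rw [← hδd] at Cub Rad
  have hδ' := abs_lt.mp hδ
  have hδ1 : -1 < δ := by rw [hδd]; linarith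
  have hδ2 : δ < 1 := by rw [hδd]; linarith
  have hS34 : 3/4 ≤ S := by rw [hSd]; linarith
  obtain ⟨e, he⟩ : ∃ e, e = 1 - δ^2 := ⟨_, rfl⟩
  have he0 : 0 < e := by rw [he]; exact (aux_e hδ1 hδ2).1
  have he1 : e ≤ 1 := by rw [he]; exact (aux_e hδ1 hδ2).2
  obtain ⟨hXpos, hYpos⟩ := aux_pos hdet hp hr
  have hDd : 3 + S^2 + δ^2 - S^2 * δ^2 = 4 + (S^2 - 1) * e := by rw [he]; ring
  have h3d : 3 + δ^2 = 4 - e := by rw [he]; ring
  have hDpos : 0 < 4 + (S^2 - 1) * e := aux_D he0 he1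
  rw [hDd, h3d] at hX
  rw [hDd] at hY
  set X := p + r + 2 * k with hXd
  set Y := p + r - 2 * k with hYd
  have hK : (11/15 - 4/15 * δ^2 + 1/15 * δ^4) = (8 + 2 * e + e^2)/15 := by rw [he]; ring
  have hV : (53/420 + 19/525 * δ^2 - 43/2100 * δ^4 + 1/350 * δ^6)
      = (76/525 - 2/525 * e - 1/84 * e^2 - 1/350 * e^3) := by rw [he]; ring
  rw [hK, hV] at Cub
  have hKpos : 0 < (8 + 2 * e + e^2)/15 := by positivity
  have hΛ2 : 97409/1000 ≤ Λ^2 := aux_lam hΛ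
  have hVpos : 0 < (76/525 - 2/525 * e - 1/84 * e^2 - 1/350 * e^3) := aux_V he0 he1
  -- consequence of the cubic
  have C1 : 97409/1000 * (76/525 - 2/525 * e - 1/84 * e^2 - 1/350 * e^3) * (4 + (S^2 - 1) * e)
      ≤ 24 * (4 - e) * ((8 + 2 * e + e^2)/15) := by
    have h1 : Λ * (Λ * (76/525 - 2/525 * e - 1/84 * e^2 - 1/350 * e^3)) * (4 + (S^2 - 1) * e)
        ≤ Λ * (X * ((8 + 2 * e + e^2)/15)) * (4 + (S^2 - 1) * e) := by
      gcongr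
    have h2 : Λ * (X * ((8 + 2 * e + e^2)/15)) * (4 + (S^2 - 1) * e)
        = (Λ * (4 + (S^2 - 1) * e) * X) * ((8 + 2 * e + e^2)/15) := by ring
    have h3 : (Λ * (4 + (S^2 - 1) * e) * X) * ((8 + 2 * e + e^2)/15)
        ≤ (24 * (4 - e)) * ((8 + 2 * e + e^2)/15) := by gcongr
    have h4 : 97409/1000 * ((76/525 - 2/525 * e - 1/84 * e^2 - 1/350 * e^3) * (4 + (S^2 - 1) * e))
        ≤ Λ^2 * ((76/525 - 2/525 * e - 1/84 * e^2 - 1/350 * e^3) * (4 + (S^2 - 1) * e)) := by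
      gcongr
    linarith
  -- consequence of the radial function
  have R1 : Λ * (19/70) * e ≤ (1 - S)^2 * X + Y * e := by
    have p1 : 0 < 1 - δ := by linarith
    have p2 : 0 < 1 + δ := by linarith
    have hid : (p * (1 - α/2)^2 - k * β * (1 - α/2) + r * β^2/4) / (1 - δ)
      + (p * α^2/4 - k * α * (1 - β/2) + r * (1 - β/2)^2) / (1 + δ)
      = ((1 - S)^2 * X + Y * e) / (2 * e) := by
      have he' : e = (1 - δ) * (1 + δ) := by rw [he]; ring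
      rw [he', hα, hβ, hXd, hYd]
      field_simp
      ring
    rw [hid, le_div_iff₀ (by positivity)] at Rad
    linarith
  have R2 : 264395/10000 * (4 + (S^2 - 1) * e) * e
      ≤ 24 * ((1 - S)^2 * (4 - e) + (3 + S^2) * e) := by
    have h1 : Λ * (4 + (S^2 - 1) * e) * (Λ * (19/70) * e)
        ≤ Λ * (4 + (S^2 - 1) * e) * ((1 - S)^2 * X + Y * e) := by gcongr
    have h2 : Λ * (4 + (S^2 - 1) * e) * ((1 - S)^2 * X + Y * e)
        = (1 - S)^2 * (Λ * (4 + (S^2 - 1) * e) * X) + (Λ * (4 + (S^2 - 1) * e) * Y) * e := by ring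
    have h3 : (1 - S)^2 * (Λ * (4 + (S^2 - 1) * e) * X) + (Λ * (4 + (S^2 - 1) * e) * Y) * e
        ≤ (1 - S)^2 * (24 * (4 - e)) + (24 * (3 + S^2)) * e := by gcongr
    have h4 : 97409/1000 * ((4 + (S^2 - 1) * e) * e) ≤ Λ^2 * ((4 + (S^2 - 1) * e) * e) := by gcongr
    have h5 : 0 < (4 + (S^2 - 1) * e) * e := by positivity
    linarith
  have hVD : 0 ≤ 97409/1000 * (76/525 - 2/525 * e - 1/84 * e^2 - 1/350 * e^3) := by positivity
  rcases le_total S 1 with hS1 | hS1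
  · rcases le_total e (2/5) with h | h
    · have h1 := A1c e he0.le h
      have h2 : 4 - 7/16 * e ≤ 4 + (S^2 - 1) * e := aux_D1 he0 hS34
      have h3 := mul_le_mul_of_nonneg_left h2 hVD
      linarith
    · exact absurd R2 (not_le.mpr (A3e e S h he1 hS34 hS1))
  · rcases le_total S (6/5) with hS2 | hS2
    · rcases le_total e (13/20) with h | h
      · have h1 := A1b e he0.le h
        have h2 : 4 ≤ 4 + (S^2 - 1) * e := aux_D2 he0 hS1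
        have h3 := mul_le_mul_of_nonneg_left h2 hVD
        linarith
      · exact absurd R2 (not_le.mpr (A3d e S h he1 hS1 hS2))
    · have h1 := A1a e he0.le he1
      have h2 : 4 + 11/25 * e ≤ 4 + (S^2 - 1) * e := aux_D3 he0 hS2
      have h3 := mul_le_mul_of_nonneg_left h2 hVD
      linarith

end Pool.Agent.Lib.MP_03b26c_an
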