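import Mathlib

set_option autoImplicit false

namespace Pool.Agent.Lib.MP_03b26c_an

/-- residual coefficient -/
noncomputable def eF (x y : ℝ) : ℝ := 1/5 - 107/625 * x - 553/1875 * y - 626/625 * (x * y)
  + 621/625 * x^2 + 508/1875 * y^2 + 111/625 * (x * y^2) - 22/125 * (x^2 * y) + 111/625 * x^3
  - 22/125 * y^3

/-- residual constant -/
noncomputable def mF (x y : ℝ) : ℝ := 90121/205500 - 297/250 * x - 297/250 * y + 1/50 * (x * y)
  + 1263/500 * x^2 + 1263/500 * y^2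

lemma g0_pos (s : ℝ) (h1 : 1/20 ≤ s) (h2 : s ≤ 9/32) :
    0 ≤ (-1364954641/42230250000) + 36377053309/42230250000 * s + (-15775314106009/4223025000000) * s^2 + 15718901377/2568750000 * s^3 + (-1716579703/321093750) * s^4 + 22136497/9375000 * s^5 + (-2512221/6250000) * s^6 := by
  nlinarith [mul_nonneg (pow_nonneg (sub_nonneg.mpr h1) 0) (pow_nonneg (sub_nonneg.mpr h2) 6),
    mul_nonneg (pow_nonneg (sub_nonneg.mpr h1) 1) (pow_nonneg (sub_nonneg.mpr h2) 5),
    mul_nonneg (pow_nonneg (sub_nonneg.mpr h1) 2) (pow_nonneg (sub_nonneg.mpr h2) 4),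
    mul_nonneg (pow_nonneg (sub_nonneg.mpr h1) 3) (pow_nonneg (sub_nonneg.mpr h2) 3),
    mul_nonneg (pow_nonneg (sub_nonneg.mpr h1) 4) (pow_nonneg (sub_nonneg.mpr h2) 2),
    mul_nonneg (pow_nonneg (sub_nonneg.mpr h1) 5) (pow_nonneg (sub_nonneg.mpr h2) 1),
    mul_nonneg (pow_nonneg (sub_nonneg.mpr h1) 6) (pow_nonneg (sub_nonneg.mpr h2) 0)]

lemma gq_pos (s : ℝ) (h1 : 9/32 ≤ s) (h2 : s ≤ 9/16) :
    0 ≤ (-10651930803044764297/70850602598400000000) + 1778798151048674819/2214081331200000000 * s + (-138018047107252033/276760166400000000) * s^2 + (-4203626518067/10521600000000) * s^3 + (-976016846723/657600000000) * s^4 + 14107457/7500000 * s^5 + (-2512221/6250000) * s^6 := by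
  nlinarith [mul_nonneg (pow_nonneg (sub_nonneg.mpr h1) 0) (pow_nonneg (sub_nonneg.mpr h2) 6),
    mul_nonneg (pow_nonneg (sub_nonneg.mpr h1) 1) (pow_nonneg (sub_nonneg.mpr h2) 5),
    mul_nonneg (pow_nonneg (sub_nonneg.mpr h1) 2) (pow_nonneg (sub_nonneg.mpr h2) 4),
    mul_nonneg (pow_nonneg (sub_nonneg.mpr h1) 3) (pow_nonneg (sub_nonneg.mpr h2) 3),
    mul_nonneg (pow_nonneg (sub_nonneg.mpr h1) 4) (pow_nonneg (sub_nonneg.mpr h2) 2),
    mul_nonneg (pow_nonneg (sub_nonneg.mpr h1) 5) (pow_nonneg (sub_nonneg.mpr h2) 1),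
    mul_nonneg (pow_nonneg (sub_nonneg.mpr h1) 6) (pow_nonneg (sub_nonneg.mpr h2) 0)]

lemma g1_pos (s : ℝ) (h1 : 1/20 ≤ s) (h2 : s ≤ 9/16) :
    1/20 ≤ 1183667544241/4223025000000 + 5530341181/2568750000 * s + (-30161589941/5137500000) * s^2 + 18317727/6250000 * s^3 + (-666989/1562500) * s^4 := by
  nlinarith [mul_nonneg (pow_nonneg (sub_nonneg.mpr h1) 0) (pow_nonneg (sub_nonneg.mpr h2) 4),
    mul_nonneg (pow_nonneg (sub_nonneg.mpr h1) 1) (pow_nonneg (sub_nonneg.mpr h2) 3),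
    mul_nonneg (pow_nonneg (sub_nonneg.mpr h1) 2) (pow_nonneg (sub_nonneg.mpr h2) 2),
    mul_nonneg (pow_nonneg (sub_nonneg.mpr h1) 3) (pow_nonneg (sub_nonneg.mpr h2) 1),
    mul_nonneg (pow_nonneg (sub_nonneg.mpr h1) 4) (pow_nonneg (sub_nonneg.mpr h2) 0)]

lemma G_id (x y : ℝ) :
    4 * eF x y * eF y x - (16/9 * (x * y) + (mF x y)^2) * (1 - x) * (1 - y)
    = ((-1364954641/42230250000) + 36377053309/42230250000 * (x+y) + (-15775314106009/4223025000000) * (x+y)^2 + 15718901377/2568750000 * (x+y)^3 + (-1716579703/321093750) * (x+y)^4 + 22136497/9375000 * (x+y)^5 + (-2512221/6250000) * (x+y)^6)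
      + (x-y)^2 * (1183667544241/4223025000000 + 5530341181/2568750000 * (x+y) + (-30161589941/5137500000) * (x+y)^2 + 18317727/6250000 * (x+y)^3 + (-666989/1562500) * (x+y)^4)
      + ((x-y)^2)^2 * ((-304383747/1712500000) + 2726203/4687500 * (x+y) + 8485379/25000000 * (x+y)^2)
      + ((x-y)^2)^3 * (9109569/25000000) := by
  unfold eF mF
  ring

lemma Gq_id (s : ℝ) :
    ((-1364954641/42230250000) + 36377053309/42230250000 * s + (-15775314106009/4223025000000) * s^2 + 15718901377/2568750000 * s^3 + (-1716579703/321093750) * s^4 + 22136497/9375000 * s^5 + (-2512221/6250000) * s^6)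
      + (9/8*s - 81/256) * (1183667544241/4223025000000 + 5530341181/2568750000 * s + (-30161589941/5137500000) * s^2 + 18317727/6250000 * s^3 + (-666989/1562500) * s^4)
      + (9/8*s - 81/256)^2 * ((-304383747/1712500000) + 2726203/4687500 * s + 8485379/25000000 * s^2)
      + (9/8*s - 81/256)^3 * (9109569/25000000)
    = (-10651930803044764297/70850602598400000000) + 1778798151048674819/2214081331200000000 * s + (-138018047107252033/276760166400000000) * s^2 + (-4203626518067/10521600000000) * s^3 + (-976016846723/657600000000) * s^4 + 14107457/7500000 * s^5 + (-2512221/6250000) * s^6 := by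
  ring

lemma mono_q {g0 g1 g2 g3 q q0 : ℝ} (hq0 : 0 ≤ q0) (hq : q0 ≤ q) (h1 : 1/20 ≤ g1)
    (h2' : q * g2 ≥ -1/50) (h3 : 0 ≤ g3)
    (hb : 0 ≤ g0 + q0 * g1 + q0^2 * g2 + q0^3 * g3) :
    0 ≤ g0 + q * g1 + q^2 * g2 + q^3 * g3 := by
  have e : g0 + q * g1 + q^2 * g2 + q^3 * g3 = (g0 + q0 * g1 + q0^2 * g2 + q0^3 * g3)
      + (q - q0) * (g1 + (q + q0) * g2 + (q^2 + q * q0 + q0^2) * g3) := by ring
  rw [e]
  have hq' : 0 ≤ q := hq0.trans hq
  have h4 : 0 ≤ (q^2 + q * q0 + q0^2) * g3 := by positivity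
  have h5 : 0 ≤ g1 + (q + q0) * g2 := by
    have h6 := h2'
    rcases le_total 0 g2 with h | h
    · have : 0 ≤ (q + q0) * g2 := by positivity
      linarith
    · have : (q + q0) * g2 ≥ 2 * (q * g2) := by nlinarith
      linarith
  have h7 : 0 ≤ (q - q0) * (g1 + (q + q0) * g2 + (q^2 + q * q0 + q0^2) * g3) :=
    mul_nonneg (sub_nonneg.mpr hq) (by linarith)
  linarith

lemma g2_bd (s q : ℝ) (h0 : 0 ≤ q) (hq : q ≤ s^2) (h1 : 1/20 ≤ s) (h2 : s ≤ 9/16) :
    q * ((-304383747/1712500000) + 2726203/4687500 * s + 8485379/25000000 * s^2) ≥ -1/50 := by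
  have h3 : (-304383747/1712500000) + 2726203/4687500 * s + 8485379/25000000 * s^2
      ≥ -178/1000 + 58/100 * s := by nlinarith
  have h4 : q * ((-304383747/1712500000) + 2726203/4687500 * s + 8485379/25000000 * s^2)
      ≥ q * (-178/1000 + 58/100 * s) := mul_le_mul_of_nonneg_left h3 h0
  have h5 : q * (-178/1000 + 58/100 * s) ≥ -1/50 := by
    rcases le_total 0 (-178/1000 + 58/100 * s) with h | h
    · have := mul_nonneg h0 h
      linarith
    · have h6 : q * (-178/1000 + 58/100 * s) ≥ s^2 * (-178/1000 + 58/100 * s) :=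
        mul_le_mul_of_nonpos_right hq h
      have h7 : s^2 * (-178/1000 + 58/100 * s) ≥ -1/50 := by
        nlinarith [mul_nonneg (by linarith : (0:ℝ) ≤ s) (sq_nonneg (s - 1/5)), sq_nonneg (s - 1/5)]
      linarith
  linarith

lemma G_pos (x y : ℝ) (hx : 0 ≤ x) (hy : 0 ≤ y) (h1 : 1/20 ≤ x + y) (h2 : x + y ≤ 9/16)
    (h3 : 4 * (x * y) ≤ (9/16 - (x + y))^2) :
    (16/9 * (x * y) + (mF x y)^2) * (1 - x) * (1 - y) ≤ 4 * eF x y * eF y x := by
  rw [← sub_nonneg, G_id]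
  have hxy : 0 ≤ x * y := mul_nonneg hx hy
  have hq : (x - y)^2 = (x + y)^2 - 4 * (x * y) := by ring
  have hqs : (x - y)^2 ≤ (x + y)^2 := by linarith
  have hg1 := g1_pos (x + y) h1 h2
  have hg2 := g2_bd (x + y) ((x - y)^2) (sq_nonneg _) hqs h1 h2
  rcases le_total (x + y) (9/32) with h | h
  · have hg0 := g0_pos (x + y) h1 h
    apply mono_q (le_refl (0:ℝ)) (sq_nonneg (x - y)) hg1 hg2 (by norm_num)
    linarith
  · have hgq := gq_pos (x + y) h h2
    rw [← Gq_id] at hgq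
    have hq0 : 0 ≤ 9/8 * (x + y) - 81/256 := by linarith
    have hqq : 9/8 * (x + y) - 81/256 ≤ (x - y)^2 := by
      rw [hq]; linarith
    exact mono_q hq0 hqq hg1 hg2 (by norm_num) hgq

lemma eF_pos (x y : ℝ) (hx : 0 ≤ x) (hy : 0 ≤ y) (h2 : x + y ≤ 9/16) : 0 < eF x y := by
  unfold eF
  nlinarith [mul_nonneg hx hy, mul_nonneg (mul_nonneg hx hy) hx, mul_nonneg (mul_nonneg hx hy) hy,
    mul_nonneg hx hx, mul_nonneg hy hy, mul_nonneg (mul_nonneg hx hx) hx,
    mul_nonneg (mul_nonneg hy hy) (sub_nonneg.mpr h2), mul_nonneg (mul_nonneg hx hy) (sub_nonneg.mpr h2),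
    mul_nonneg hy (sub_nonneg.mpr h2), mul_nonneg hx (sub_nonneg.mpr h2), sq_nonneg (x - y)]

end Pool.Agent.Lib.MP_03b26c_an
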