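import Mathlib
import Pool.Agent.Lib.MP_03b26c_an.Alg2

set_option autoImplicit false

namespace Pool.Agent.Lib.MP_03b26c_an

/-- upper rational coefficient -/
noncomputable def aU (x y : ℝ) : ℝ := 1 - 149/500 * x - 11/50 * x^2 + 111/500 * (x * y)
/-- upper rational coefficient -/
noncomputable def bU (x y : ℝ) : ℝ := 183/125 * x + 111/500 * x^2 - 11/50 * (x * y)
/-- lower rational constant -/
noncomputable def cL (x y : ℝ) : ℝ := 1 + 7/2 * x - 33/100 * y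

/-- linear part of the combination -/
lemma comb_id (x y z P R k : ℝ) :
    eF x y * P + eF y x * R + 4/3 * (z * k) + 4/5 * (1 - x) * (aU x y * R + bU x y * P - cL x y)
      + 4/5 * (1 - y) * (aU y x * P + bU y x * R - cL y x)
    = ((1 + x - y/3) * (1 - y) * P + (1 + y - x/3) * (1 - x) * R + 4/3 * (z * k))
      + (mF x y - (500/411 + 411/500 * (1 + 2/3 * (x + y) - (x - y)^2/3))) := by
  unfold eF mF aU bU cL
  ring

lemma cs_aux (m z k : ℝ) : (m - 4/3 * (z * k))^2 ≤ (m^2 + 16/9 * z^2) * (1 + k^2) := by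
  nlinarith [sq_nonneg (m * k + 4/3 * z)]

lemma partII {x y z P R k : ℝ} (hx : 0 ≤ x) (hy : 0 ≤ y) (hz : z^2 = x * y)
    (h1 : 1/20 ≤ x + y) (h2 : x + y ≤ 9/16) (h3 : 4 * (x * y) ≤ (9/16 - (x + y))^2)
    (hP : 0 < P) (hR : 0 < R) (hdet : P * R * ((1 - x) * (1 - y)) = 1 + k^2)
    (q1 : 0 < aU x y * R + bU x y * P - cL x y) (q2 : 0 < aU y x * P + bU y x * R - cL y x)
    (hT : (1 + x - y/3) * (1 - y) * P + (1 + y - x/3) * (1 - x) * R + 4/3 * (z * k)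
      ≤ 500/411 + 411/500 * (1 + 2/3 * (x + y) - (x - y)^2/3)) : False := by
  have hx1 : 0 < 1 - x := by linarith
  have hy1 : 0 < 1 - y := by linarith
  have he1 := eF_pos x y hx hy h2
  have he2 := eF_pos y x hy hx (by linarith)
  have hG := G_pos x y hx hy h1 h2 h3
  have hcomb := comb_id x y z P R k
  have p1 : 0 < 4/5 * (1 - x) * (aU x y * R + bU x y * P - cL x y) := by positivity
  have p2 : 0 < 4/5 * (1 - y) * (aU y x * P + bU y x * R - cL y x) := by positivity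
  obtain ⟨L, hL⟩ : ∃ L, L = eF x y * P + eF y x * R := ⟨_, rfl⟩
  have hLpos : 0 < L := by rw [hL]; positivity
  have hLt : L < mF x y - 4/3 * (z * k) := by rw [hL]; linarith
  have hL2 : L^2 < (mF x y - 4/3 * (z * k))^2 := by
    apply sq_lt_sq' <;> linarith
  have hL3 := cs_aux (mF x y) z k
  have hL4 : 4 * eF x y * eF y x * (P * R) ≤ L^2 := by
    rw [hL]; nlinarith [sq_nonneg (eF x y * P - eF y x * R)]
  have hw : 0 < (1 - x) * (1 - y) := mul_pos hx1 hy1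
  have hk : 0 < 1 + k^2 := by positivity
  have s1 : 4 * eF x y * eF y x * (1 + k^2) ≤ (1 - x) * (1 - y) * L^2 := by
    rw [← hdet]
    have := mul_le_mul_of_nonneg_left hL4 hw.le
    linarith
  have s2 : (1 - x) * (1 - y) * L^2
      < (1 - x) * (1 - y) * (((mF x y)^2 + 16/9 * z^2) * (1 + k^2)) :=
    mul_lt_mul_of_pos_left (lt_of_lt_of_le hL2 hL3) hw
  have s3 : (1 - x) * (1 - y) * (((mF x y)^2 + 16/9 * z^2) * (1 + k^2))
      ≤ 4 * eF x y * eF y x * (1 + k^2) := by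
    rw [hz]
    have := mul_le_mul_of_nonneg_right hG hk.le
    linarith
  linarith

lemma eF_lb (x y : ℝ) (hx : 0 ≤ x) (hy : 0 ≤ y) (h : x + y ≤ 1/20) :
    1/5 - 31/100 * (x + y) ≤ eF x y := by
  unfold eF
  have h1 : 0 ≤ x * y := mul_nonneg hx hy
  have h2 : x * y ≤ 1/20 * y := mul_le_mul_of_nonneg_right (by linarith) hy
  have h3 : 0 ≤ x * y^2 := by positivity
  have h4 : 0 ≤ x^3 := by positivity
  have h5 : x^2 * y ≤ 1/400 * y := by
    have : x^2 ≤ 1/400 := by nlinarith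
    exact mul_le_mul_of_nonneg_right this hy
  have h6 : y^3 ≤ 1/20 * y^2 := by nlinarith [sq_nonneg y]
  have h7 : 0 ≤ x^2 := sq_nonneg x
  have h8 : x * y ≤ 1/20 * x := by nlinarith
  nlinarith [sq_nonneg y]

lemma mF_ub (x y : ℝ) (hx : 0 ≤ x) (hy : 0 ≤ y) (h : x + y ≤ 1/20) :
    mF x y ≤ 439/1000 - 105/100 * (x + y) := by
  unfold mF
  have h1 : 0 ≤ x * y := mul_nonneg hx hy
  have h2 : x * y ≤ 1/20 * y := mul_le_mul_of_nonneg_right (by linarith) hy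
  have h3 : x^2 ≤ 1/20 * x := by nlinarith
  have h4 : y^2 ≤ 1/20 * y := by nlinarith
  linarith

/-- step 1 of the small regime -/
lemma III_step1 {x y z P R k : ℝ} (hx : 0 ≤ x) (hy : 0 ≤ y) (hz : z^2 = x * y)
    (h2 : x + y ≤ 1/20) (hP : 0 < P) (hR : 0 < R)
    (hdet : P * R * ((1 - x) * (1 - y)) = 1 + k^2)
    (q1 : 0 < aU x y * R + bU x y * P - cL x y) (q2 : 0 < aU y x * P + bU y x * R - cL y x)
    (hT : (1 + x - y/3) * (1 - y) * P + (1 + y - x/3) * (1 - x) * R + 4/3 * (z * k)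
      ≤ 500/411 + 411/500 * (1 + 2/3 * (x + y) - (x - y)^2/3)) :
    (aU x y * R + bU x y * P - cL x y) + (aU y x * P + bU y x * R - cL y x) ≤ 3/50 := by
  have hcomb := comb_id x y z P R k
  have he1 := eF_lb x y hx hy h2
  have he2 := eF_lb y x hy hx (by linarith)
  have hm := mF_ub x y hx hy h2
  set σ1 := aU x y * R + bU x y * P - cL x y with hσ1
  set σ2 := aU y x * P + bU y x * R - cL y x with hσ2
  have hxy : 0 ≤ x * y := mul_nonneg hx hy
  -- lower bound of P + R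
  have hk0 : 0 ≤ |k| := abs_nonneg k
  have hPR : 1 + |k|^2 ≤ P * R := by
    rw [sq_abs, ← hdet]
    have h3 : (1 - x) * (1 - y) ≤ 1 := by nlinarith
    have h4 : 0 < P * R := mul_pos hP hR
    nlinarith
  have hsum : 199/100 + 199/1000 * |k| ≤ P + R := by
    have h5 : (199/100 + 199/1000 * |k|)^2 ≤ (P + R)^2 := by
      nlinarith [sq_nonneg (P - R), sq_nonneg (|k| - 1/10)]
    exact (pow_le_pow_iff_left₀ (by positivity) (by positivity) two_ne_zero).mp h5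
  have hzb : |z| ≤ (x + y)/2 := by
    apply abs_le_of_sq_le_sq _ (by positivity)
    nlinarith [sq_nonneg (x - y)]
  have hzk : -((x + y)/2 * |k|) ≤ z * k := by
    have h6 : |z * k| ≤ (x + y)/2 * |k| := by
      rw [abs_mul]; exact mul_le_mul_of_nonneg_right hzb hk0
    exact (abs_le.mp h6).1
  have t0 : 0 < 1/5 - 31/100 * (x + y) := by linarith
  have h7 : (1/5 - 31/100 * (x + y)) * (P + R) ≤ eF x y * P + eF y x * R := by
    have a1 := mul_le_mul_of_nonneg_right he1 hP.le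
    have he2' : 1/5 - 31/100 * (x + y) ≤ eF y x := by linarith
    have a2 := mul_le_mul_of_nonneg_right he2' hR.le
    linarith
  have h8 := mul_le_mul_of_nonneg_left hsum t0.le
  have h9 : 0 ≤ ((1/5 - 31/100 * (x + y)) * (199/1000) - 2/3 * (x + y)) * |k| := by
    apply mul_nonneg _ hk0
    linarith
  have h10 : 19/20 * (σ1 + σ2) ≤ (1 - x) * σ1 + (1 - y) * σ2 := by nlinarith
  nlinarith

lemma aU_bd (x y : ℝ) (hx : 0 ≤ x) (hy : 0 ≤ y) (h : x + y ≤ 1/20) :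
    49/50 ≤ aU x y ∧ aU x y ≤ 1 := by
  unfold aU
  have h1 : 0 ≤ x * y := mul_nonneg hx hy
  have h2 : x * y ≤ 1/20 * x := by nlinarith
  have h3 : x^2 ≤ 1/20 * x := by nlinarith
  constructor
  · nlinarith
  · nlinarith [sq_nonneg x]

lemma bU_bd (x y : ℝ) (hx : 0 ≤ x) (hy : 0 ≤ y) (h : x + y ≤ 1/20) :
    0 ≤ bU x y ∧ bU x y ≤ 37/25 * x := by
  unfold bU
  have h1 : 0 ≤ x * y := mul_nonneg hx hy
  have h2 : x * y ≤ 1/20 * x := by nlinarith
  have h3 : x^2 ≤ 1/20 * x := by nlinarith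
  constructor
  · nlinarith [sq_nonneg x]
  · nlinarith

/-- lower bound of one coordinate -/
lemma III_low {x y P R σ : ℝ} (hx : 0 ≤ x) (hy : 0 ≤ y) (h2 : x + y ≤ 1/20)
    (hR : 0 < R) (hP1 : P ≤ 127/100)
    (h : aU x y * R + bU x y * P - cL x y = σ) :
    1 + σ + 162/100 * x - 33/100 * y ≤ R := by
  obtain ⟨a1, a2⟩ := aU_bd x y hx hy h2
  obtain ⟨b1, b2⟩ := bU_bd x y hx hy h2
  have h3 : aU x y * R ≤ R := by nlinarith
  have h4 : bU x y * P ≤ 37/25 * x * (127/100) := by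
    calc bU x y * P ≤ bU x y * (127/100) := mul_le_mul_of_nonneg_left hP1 b1
      _ ≤ _ := mul_le_mul_of_nonneg_right b2 (by norm_num)
  unfold cL at h
  linarith

lemma III_up {x y P R σ : ℝ} (hx : 0 ≤ x) (hy : 0 ≤ y) (h2 : x + y ≤ 1/20)
    (hR : 0 < R) (hP : 0 < P) (hσ : σ ≤ 3/50)
    (h : aU x y * R + bU x y * P - cL x y = σ) : R ≤ 127/100 := by
  obtain ⟨a1, a2⟩ := aU_bd x y hx hy h2
  obtain ⟨b1, b2⟩ := bU_bd x y hx hy h2
  have h3 : 49/50 * R ≤ aU x y * R := mul_le_mul_of_nonneg_right a1 hR.le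
  have h4 : 0 ≤ bU x y * P := mul_nonneg b1 hP.le
  unfold cL at h
  linarith

lemma III_one {x y σ R : ℝ} (hx : 0 ≤ x) (hy : 0 ≤ y) (h2 : x + y ≤ 1/20) (hσ0 : 0 ≤ σ)
    (h : 1 + σ + 162/100 * x - 33/100 * y ≤ R) :
    1 + 19/20 * σ + 53/100 * x - 33/100 * y ≤ (1 - x) * R := by
  have h3 : (1 - x) * (1 + σ + 162/100 * x - 33/100 * y) ≤ (1 - x) * R :=
    mul_le_mul_of_nonneg_left h (by linarith)
  have h4 : x * σ ≤ 1/20 * σ := mul_le_mul_of_nonneg_right (by linarith) hσ0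
  have h5 : x^2 ≤ 1/20 * x := by nlinarith
  have h6 : 0 ≤ x * y := mul_nonneg hx hy
  nlinarith

lemma III_prod {x y s1 s2 a b : ℝ} (hx : 0 ≤ x) (hy : 0 ≤ y) (h2 : x + y ≤ 1/20) (hs1 : 0 ≤ s1)
    (hs2 : 0 ≤ s2)
    (ha : 1 + 19/20 * s1 + 53/100 * x - 33/100 * y ≤ a)
    (hb : 1 + 19/20 * s2 + 53/100 * y - 33/100 * x ≤ b) :
    1 + 9/10 * (s1 + s2) + 18/100 * (x + y) ≤ a * b := by
  have h3 : (1 + 19/20 * s1 + 53/100 * x - 33/100 * y) * (1 + 19/20 * s2 + 53/100 * y - 33/100 * x)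
      ≤ a * b := mul_le_mul ha hb (by linarith) (by linarith)
  have h4 : 0 ≤ s1 * s2 := mul_nonneg hs1 hs2
  have h5 : 0 ≤ x * y := mul_nonneg hx hy
  have h6 : s1 * x ≤ 1/20 * s1 := by nlinarith
  have h7 : s2 * y ≤ 1/20 * s2 := by nlinarith
  have h8 : 0 ≤ s1 * y := mul_nonneg hs1 hy
  have h9 : 0 ≤ s2 * x := mul_nonneg hs2 hx
  have h10 : x^2 ≤ 1/20 * x := by nlinarith
  have h11 : y^2 ≤ 1/20 * y := by nlinarith
  nlinarith

lemma III_psi {x y P R τ : ℝ} (hx : 0 ≤ x) (hy : 0 ≤ y) (h2 : x + y ≤ 1/20)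
    (hτ1 : 0.10132 < τ) (hτ2 : τ < 0.10133) (hs : 2 ≤ R + P) (hs' : R + P ≤ 127/50)
    (hd : |P - R| ≤ 3/10) :
    |(R + P) * (2.3328 - 13.28 * τ) - 2.3328 - 11.52 * τ + 32 * τ^2
      + 9.3312 * (1/8 - τ) * ((x - y) * (P - R))| ≤ 121/100 := by
  have h3 : |(x - y) * (P - R)| ≤ 1/20 * (3/10) := by
    rw [abs_mul]
    apply mul_le_mul _ hd (abs_nonneg _) (by norm_num)
    rw [abs_le]; constructor <;> linarith
  rw [abs_le] at h3
  obtain ⟨h4, h5⟩ := h3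
  have e1 : 0 < 9.3312 * (1/8 - τ) := by linarith
  have e2 : 9.3312 * (1/8 - τ) ≤ 0.221 := by linarith
  have h6 : 9.3312 * (1/8 - τ) * ((x - y) * (P - R)) ≤ 0.0034 := by nlinarith
  have h7 : -0.0034 ≤ 9.3312 * (1/8 - τ) * ((x - y) * (P - R)) := by nlinarith
  have f1 : 0.987 ≤ 2.3328 - 13.28 * τ := by linarith
  have f2 : 2.3328 - 13.28 * τ ≤ 0.988 := by linarith
  have h8 : (R + P) * (2.3328 - 13.28 * τ) ≤ 127/50 * 0.988 := by nlinarith
  have h9 : 2 * 0.987 ≤ (R + P) * (2.3328 - 13.28 * τ) := by nlinarith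
  have g1 : τ^2 ≤ 0.0103 := by nlinarith
  have g2 : 0.01 ≤ τ^2 := by nlinarith
  rw [abs_le]; constructor <;> linarith

lemma III_fin {x y z s1 s2 k κ τ ψ : ℝ} (hx : 0 ≤ x) (hy : 0 ≤ y) (hz : z^2 = x * y)
    (h2 : x + y ≤ 1/20) (hs1 : 0 < s1) (hs2 : 0 < s2) (hs : s1 + s2 ≤ 3/50)
    (hτ1 : 0.10132 < τ) (hκ : κ^2 ≤ s1 * s2) (hk : 8 * τ * k = z * ψ - κ)
    (hψ : |ψ| ≤ 121/100) (hk2 : 9/10 * (s1 + s2) + 18/100 * (x + y) ≤ k^2) : False := by
  have hψ2 : ψ^2 ≤ (121/100)^2 := by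
    rw [← sq_abs ψ]
    exact pow_le_pow_left₀ (abs_nonneg _) hψ 2
  have hxy0 : 0 ≤ x * y := mul_nonneg hx hy
  have h3 : (8 * τ * k)^2 ≤ 2 * ((x * y) * ψ^2) + 2 * κ^2 := by
    rw [hk, ← hz]
    have := sq_nonneg (z * ψ + κ)
    linarith
  have h4 : (x * y) * ψ^2 ≤ (x * y) * (121/100)^2 := mul_le_mul_of_nonneg_left hψ2 hxy0
  have h5 : 4 * (x * y) ≤ 1/20 * (x + y) := by
    have e1 := sq_nonneg (x - y)
    have e2 : (x + y) * (x + y) ≤ 1/20 * (x + y) := mul_le_mul_of_nonneg_right h2 (by linarith)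
    linarith
  have h6 : 4 * (s1 * s2) ≤ 3/50 * (s1 + s2) := by
    have e1 := sq_nonneg (s1 - s2)
    have e2 : (s1 + s2) * (s1 + s2) ≤ 3/50 * (s1 + s2) := mul_le_mul_of_nonneg_right hs (by linarith)
    linarith
  have h7 : 0.656 ≤ (8 * τ)^2 := by
    have e1 : 0.81 ≤ 8 * τ := by linarith
    have e2 := pow_le_pow_left₀ (by norm_num) e1 2
    norm_num at e2 ⊢
    linarith
  have h8 : 0.656 * k^2 ≤ (8 * τ)^2 * k^2 := mul_le_mul_of_nonneg_right h7 (sq_nonneg k)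
  have h9 : (8 * τ)^2 * k^2 = (8 * τ * k)^2 := by ring
  linarith

lemma partIII {x y z P R k κ τ : ℝ} (hx : 0 ≤ x) (hy : 0 ≤ y) (hz : z^2 = x * y)
    (h2 : x + y ≤ 1/20) (hP : 0 < P) (hR : 0 < R)
    (hdet : P * R * ((1 - x) * (1 - y)) = 1 + k^2)
    (q1 : 0 < aU x y * R + bU x y * P - cL x y) (q2 : 0 < aU y x * P + bU y x * R - cL y x)
    (hs : (aU x y * R + bU x y * P - cL x y) + (aU y x * P + bU y x * R - cL y x) ≤ 3/50)
    (hτ1 : 0.10132 < τ) (hτ2 : τ < 0.10133)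
    (hκ : κ^2 ≤ (aU x y * R + bU x y * P - cL x y) * (aU y x * P + bU y x * R - cL y x))
    (hk : 8 * τ * k = z * ((R + P) * (2.3328 - 13.28 * τ) - 2.3328 - 11.52 * τ + 32 * τ^2
      + 9.3312 * (1/8 - τ) * ((x - y) * (P - R))) - κ) : False := by
  obtain ⟨s1, hs1⟩ : ∃ s, aU x y * R + bU x y * P - cL x y = s := ⟨_, rfl⟩
  obtain ⟨s2, hs2⟩ : ∃ s, aU y x * P + bU y x * R - cL y x = s := ⟨_, rfl⟩
  rw [hs1] at q1 hs hκ
  rw [hs2] at q2 hs hκ
  have h2' : y + x ≤ 1/20 := by linarith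
  have hRu := III_up hx hy h2 hR hP (by linarith) hs1
  have hPu := III_up hy hx h2' hP hR (by linarith) hs2
  have hRl := III_low hx hy h2 hR hPu hs1
  have hPl := III_low hy hx h2' hP hRu hs2
  have ha := III_one hx hy h2 q1.le hRl
  have hb := III_one hy hx h2' q2.le hPl
  have hprod := III_prod hx hy h2 q1.le q2.le ha hb
  have hk2 : 9/10 * (s1 + s2) + 18/100 * (x + y) ≤ k^2 := by
    have : (1 - x) * R * ((1 - y) * P) = 1 + k^2 := by rw [← hdet]; ring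
    rw [this] at hprod
    linarith
  have hd : |P - R| ≤ 3/10 := by
    rw [abs_le]; constructor <;> linarith
  have hψ := III_psi hx hy h2 hτ1 hτ2 (by linarith) (by linarith) hd
  exact III_fin hx hy hz h2 q1 q2 hs hτ1 hκ hk hψ hk2

end Pool.Agent.Lib.MP_03b26c_an
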