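import Mathlib
import Pool.Agent.Lib.MP_03b26c_an.Alg3

set_option autoImplicit false

namespace Pool.Agent.Lib.MP_03b26c_an

lemma C_nonneg {x y z v1 v2 : ℝ} (hx : 0 ≤ x) (hy : 0 ≤ y) (h : x + y + 2 * |z| ≤ 9/16) :
    0 ≤ (1 + x - y/3) * v1^2 + 2 * (2/3 * z) * (v1 * v2) + (1 + y - x/3) * v2^2 := by
  have hz1 : z ≤ |z| := le_abs_self z
  have hz2 : -z ≤ |z| := neg_le_abs z
  rcases le_total 0 z with hz | hz
  · have e : (1 + x - y/3) * v1^2 + 2 * (2/3 * z) * (v1 * v2) + (1 + y - x/3) * v2^2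
        = 2/3 * z * (v1 + v2)^2 + (1 + x - y/3 - 2/3 * z) * v1^2
          + (1 + y - x/3 - 2/3 * z) * v2^2 := by ring
    rw [e]
    have h1 : 0 ≤ 1 + x - y/3 - 2/3 * z := by linarith
    have h2 : 0 ≤ 1 + y - x/3 - 2/3 * z := by linarith
    positivity
  · have e : (1 + x - y/3) * v1^2 + 2 * (2/3 * z) * (v1 * v2) + (1 + y - x/3) * v2^2
        = 2/3 * (-z) * (v1 - v2)^2 + (1 + x - y/3 + 2/3 * z) * v1^2
          + (1 + y - x/3 + 2/3 * z) * v2^2 := by ring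
    rw [e]
    have h1 : 0 ≤ 1 + x - y/3 + 2/3 * z := by linarith
    have h2 : 0 ≤ 1 + y - x/3 + 2/3 * z := by linarith
    have h3 : 0 ≤ -z := by linarith
    positivity

/-- the trace inequality from linear functions -/
lemma T_ineq {x y z p r k Λ : ℝ} (hx : 0 ≤ x) (hy : 0 ≤ y) (hz : z^2 = x * y)
    (h : x + y + 2 * |z| ≤ 9/16) (hdet : p * r - k^2 = 1) (hΛ : 9.8696 < Λ)
    (Lin : ∀ v1 v2 : ℝ, Λ / 12 * ((1 + x - y/3) * v1^2 + 2 * (2/3 * z) * (v1 * v2)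
      + (1 + y - x/3) * v2^2) ≤ r * v1^2 - 2 * k * v1 * v2 + p * v2^2) :
    (1 + x - y/3) * p + (1 + y - x/3) * r + 4/3 * (z * k)
      ≤ 500/411 + 411/500 * (1 + 2/3 * (x + y) - (x - y)^2/3) := by
  have hz0 := abs_nonneg z
  have hϖ : 411/500 < Λ / 12 := by linarith
  have hN : ∀ v1 v2 : ℝ, 411/500 * ((1 + x - y/3) * v1^2 + 2 * (2/3 * z) * (v1 * v2)
      + (1 + y - x/3) * v2^2) ≤ r * v1^2 - 2 * k * v1 * v2 + p * v2^2 := by
    intro v1 v2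
    exact le_trans (mul_le_mul_of_nonneg_right hϖ.le (C_nonneg hx hy h)) (Lin v1 v2)
  obtain ⟨N11, hN11⟩ : ∃ N, N = r - 411/500 * (1 + x - y/3) := ⟨_, rfl⟩
  obtain ⟨N22, hN22⟩ : ∃ N, N = p - 411/500 * (1 + y - x/3) := ⟨_, rfl⟩
  obtain ⟨N12, hN12⟩ : ∃ N, N = k + 411/500 * (2/3 * z) := ⟨_, rfl⟩
  have hpos : 0 < N11 := by
    have h1 := Lin 1 0
    have h2 : 0 < 1 + x - y/3 := by linarith
    have h3 : 411/500 * (1 + x - y/3) < Λ/12 * (1 + x - y/3) := mul_lt_mul_of_pos_right hϖ h2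
    rw [hN11]
    linarith
  have hform : ∀ v1 v2 : ℝ, 0 ≤ N11 * v1^2 - 2 * N12 * v1 * v2 + N22 * v2^2 := by
    intro v1 v2
    have := hN v1 v2
    rw [hN11, hN12, hN22]
    linarith
  have h1 := hform N12 N11
  have h2 : 0 ≤ N11 * (N11 * N22 - N12^2) := by linarith
  have h3 : 0 ≤ N11 * N22 - N12^2 := nonneg_of_mul_nonneg_right h2 hpos
  rw [hN11, hN22, hN12] at h3
  have h4 : (r - 411/500 * (1 + x - y/3)) * (p - 411/500 * (1 + y - x/3)) - (k + 411/500 * (2/3 * z))^2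
      = (p * r - k^2) - 411/500 * ((1 + x - y/3) * p + (1 + y - x/3) * r + 4/3 * (z * k))
        + (411/500)^2 * ((1 + x - y/3) * (1 + y - x/3) - 4/9 * z^2) := by ring
  have h5 : (1 + x - y/3) * (1 + y - x/3) - 4/9 * z^2 = 1 + 2/3 * (x + y) - (x - y)^2/3 := by
    rw [hz]; ring
  rw [h4, hdet, h5] at h3
  linarith

lemma quad_pos {A B C : ℝ} (h : ∀ v1 v2 : ℝ, (v1 ≠ 0 ∨ v2 ≠ 0) →
    0 < A * v1^2 + 2 * B * (v1 * v2) + C * v2^2) : 0 < A ∧ 0 < C ∧ B^2 < A * C := by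
  have hA : 0 < A := by
    have := h 1 0 (Or.inl one_ne_zero)
    linarith
  have hC : 0 < C := by
    have := h 0 1 (Or.inr one_ne_zero)
    linarith
  refine ⟨hA, hC, ?_⟩
  have h1 := h (-B) A (Or.inr hA.ne')
  have h2 : A * (-B)^2 + 2 * B * (-B * A) + C * A^2 = A * (A * C - B^2) := by ring
  rw [h2] at h1
  have := (mul_pos_iff_of_pos_left hA).mp h1
  linarith


lemma tau_bounds : 0.10132 < 1 / Real.pi^2 ∧ 1 / Real.pi^2 < 0.10133 := by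
  have h1 := Real.pi_gt_d4
  have h2 := Real.pi_lt_d4
  have h3 : (3.1415:ℝ)^2 < Real.pi^2 := by gcongr
  have h4 : Real.pi^2 < (3.1416:ℝ)^2 := by gcongr
  have h5 : 0 < Real.pi^2 := by positivity
  constructor
  · rw [lt_div_iff₀ h5]; norm_num at h4 ⊢; linarith
  · rw [div_lt_iff₀ h5]; norm_num at h3 ⊢; linarith

lemma aT_le {x y τ : ℝ} (hx : 0 ≤ x) (hy : 0 ≤ y) (hτ1 : 0.10132 < τ) (hτ2 : τ < 0.10133) :
    1 + x * (1.8328 - 21.04 * τ) - 9.3312 * (1/8 - τ) * (x * (x - y)) ≤ aU x y := by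
  unfold aU
  have hxy : 0 ≤ x * y := mul_nonneg hx hy
  have h1 : x * (1.8328 - 21.04 * τ) ≤ x * (-0.298) :=
    mul_le_mul_of_nonneg_left (by linarith) hx
  have h2 : 0.22 * x^2 ≤ 9.3312 * (1/8 - τ) * x^2 :=
    mul_le_mul_of_nonneg_right (by linarith) (sq_nonneg x)
  have h3 : 9.3312 * (1/8 - τ) * (x * y) ≤ 0.222 * (x * y) :=
    mul_le_mul_of_nonneg_right (by linarith) hxy
  linarith

lemma bT_le {x y τ : ℝ} (hx : 0 ≤ x) (hy : 0 ≤ y) (hτ1 : 0.10132 < τ) (hτ2 : τ < 0.10133) :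
    x * (2.8328 - 13.52 * τ) + 9.3312 * (1/8 - τ) * (x * (x - y)) ≤ bU x y := by
  unfold bU
  have hxy : 0 ≤ x * y := mul_nonneg hx hy
  have h1 : x * (2.8328 - 13.52 * τ) ≤ x * 1.464 :=
    mul_le_mul_of_nonneg_left (by linarith) hx
  have h2 : 9.3312 * (1/8 - τ) * x^2 ≤ 0.222 * x^2 :=
    mul_le_mul_of_nonneg_right (by linarith) (sq_nonneg x)
  have h3 : 0.22 * (x * y) ≤ 9.3312 * (1/8 - τ) * (x * y) :=
    mul_le_mul_of_nonneg_right (by linarith) hxy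
  linarith

lemma cT_ge {x y τ : ℝ} (hx : 0 ≤ x) (hy : 0 ≤ y) (hτ1 : 0.10132 < τ) (hτ2 : τ < 0.10133) :
    cL x y ≤ 1 + x * (2.3328 + 11.52 * τ) - 32 * τ^2 * y := by
  unfold cL
  have h1 : x * 3.5 ≤ x * (2.3328 + 11.52 * τ) :=
    mul_le_mul_of_nonneg_left (by linarith) hx
  have h0 : 32 * τ^2 ≤ 0.33 := by nlinarith
  have h2 : 32 * τ^2 * y ≤ 0.33 * y := mul_le_mul_of_nonneg_right h0 hy
  linarith

/-- the diagonal coefficient of the trigonometric form is at most its rational bound -/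
lemma q_le {x y τ P R : ℝ} (hx : 0 ≤ x) (hy : 0 ≤ y) (hP : 0 < P) (hR : 0 < R)
    (hτ1 : 0.10132 < τ) (hτ2 : τ < 0.10133) :
    (1 + x * (1.8328 - 21.04 * τ) - 9.3312 * (1/8 - τ) * (x * (x - y))) * R
      + (x * (2.8328 - 13.52 * τ) + 9.3312 * (1/8 - τ) * (x * (x - y))) * P
      - (1 + x * (2.3328 + 11.52 * τ) - 32 * τ^2 * y)
    ≤ aU x y * R + bU x y * P - cL x y := by
  have h1 := mul_le_mul_of_nonneg_right (aT_le hx hy hτ1 hτ2) hR.le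
  have h2 := mul_le_mul_of_nonneg_right (bT_le hx hy hτ1 hτ2) hP.le
  have h3 := cT_ge hx hy hτ1 hτ2
  linarith

/-- the quadratic form identity -/
lemma trig_form (α β τ q P R k v1 v2 : ℝ) (hq : q * τ = 1) :
    2 * τ * (((q/2 * R + (q/4 - 1) * (α^2/4) * (P - R)) * v1^2
        + (q/2 * P + (q/4 - 1) * (β^2/4) * (R - P)) * v2^2
        + (q/4 * (R + P) + (q/8 - 1) * (α^2/4 - β^2/4) * (P - R)) * (27/25 * (α * v1 + β * v2))^2
        + 2 * (-4 * k + α * β / 2 * (R + P)) * (v1 * v2)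
        - 4/3 * α * (2 * R + P) * (v1 * (27/25 * (α * v1 + β * v2)))
        - 4/3 * β * (2 * P + R) * (v2 * (27/25 * (α * v1 + β * v2))))
      - q * (1/2 * (v1^2 + v2^2) + 1/4 * (27/25 * (α * v1 + β * v2))^2
        + 4 * α * τ / 3 * (v1 * (27/25 * (α * v1 + β * v2)))
        + 4 * β * τ / 3 * (v2 * (27/25 * (α * v1 + β * v2))) - 4 * τ^2 * (β * v1 + α * v2)^2))
    = ((1 + α^2/4 * (1.8328 - 21.04 * τ) - 9.3312 * (1/8 - τ) * (α^2/4 * (α^2/4 - β^2/4))) * R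
      + (α^2/4 * (2.8328 - 13.52 * τ) + 9.3312 * (1/8 - τ) * (α^2/4 * (α^2/4 - β^2/4))) * P
      - (1 + α^2/4 * (2.3328 + 11.52 * τ) - 32 * τ^2 * (β^2/4))) * v1^2
      + 2 * (-8 * τ * k + α * β / 4 * ((R + P) * (2.3328 - 13.28 * τ) - 2.3328 - 11.52 * τ + 32 * τ^2
      + 9.3312 * (1/8 - τ) * ((α^2/4 - β^2/4) * (P - R)))) * (v1 * v2)
      + ((1 + β^2/4 * (1.8328 - 21.04 * τ) - 9.3312 * (1/8 - τ) * (β^2/4 * (β^2/4 - α^2/4))) * P
      + (β^2/4 * (2.8328 - 13.52 * τ) + 9.3312 * (1/8 - τ) * (β^2/4 * (β^2/4 - α^2/4))) * R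
      - (1 + β^2/4 * (2.3328 + 11.52 * τ) - 32 * τ^2 * (α^2/4))) * v2^2 := by
  have h1 : q = 1/τ := by
    have : τ ≠ 0 := by
      rintro rfl
      simp at hq
    field_simp
    linarith
  have h2 : τ ≠ 0 := by
    rintro rfl
    simp at hq
  rw [h1]
  field_simp
  ring

lemma Br_pos {α β τ v1 v2 : ℝ} (hαβ : |α| + |β| ≤ 3/2) (hτ1 : 0.10132 < τ) (hτ2 : τ < 0.10133)
    (hv : v1 ≠ 0 ∨ v2 ≠ 0) :
    0 < 1/2 * (v1^2 + v2^2) + 1/4 * (27/25 * (α * v1 + β * v2))^2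
        + 4 * α * τ / 3 * (v1 * (27/25 * (α * v1 + β * v2)))
        + 4 * β * τ / 3 * (v2 * (27/25 * (α * v1 + β * v2))) - 4 * τ^2 * (β * v1 + α * v2)^2 := by
  have hab : α^2 + β^2 ≤ 9/4 := by
    have h0 := abs_nonneg α
    have h1 := abs_nonneg β
    rw [← sq_abs α, ← sq_abs β]
    nlinarith [mul_nonneg h0 h1]
  have hv2 : 0 < v1^2 + v2^2 := by
    rcases hv with h | h
    · positivity
    · positivity
  have h1 : (β * v1 + α * v2)^2 ≤ (α^2 + β^2) * (v1^2 + v2^2) := by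
    nlinarith [sq_nonneg (β * v2 - α * v1)]
  have h2 : (α^2 + β^2) * (v1^2 + v2^2) ≤ 9/4 * (v1^2 + v2^2) :=
    mul_le_mul_of_nonneg_right hab hv2.le
  have h3 : 4 * τ^2 ≤ 0.05 := by nlinarith
  have h4 : 4 * τ^2 * (β * v1 + α * v2)^2 ≤ 0.05 * (9/4 * (v1^2 + v2^2)) :=
    mul_le_mul h3 (h1.trans h2) (sq_nonneg _) (by norm_num)
  have h5 : 4 * α * τ / 3 * (v1 * (27/25 * (α * v1 + β * v2)))
        + 4 * β * τ / 3 * (v2 * (27/25 * (α * v1 + β * v2)))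
        = 36/25 * τ * (α * v1 + β * v2)^2 := by ring
  have h6 : 0 ≤ 36/25 * τ * (α * v1 + β * v2)^2 := by
    have : 0 < τ := by linarith
    positivity
  have h7 := sq_nonneg (27/25 * (α * v1 + β * v2))
  linarith

/-- the region of moderate deviation from a parallelogram -/
theorem part23 {α β Λ p r k : ℝ} (hαβ : |α| + |β| ≤ 3/2) (hdet : p * r - k^2 = 1)
    (hp : 0 < p) (hr : 0 < r) (hΛ : Real.pi^2 < Λ)
    (Lin : ∀ v1 v2 : ℝ, Λ / 12 * ((1 + α^2/4 - β^2/12) * v1^2 + 2 * (α * β / 6) * (v1 * v2)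
      + (1 + β^2/4 - α^2/12) * v2^2) ≤ r * v1^2 - 2 * k * v1 * v2 + p * v2^2)
    (Trg : ∀ v1 v2 v3 P R : ℝ, p = P * (1 - β^2/4) → r = R * (1 - α^2/4) →
      Λ * (1/2 * (v1^2 + v2^2) + 1/4 * v3^2 + 4 * α / (3 * Real.pi^2) * (v1 * v3)
        + 4 * β / (3 * Real.pi^2) * (v2 * v3) - 4 / Real.pi^4 * (β * v1 + α * v2)^2)
      ≤ (Real.pi^2/2 * R + (Real.pi^2/4 - 1) * (α^2/4) * (P - R)) * v1^2
        + (Real.pi^2/2 * P + (Real.pi^2/4 - 1) * (β^2/4) * (R - P)) * v2^2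
        + (Real.pi^2/4 * (R + P) + (Real.pi^2/8 - 1) * (α^2/4 - β^2/4) * (P - R)) * v3^2
        + 2 * (-4 * k + α * β / 2 * (R + P)) * (v1 * v2)
        - 4/3 * α * (2 * R + P) * (v1 * v3) - 4/3 * β * (2 * P + R) * (v2 * v3)) : False := by
  have hα0 := abs_nonneg α
  have hβ0 := abs_nonneg β
  obtain ⟨hτ1, hτ2⟩ := tau_bounds
  obtain ⟨τ, hτ⟩ : ∃ τ, τ = 1 / Real.pi^2 := ⟨_, rfl⟩
  rw [← hτ] at hτ1 hτ2
  have hpi : Real.pi^2 ≠ 0 := by positivity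
  have hq : Real.pi^2 * τ = 1 := by rw [hτ]; field_simp
  obtain ⟨x, hx⟩ : ∃ x, x = α^2/4 := ⟨_, rfl⟩
  obtain ⟨y, hy⟩ : ∃ y, y = β^2/4 := ⟨_, rfl⟩
  obtain ⟨z, hz⟩ : ∃ z, z = α * β/4 := ⟨_, rfl⟩
  have hx0 : 0 ≤ x := by rw [hx]; positivity
  have hy0 : 0 ≤ y := by rw [hy]; positivity
  have hzz : z^2 = x * y := by rw [hx, hy, hz]; ring
  have hzabs : |z| = |α| * |β| / 4 := by rw [hz, abs_div, abs_mul]; norm_num
  have hxabs : x = |α|^2/4 := by rw [hx, sq_abs]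
  have hyabs : y = |β|^2/4 := by rw [hy, sq_abs]
  have hdom : x + y + 2 * |z| ≤ 9/16 := by
    rw [hzabs, hxabs, hyabs]
    nlinarith
  have hz0 := abs_nonneg z
  have hxy1 : x + y ≤ 9/16 := by linarith
  have h4 : 4 * (x * y) ≤ (9/16 - (x + y))^2 := by
    rw [← hzz, ← sq_abs z]
    nlinarith
  have hx1 : 0 < 1 - x := by linarith
  have hy1 : 0 < 1 - y := by linarith
  obtain ⟨P, hP⟩ : ∃ P, P = p / (1 - y) := ⟨_, rfl⟩
  obtain ⟨R, hR⟩ : ∃ R, R = r / (1 - x) := ⟨_, rfl⟩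
  have hP0 : 0 < P := by rw [hP]; positivity
  have hR0 : 0 < R := by rw [hR]; positivity
  have hpP : p = P * (1 - y) := by rw [hP]; field_simp
  have hrR : r = R * (1 - x) := by rw [hR]; field_simp
  have hdet' : P * R * ((1 - x) * (1 - y)) = 1 + k^2 := by
    have : P * R * ((1 - x) * (1 - y)) = p * r := by rw [hpP, hrR]; ring
    rw [this]; linarith
  have hΛ' : 9.8696 < Λ := by
    have h1 := Real.pi_gt_d6
    have h3 : (3.141592:ℝ)^2 < Real.pi^2 := by gcongr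
    norm_num at h3 ⊢
    linarith
  have hT := T_ineq (x := x) (y := y) (z := z) (p := p) (r := r) (k := k) hx0 hy0 hzz hdom hdet hΛ'
    (by
      intro v1 v2
      have := Lin v1 v2
      rw [hx, hy, hz]
      have e : Λ / 12 * ((1 + α^2/4 - β^2/4/3) * v1^2 + 2 * (2/3 * (α * β/4)) * (v1 * v2)
      + (1 + β^2/4 - α^2/4/3) * v2^2) = Λ / 12 * ((1 + α^2/4 - β^2/12) * v1^2 + 2 * (α * β / 6) * (v1 * v2)
      + (1 + β^2/4 - α^2/12) * v2^2) := by ring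
      rw [e]
      exact this)
  have hT' : (1 + x - y/3) * (1 - y) * P + (1 + y - x/3) * (1 - x) * R + 4/3 * (z * k)
      ≤ 500/411 + 411/500 * (1 + 2/3 * (x + y) - (x - y)^2/3) := by
    rw [hpP, hrR] at hT
    linarith
  have hform : ∀ v1 v2 : ℝ, (v1 ≠ 0 ∨ v2 ≠ 0) →
    0 < ((1 + x * (1.8328 - 21.04 * τ) - 9.3312 * (1/8 - τ) * (x * (x - y))) * R
      + (x * (2.8328 - 13.52 * τ) + 9.3312 * (1/8 - τ) * (x * (x - y))) * P
      - (1 + x * (2.3328 + 11.52 * τ) - 32 * τ^2 * y)) * v1^2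
      + 2 * (-8 * τ * k + z * ((R + P) * (2.3328 - 13.28 * τ) - 2.3328 - 11.52 * τ + 32 * τ^2
      + 9.3312 * (1/8 - τ) * ((x - y) * (P - R)))) * (v1 * v2)
      + ((1 + y * (1.8328 - 21.04 * τ) - 9.3312 * (1/8 - τ) * (y * (y - x))) * P
      + (y * (2.8328 - 13.52 * τ) + 9.3312 * (1/8 - τ) * (y * (y - x))) * R
      - (1 + y * (2.3328 + 11.52 * τ) - 32 * τ^2 * x)) * v2^2 := by
    intro v1 v2 hv
    have hid := trig_form α β τ (Real.pi^2) P R k v1 v2 hq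
    rw [← hx, ← hy, ← hz] at hid
    rw [← hid]
    have hB := Br_pos (v1 := v1) (v2 := v2) hαβ hτ1 hτ2 hv
    have hI := Trg v1 v2 (27/25 * (α * v1 + β * v2)) P R (by rw [← hy]; exact hpP)
      (by rw [← hx]; exact hrR)
    rw [← hx, ← hy] at hI
    have e1 : 4 * α / (3 * Real.pi^2) = 4 * α * τ / 3 := by rw [hτ]; field_simp
    have e2 : 4 * β / (3 * Real.pi^2) = 4 * β * τ / 3 := by rw [hτ]; field_simp
    have e3 : 4 / Real.pi^4 = 4 * τ^2 := by rw [hτ]; field_simp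
    rw [e1, e2, e3] at hI
    have hS := mul_lt_mul_of_pos_right hΛ hB
    have hτ0 : 0 < 2 * τ := by linarith
    apply mul_pos hτ0
    linarith
  obtain ⟨g1, g2, g3⟩ := quad_pos hform
  have l1 := q_le (P := P) (R := R) hx0 hy0 hP0 hR0 hτ1 hτ2
  have l2 := q_le (P := R) (R := P) hy0 hx0 hR0 hP0 hτ1 hτ2
  have q1 := lt_of_lt_of_le g1 l1
  have q2 := lt_of_lt_of_le g2 l2
  rcases le_total (1/20) (x + y) with h | h
  · exact partII hx0 hy0 hzz h hxy1 h4 hP0 hR0 hdet' q1 q2 hT'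
  · have hs := III_step1 hx0 hy0 hzz h hP0 hR0 hdet' q1 q2 hT'
    have hκ := le_trans g3.le (mul_le_mul l1 l2 g2.le q1.le)
    exact partIII hx0 hy0 hzz h hP0 hR0 hdet' q1 q2 hs hτ1 hτ2 hκ (by ring)

end Pool.Agent.Lib.MP_03b26c_an
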