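import Mathlib

set_option autoImplicit false

open MeasureTheory Metric ContinuousLinearMap Filter Topology
open scoped Convolution ContDiff

namespace Pool.Agent.Lib.MP_03b26c_an

/-- the Euclidean plane -/
abbrev E := EuclideanSpace ℝ (Fin 2)

/-- the coordinate plane -/
abbrev W := ℝ × ℝ

/-- mollification of `f` by a bump function -/
noncomputable def moll (φ : ContDiffBump (0 : W)) (f : W → ℝ) : W → ℝ :=
  fun x => ∫ y, φ.normed volume y * f (x - y)

lemma moll_eq_conv (φ : ContDiffBump (0 : W)) (f : W → ℝ) :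
    moll φ f = (φ.normed volume ⋆[lsmul ℝ ℝ, volume] f) := by
  funext x
  simp [moll, convolution_def]

lemma moll_contDiff (φ : ContDiffBump (0 : W)) {f : W → ℝ} (hf : Continuous f) :
    ContDiff ℝ ∞ (moll φ f) := by
  rw [moll_eq_conv]
  exact φ.hasCompactSupport_normed.contDiff_convolution_left _ φ.contDiff_normed
    (hf.locallyIntegrable)

lemma moll_integrable (φ : ContDiffBump (0 : W)) {f : W → ℝ} (hf : Continuous f) (x : W) :
    Integrable (fun y => φ.normed volume y * f (x - y)) := by
  apply Continuous.integrable_of_hasCompactSupport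
  · exact φ.continuous_normed.mul (hf.comp (continuous_const.sub continuous_id))
  · exact φ.hasCompactSupport_normed.mul_right

lemma moll_key (φ : ContDiffBump (0 : W)) {f : W → ℝ} (hf : Continuous f) (x : W) {δ η : ℝ}
    (L : W →L[ℝ] ℝ) (hδ : φ.rOut ≤ δ / 2)
    (h : ∀ z ∈ ball x δ, ∀ z' ∈ ball x δ, |f z - f z' - L (z - z')| ≤ η * ‖z - z'‖) :
    ∀ z ∈ ball x (δ/2), ∀ z' ∈ ball x (δ/2),
      |moll φ f z - moll φ f z' - L (z - z')| ≤ η * ‖z - z'‖ := by
  intro z hz z' hz'
  have h1 : moll φ f z - moll φ f z' - L (z - z')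
      = ∫ y, φ.normed volume y * (f (z - y) - f (z' - y) - L (z - z')) := by
    have e1 : (∫ y, φ.normed (volume : Measure W) y * L (z - z')) = L (z - z') := by
      rw [integral_mul_const, φ.integral_normed, one_mul]
    have i1 := moll_integrable φ hf z
    have i2 := moll_integrable φ hf z'
    have i3 : Integrable (fun y => φ.normed (volume : Measure W) y * L (z - z')) :=
      φ.integrable_normed.mul_const _
    calc moll φ f z - moll φ f z' - L (z - z')
        = (∫ y, φ.normed volume y * f (z - y)) - (∫ y, φ.normed volume y * f (z' - y))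
          - (∫ y, φ.normed (volume : Measure W) y * L (z - z')) := by rw [e1]; rfl
      _ = _ := by
          have i12 : Integrable (fun y => φ.normed volume y * f (z - y)
              - φ.normed volume y * f (z' - y)) := i1.sub i2
          rw [← integral_sub i1 i2, ← integral_sub i12 i3]
          congr 1
          funext y
          ring
  rw [h1]
  have h2 : ∀ y, ‖φ.normed volume y * (f (z - y) - f (z' - y) - L (z - z'))‖
      ≤ φ.normed volume y * (η * ‖z - z'‖) := by
    intro y
    by_cases hy : y ∈ ball (0:W) φ.rOut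
    · rw [norm_mul, Real.norm_eq_abs, abs_of_nonneg (φ.nonneg_normed y)]
      apply mul_le_mul_of_nonneg_left _ (φ.nonneg_normed y)
      have hy' : ‖y‖ < δ / 2 := by
        rw [mem_ball_zero_iff] at hy
        linarith
      have a1 : z - y ∈ ball x δ := by
        rw [mem_ball, dist_eq_norm] at hz ⊢
        calc ‖z - y - x‖ = ‖(z - x) - y‖ := by congr 1; abel
          _ ≤ ‖z - x‖ + ‖y‖ := norm_sub_le _ _
          _ < δ := by linarith
      have a2 : z' - y ∈ ball x δ := by
        rw [mem_ball, dist_eq_norm] at hz' ⊢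
        calc ‖z' - y - x‖ = ‖(z' - x) - y‖ := by congr 1; abel
          _ ≤ ‖z' - x‖ + ‖y‖ := norm_sub_le _ _
          _ < δ := by linarith
      have := h _ a1 _ a2
      have e : z - y - (z' - y) = z - z' := by abel
      rw [e] at this
      exact this
    · have : φ.normed volume y = 0 := by
        have hs := φ.support_normed_eq (μ := (volume : Measure W))
        by_contra hne
        exact hy (hs ▸ (Function.mem_support.mpr hne))
      rw [this]; simp
  calc |∫ y, φ.normed volume y * (f (z - y) - f (z' - y) - L (z - z'))|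
      ≤ ∫ y, φ.normed (volume : Measure W) y * (η * ‖z - z'‖) := by
        rw [← Real.norm_eq_abs]
        exact norm_integral_le_of_norm_le (φ.integrable_normed.mul_const _)
          (Eventually.of_forall h2)
    _ = η * ‖z - z'‖ := by rw [integral_mul_const, φ.integral_normed, one_mul]

lemma moll_fderiv (φ : ContDiffBump (0 : W)) {f : W → ℝ} (hf : Continuous f) (x : W) {δ η : ℝ}
    (hη : 0 ≤ η) (hδ0 : 0 < δ)
    (L : W →L[ℝ] ℝ) (hδ : φ.rOut ≤ δ / 2)
    (h : ∀ z ∈ ball x δ, ∀ z' ∈ ball x δ, |f z - f z' - L (z - z')| ≤ η * ‖z - z'‖) :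
    ‖fderiv ℝ (moll φ f) x - L‖ ≤ η := by
  have hd : HasFDerivAt (moll φ f) (fderiv ℝ (moll φ f) x) x :=
    ((moll_contDiff φ hf).differentiable (by simp)).differentiableAt.hasFDerivAt
  have hd2 : HasFDerivAt (fun z => moll φ f z - L z) (fderiv ℝ (moll φ f) x - L) x :=
    hd.sub L.hasFDerivAt
  apply hd2.le_of_lip' hη
  have : ball x (δ/2) ∈ 𝓝 x := ball_mem_nhds x (by positivity)
  filter_upwards [this] with z hz
  have := moll_key φ hf x L hδ h z hz x (mem_ball_self (by positivity))
  rw [Real.norm_eq_abs]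
  have e : moll φ f z - L z - (moll φ f x - L x) = moll φ f z - moll φ f x - L (z - x) := by
    rw [map_sub]; ring
  rw [e]; exact this

/-- a sequence of bump functions with radius tending to zero -/
noncomputable def bump (n : ℕ) : ContDiffBump (0 : W) where
  rIn := 1 / (2 * ((n:ℝ) + 2))
  rOut := 1 / ((n:ℝ) + 2)
  rIn_pos := by positivity
  rIn_lt_rOut := by
    apply one_div_lt_one_div_of_lt <;> nlinarith [(Nat.cast_nonneg n : (0:ℝ) ≤ n)]

lemma bump_rOut (n : ℕ) : (bump n).rOut = 1 / ((n:ℝ) + 2) := rfl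

lemma bump_tendsto : Tendsto (fun n => (bump n).rOut) atTop (𝓝 0) := by
  simp only [bump_rOut]
  have := tendsto_one_div_add_atTop_nhds_zero_nat (𝕜 := ℝ)
  have h2 := (tendsto_add_atTop_iff_nat 1).mpr this
  refine h2.congr (fun n => ?_)
  push_cast
  congr 1
  ring

lemma moll_tendsto {f : W → ℝ} (hf : Continuous f) (x : W) :
    Tendsto (fun n => moll (bump n) f x) atTop (𝓝 (f x)) := by
  have := ContDiffBump.convolution_tendsto_right_of_continuous (μ := (volume : Measure W)) (φ := bump)
    (l := atTop) (g := f) bump_tendsto hf x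
  refine this.congr (fun n => ?_)
  rw [moll_eq_conv]

lemma moll_fderiv_tendsto {f : W → ℝ} (hf : Continuous f) (x : W) (L : W →L[ℝ] ℝ)
    (h : HasStrictFDerivAt f L x) :
    Tendsto (fun n => fderiv ℝ (moll (bump n) f) x) atTop (𝓝 L) := by
  rw [Metric.tendsto_atTop]
  intro ε hε
  have h2 := h.isLittleO.def (c := ε/2) (by positivity)
  rw [nhds_prod_eq, Filter.eventually_prod_iff] at h2
  obtain ⟨pa, hpa, pb, hpb, hab⟩ := h2
  have h3 := hpa.and hpb
  rw [Metric.eventually_nhds_iff_ball] at h3
  obtain ⟨δ, hδ, h4⟩ := h3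
  have h5 := (Metric.tendsto_atTop.mp bump_tendsto) (δ/2) (by positivity)
  obtain ⟨N, hN⟩ := h5
  refine ⟨N, fun n hn => ?_⟩
  have h6 := hN n hn
  rw [Real.dist_eq, sub_zero, abs_of_pos (bump n).rOut_pos] at h6
  rw [dist_eq_norm]
  calc ‖fderiv ℝ (moll (bump n) f) x - L‖ ≤ ε / 2 := by
        apply moll_fderiv (bump n) hf x (by positivity) hδ L h6.le
        intro z hz z' hz'
        have := hab (h4 z hz).1 (h4 z' hz').2
        simpa using this
    _ < ε := by linarith

lemma moll_norm_fderiv_le {f : W → ℝ} (hf : Continuous f) {ρ K : ℝ} (hK : 0 ≤ K)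
    (h : ∀ z ∈ ball (0:W) (ρ+1), ∀ z' ∈ ball (0:W) (ρ+1), |f z - f z'| ≤ K * ‖z - z'‖)
    (n : ℕ) (x : W) (hx : x ∈ ball (0:W) ρ) :
    ‖fderiv ℝ (moll (bump n) f) x‖ ≤ K := by
  have := moll_fderiv (bump n) hf x (δ := 1) (η := K) hK one_pos 0 (by
    rw [bump_rOut]
    apply one_div_le_one_div_of_le two_pos
    linarith [(Nat.cast_nonneg n : (0:ℝ) ≤ n)]) (by
    intro z hz z' hz'
    have a1 : z ∈ ball (0:W) (ρ+1) := by
      rw [mem_ball, dist_eq_norm] at *
      calc ‖z - 0‖ = ‖(z - x) + (x - 0)‖ := by congr 1; abel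
        _ ≤ ‖z - x‖ + ‖x - 0‖ := norm_add_le _ _
        _ < ρ + 1 := by linarith
    have a2 : z' ∈ ball (0:W) (ρ+1) := by
      rw [mem_ball, dist_eq_norm] at *
      calc ‖z' - 0‖ = ‖(z' - x) + (x - 0)‖ := by congr 1; abel
        _ ≤ ‖z' - x‖ + ‖x - 0‖ := norm_add_le _ _
        _ < ρ + 1 := by linarith
    simpa using h z a1 z' a2)
  simpa using this

end Pool.Agent.Lib.MP_03b26c_an
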