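import Mathlib
import Pool.Agent.Lib.MP_03b26c_an.Moll

set_option autoImplicit false

open MeasureTheory Metric ContinuousLinearMap Filter Topology
open scoped Convolution ContDiff

namespace Pool.Agent.Lib.MP_03b26c_an

/-- the energy density of a derivative for the metric `(p, r, k)` -/
def en (p r k : ℝ) (L : W →L[ℝ] ℝ) : ℝ :=
  r * (L (1, 0)) ^ 2 - 2 * k * (L (1, 0)) * (L (0, 1)) + p * (L (0, 1)) ^ 2

lemma en_continuous (p r k : ℝ) : Continuous (en p r k) := by
  unfold en
  fun_prop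

lemma en_bound (p r k : ℝ) (L : W →L[ℝ] ℝ) {K : ℝ} (hL : ‖L‖ ≤ K) :
    |en p r k L| ≤ (|r| + 2 * |k| + |p|) * K ^ 2 := by
  have hK : 0 ≤ K := le_trans (norm_nonneg _) hL
  have h1 : |L (1, 0)| ≤ K := by
    have := L.le_opNorm (1, 0)
    have e : ‖((1:ℝ), (0:ℝ))‖ = 1 := by simp [Prod.norm_def]
    rw [e, mul_one, Real.norm_eq_abs] at this
    linarith
  have h2 : |L (0, 1)| ≤ K := by
    have := L.le_opNorm (0, 1)
    have e : ‖((0:ℝ), (1:ℝ))‖ = 1 := by simp [Prod.norm_def]
    rw [e, mul_one, Real.norm_eq_abs] at this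
    linarith
  have a1 : |r * (L (1, 0)) ^ 2| ≤ |r| * K ^ 2 := by
    rw [abs_mul, abs_pow]; gcongr
  have a2 : |2 * k * (L (1, 0)) * (L (0, 1))| ≤ 2 * |k| * K ^ 2 := by
    rw [abs_mul, abs_mul, abs_mul, abs_two]
    calc 2 * |k| * |L (1, 0)| * |L (0, 1)| ≤ 2 * |k| * K * K := by gcongr
      _ = 2 * |k| * K ^ 2 := by ring
  have a3 : |p * (L (0, 1)) ^ 2| ≤ |p| * K ^ 2 := by
    rw [abs_mul, abs_pow]; gcongr
  unfold en
  calc |r * (L (1, 0)) ^ 2 - 2 * k * (L (1, 0)) * (L (0, 1)) + p * (L (0, 1)) ^ 2|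
      ≤ |r * (L (1, 0)) ^ 2 - 2 * k * (L (1, 0)) * (L (0, 1))| + |p * (L (0, 1)) ^ 2| :=
        abs_add_le _ _
    _ ≤ |r * (L (1, 0)) ^ 2| + |2 * k * (L (1, 0)) * (L (0, 1))| + |p * (L (0, 1)) ^ 2| := by
        gcongr; exact abs_sub _ _
    _ ≤ |r| * K ^ 2 + 2 * |k| * K ^ 2 + |p| * K ^ 2 := by gcongr
    _ = (|r| + 2 * |k| + |p|) * K ^ 2 := by ring

/-- Poincaré inequality with constant `Λ` on `Ω` for smooth functions, for the metric
`(p, r, k)` -/
def PW (Ω : Set W) (Λ p r k : ℝ) : Prop :=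
  ∀ g : W → ℝ, ContDiff ℝ ∞ g →
    Λ * ((∫ x in Ω, g x ^ 2) * (volume Ω).toReal - (∫ x in Ω, g x) ^ 2)
      ≤ (volume Ω).toReal * ∫ x in Ω, en p r k (fderiv ℝ g x)

/-- Poincaré inequality passes to locally Lipschitz, a.e. strictly differentiable functions -/
theorem PW.lip {Ω : Set W} {Λ p r k : ℝ} (h : PW Ω Λ p r k) (hm : MeasurableSet Ω) {ρ : ℝ}
    (hρ0 : 0 < ρ)
    (hρ : Ω ⊆ ball 0 ρ) {f : W → ℝ} (hf : Continuous f) {K : ℝ} (hK : 0 ≤ K)
    (hlip : ∀ z ∈ ball (0:W) (ρ+1), ∀ z' ∈ ball (0:W) (ρ+1), |f z - f z'| ≤ K * ‖z - z'‖)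
    (f' : W → W →L[ℝ] ℝ)
    (hf' : ∀ᵐ x ∂(volume.restrict Ω), HasStrictFDerivAt f (f' x) x) :
    Λ * ((∫ x in Ω, f x ^ 2) * (volume Ω).toReal - (∫ x in Ω, f x) ^ 2)
      ≤ (volume Ω).toReal * ∫ x in Ω, en p r k (f' x) := by
  have hfin : volume Ω < ⊤ := lt_of_le_of_lt (measure_mono hρ) measure_ball_lt_top
  have : IsFiniteMeasure (volume.restrict Ω) := ⟨by simpa using hfin⟩
  obtain ⟨C, hC⟩ : ∃ C, ∀ x ∈ closedBall (0:W) (ρ+1), |f x| ≤ C := by
    obtain ⟨C, hC⟩ := (isCompact_closedBall (0:W) (ρ+1)).exists_bound_of_continuousOn hf.continuousOn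
    exact ⟨C, fun x hx => by simpa using hC x hx⟩
  have hC0 : 0 ≤ C := le_trans (abs_nonneg (f 0)) (hC 0 (mem_closedBall_self (by linarith)))
  have hb1 : ∀ n, ∀ᵐ x ∂(volume.restrict Ω), |moll (bump n) f x| ≤ C + K := by
    intro n
    filter_upwards [ae_restrict_mem hm] with x hx
    have hxρ := hρ hx
    have hr : (bump n).rOut ≤ 1 := by
      rw [bump_rOut, div_le_one (by positivity)]; linarith [(Nat.cast_nonneg n : (0:ℝ) ≤ n)]
    have h1 : dist (((bump n).normed volume ⋆[lsmul ℝ ℝ, volume] f) x) (f x) ≤ K := by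
      apply ContDiffBump.dist_normed_convolution_le
      · exact hf.aestronglyMeasurable
      · intro z hz
        have hz' : ‖z - x‖ < 1 := by
          rw [mem_ball, dist_eq_norm] at hz; linarith
        rw [Real.dist_eq]
        have a1 : z ∈ ball (0:W) (ρ+1) := by
          rw [mem_ball, dist_eq_norm] at *
          calc ‖z - 0‖ = ‖(z - x) + (x - 0)‖ := by congr 1; abel
            _ ≤ ‖z - x‖ + ‖x - 0‖ := norm_add_le _ _
            _ < ρ + 1 := by linarith
        have a2 : x ∈ ball (0:W) (ρ+1) := ball_subset_ball (by linarith) hxρ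
        calc |f z - f x| ≤ K * ‖z - x‖ := hlip z a1 x a2
          _ ≤ K * 1 := by gcongr
          _ = K := mul_one K
    rw [← moll_eq_conv, Real.dist_eq] at h1
    have h2 : |f x| ≤ C := hC x (ball_subset_closedBall (ball_subset_ball (by linarith) hxρ))
    calc |moll (bump n) f x| = |(moll (bump n) f x - f x) + f x| := by ring_nf
      _ ≤ |moll (bump n) f x - f x| + |f x| := abs_add_le _ _
      _ ≤ C + K := by linarith
  have hcont : ∀ n, Continuous (moll (bump n) f) := fun n => (moll_contDiff (bump n) hf).continuous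
  have t1 : Tendsto (fun n => ∫ x in Ω, moll (bump n) f x) atTop (𝓝 (∫ x in Ω, f x)) := by
    apply tendsto_integral_of_dominated_convergence (fun _ => C + K)
    · exact fun n => (hcont n).aestronglyMeasurable
    · exact integrable_const _
    · intro n; simpa using hb1 n
    · exact Eventually.of_forall (fun x => moll_tendsto hf x)
  have t2 : Tendsto (fun n => ∫ x in Ω, moll (bump n) f x ^ 2) atTop (𝓝 (∫ x in Ω, f x ^ 2)) := by
    apply tendsto_integral_of_dominated_convergence (fun _ => (C + K)^2)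
    · exact fun n => ((hcont n).pow 2).aestronglyMeasurable
    · exact integrable_const _
    · intro n
      filter_upwards [hb1 n] with x hx
      rw [norm_pow, Real.norm_eq_abs]
      gcongr
    · exact Eventually.of_forall (fun x => (moll_tendsto hf x).pow 2)
  have t3 : Tendsto (fun n => ∫ x in Ω, en p r k (fderiv ℝ (moll (bump n) f) x)) atTop
      (𝓝 (∫ x in Ω, en p r k (f' x))) := by
    apply tendsto_integral_of_dominated_convergence (fun _ => (|r| + 2 * |k| + |p|) * K ^ 2)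
    · intro n
      have : Continuous (fun x => fderiv ℝ (moll (bump n) f) x) :=
        (moll_contDiff (bump n) hf).continuous_fderiv (by simp)
      exact ((en_continuous p r k).comp this).aestronglyMeasurable
    · exact integrable_const _
    · intro n
      filter_upwards [ae_restrict_mem hm] with x hx
      rw [Real.norm_eq_abs]
      exact en_bound p r k _ (moll_norm_fderiv_le hf hK hlip n x (hρ hx))
    · filter_upwards [hf'] with x hx
      exact ((en_continuous p r k).tendsto _).comp (moll_fderiv_tendsto hf x (f' x) hx)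
  have hn : ∀ n, Λ * ((∫ x in Ω, moll (bump n) f x ^ 2) * (volume Ω).toReal
      - (∫ x in Ω, moll (bump n) f x) ^ 2)
      ≤ (volume Ω).toReal * ∫ x in Ω, en p r k (fderiv ℝ (moll (bump n) f) x) :=
    fun n => h _ (moll_contDiff (bump n) hf)
  exact le_of_tendsto_of_tendsto' (((t2.mul_const _).sub (t1.pow 2)).const_mul Λ)
    (t3.const_mul _) hn

end Pool.Agent.Lib.MP_03b26c_an
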