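import Mathlib
import Pool.Agent.Lib.MP_03b26c_an.Glue

set_option autoImplicit false

open MeasureTheory Metric ContinuousLinearMap Filter Topology Set
open scoped Convolution ContDiff

namespace Pool.Agent.Lib.MP_03b26c_an

lemma integral_pieces {ι : Type*} [Fintype ι] {Ω : Set W} {C : ι → Set W}
    (hCm : ∀ i, MeasurableSet (C i))
    (hd : Pairwise (Function.onFun (AEDisjoint volume) C)) (hcov : Ω =ᵐ[volume] ⋃ i, C i)
    (F : W → ℝ) (hF : ∀ i, IntegrableOn F (C i)) :
    ∫ x in Ω, F x = ∑ i, ∫ x in C i, F x := by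
  rw [setIntegral_congr_set hcov, integral_iUnion_ae (fun i => (hCm i).nullMeasurableSet) hd
    ((integrableOn_finite_iUnion).mpr hF), tsum_fintype]

/-- Poincaré inequality for piecewise smooth functions -/
theorem PW.pieces {ι : Type*} [Fintype ι] {Ω : Set W} {Λ p r k : ℝ} (h : PW Ω Λ p r k)
    (hm : MeasurableSet Ω) {ρ : ℝ} (hρ0 : 0 < ρ) (hρ : Ω ⊆ ball 0 ρ)
    (C : ι → Set W) (hconv : ∀ i, Convex ℝ (C i)) (hcomp : ∀ i, IsCompact (C i))
    (hd : Pairwise (Function.onFun (AEDisjoint volume) C)) (hcov : Ω =ᵐ[volume] ⋃ i, C i)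
    {f : W → ℝ} (hf : Continuous f) {K : ℝ} (hK : 0 ≤ K)
    (hlip : ∀ z ∈ ball (0:W) (ρ+1), ∀ z' ∈ ball (0:W) (ρ+1), |f z - f z'| ≤ K * ‖z - z'‖)
    (g : ι → W → ℝ) (hg : ∀ i, ContDiff ℝ ∞ (g i)) (hfg : ∀ i, ∀ x ∈ C i, f x = g i x) :
    Λ * ((∑ i, ∫ x in C i, g i x ^ 2) * (volume Ω).toReal - (∑ i, ∫ x in C i, g i x) ^ 2)
      ≤ (volume Ω).toReal * ∑ i, ∫ x in C i, en p r k (fderiv ℝ (g i) x) := by
  have hCm : ∀ i, MeasurableSet (C i) := fun i => (hcomp i).measurableSet
  have hint : ∀ i, ∀ᵐ x ∂(volume.restrict (C i)), x ∈ interior (C i) := by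
    intro i
    have h1 : volume (frontier (C i)) = 0 := (hconv i).addHaar_frontier volume
    have h2 : volume (C i \ interior (C i)) = 0 := by
      refine measure_mono_null ?_ h1
      intro x hx
      exact ⟨subset_closure hx.1, hx.2⟩
    rw [ae_restrict_iff' (hCm i)]
    filter_upwards [compl_mem_ae_iff.mpr h2] with x hx hxC
    by_contra hne
    exact hx ⟨hxC, hne⟩
  have hloc : ∀ i, ∀ x ∈ interior (C i), f =ᶠ[𝓝 x] g i := by
    intro i x hx
    filter_upwards [isOpen_interior.mem_nhds hx] with y hy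
    exact hfg i y (interior_subset hy)
  have hstrict : ∀ i, ∀ x ∈ interior (C i), HasStrictFDerivAt f (fderiv ℝ (g i) x) x := by
    intro i x hx
    have h1 : HasStrictFDerivAt (g i) (fderiv ℝ (g i) x) x :=
      ((hg i).contDiffAt.hasStrictFDerivAt (by simp))
    exact h1.congr_of_eventuallyEq (hloc i x hx).symm
  have hf' : ∀ᵐ x ∂(volume.restrict Ω), HasStrictFDerivAt f (fderiv ℝ f x) x := by
    have h1 : ∀ᵐ x ∂(volume.restrict (⋃ i, C i)), HasStrictFDerivAt f (fderiv ℝ f x) x := by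
      rw [ae_restrict_iUnion_iff]
      intro i
      filter_upwards [hint i] with x hx
      have := hstrict i x hx
      rwa [this.hasFDerivAt.fderiv]
    rwa [Measure.restrict_congr_set hcov]
  have key := h.lip hm hρ0 hρ hf hK hlip (fun x => fderiv ℝ f x) hf'
  have hIf : ∀ i, IntegrableOn f (C i) := fun i => hf.continuousOn.integrableOn_compact (hcomp i)
  have hIf2 : ∀ i, IntegrableOn (fun x => f x ^ 2) (C i) :=
    fun i => (hf.pow 2).continuousOn.integrableOn_compact (hcomp i)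
  have hIg : ∀ i, IntegrableOn (fun x => en p r k (fderiv ℝ (g i) x)) (C i) := by
    intro i
    have : Continuous (fun x => en p r k (fderiv ℝ (g i) x)) :=
      (en_continuous p r k).comp ((hg i).continuous_fderiv (by simp))
    exact this.continuousOn.integrableOn_compact (hcomp i)
  have hEq : ∀ i, (fun x => en p r k (fderiv ℝ f x)) =ᵐ[volume.restrict (C i)]
      (fun x => en p r k (fderiv ℝ (g i) x)) := by
    intro i
    filter_upwards [hint i] with x hx
    rw [(hloc i x hx).fderiv_eq]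
  have hIe : ∀ i, IntegrableOn (fun x => en p r k (fderiv ℝ f x)) (C i) :=
    fun i => (hIg i).congr (hEq i).symm
  rw [integral_pieces hCm hd hcov _ hIf, integral_pieces hCm hd hcov _ hIf2,
    integral_pieces hCm hd hcov _ hIe] at key
  have e1 : ∀ i, ∫ x in C i, f x = ∫ x in C i, g i x := fun i =>
    setIntegral_congr_fun (hCm i) (fun x hx => hfg i x hx)
  have e2 : ∀ i, ∫ x in C i, f x ^ 2 = ∫ x in C i, g i x ^ 2 := fun i =>
    setIntegral_congr_fun (hCm i) (fun x hx => by
      show f x ^ 2 = g i x ^ 2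
      rw [hfg i x hx])
  have e3 : ∀ i, ∫ x in C i, en p r k (fderiv ℝ f x) = ∫ x in C i, en p r k (fderiv ℝ (g i) x) :=
    fun i => integral_congr_ae (hEq i)
  simp only [e1, e2, e3] at key
  exact key

end Pool.Agent.Lib.MP_03b26c_an
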