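import Mathlib
import Pool.Agent.Lib.MP_03b26c_an.Pieces

set_option autoImplicit false

open MeasureTheory Metric ContinuousLinearMap Filter Topology Set
open scoped ContDiff

namespace Pool.Agent.Lib.MP_03b26c_an

/-- two-dimensional cross product -/
def cr (U V : W) : ℝ := U.1 * V.2 - U.2 * V.1

/-- affine parametrization -/
noncomputable def aff (P U V : W) (z : W) : W := P + z.1 • U + z.2 • V

lemma aff_fst (P U V z : W) : (aff P U V z).1 = P.1 + z.1 * U.1 + z.2 * V.1 := rfl
lemma aff_snd (P U V z : W) : (aff P U V z).2 = P.2 + z.1 * U.2 + z.2 * V.2 := rfl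

lemma aff_continuous (P U V : W) : Continuous (aff P U V) := by
  unfold aff; fun_prop

/-- the linear part in `ℝ × ℝ` -/
noncomputable def lin2 (U V : W) : W →L[ℝ] W :=
  (Matrix.toLin (.finTwoProd ℝ) (.finTwoProd ℝ)
    !![U.1, V.1; U.2, V.2]).toContinuousLinearMap

lemma det_lin2 (U V : W) : (lin2 U V).det = cr U V := by
  unfold lin2 cr
  simp only [LinearMap.det_toContinuousLinearMap, LinearMap.det_toLin,
    Matrix.det_fin_two_of]
  ring

lemma lin2_apply (U V : W) (z : ℝ × ℝ) :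
    lin2 U V z = (z.1 * U.1 + z.2 * V.1, z.1 * U.2 + z.2 * V.2) := by
  unfold lin2
  rw [Matrix.toLin_finTwoProd_toContinuousLinearMap]
  ext <;> simp <;> ring

lemma aff_eq (P U V : W) : aff P U V = fun z => P + lin2 U V z := by
  funext z
  ext
  · simp [aff_fst, lin2_apply]; ring
  · simp [aff_snd, lin2_apply]; ring

lemma aff_injective {P U V : W} (hD : cr U V ≠ 0) : Function.Injective (aff P U V) := by
  intro z w h
  have h3 : (aff P U V z).1 = (aff P U V w).1 := by rw [h]
  have h4 : (aff P U V z).2 = (aff P U V w).2 := by rw [h]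
  rw [aff_fst, aff_fst] at h3
  rw [aff_snd, aff_snd] at h4
  unfold cr at hD
  have e1 : (z.1 - w.1) * (U.1 * V.2 - U.2 * V.1) = 0 := by
    linear_combination V.2 * h3 - V.1 * h4
  have e2 : (z.2 - w.2) * (U.1 * V.2 - U.2 * V.1) = 0 := by
    linear_combination U.1 * h4 - U.2 * h3
  ext
  · have := (mul_eq_zero.mp e1).resolve_right hD; linarith
  · have := (mul_eq_zero.mp e2).resolve_right hD; linarith

theorem integral_aff (P U V : W) (hD : cr U V ≠ 0) {S : Set W} (hS : MeasurableSet S)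
    (F : W → ℝ) :
    ∫ x in aff P U V '' S, F x = |cr U V| * ∫ z in S, F (aff P U V z) := by
  have h2 : ∀ z ∈ S, HasFDerivWithinAt (aff P U V) (lin2 U V) S z := by
    intro z _
    rw [aff_eq]
    exact ((lin2 U V).hasFDerivAt.const_add _).hasFDerivWithinAt
  rw [integral_image_eq_integral_abs_det_fderiv_smul volume hS h2 (aff_injective hD).injOn F]
  simp only [det_lin2, smul_eq_mul]
  rw [integral_const_mul]

lemma isCompact_region {a b : ℝ} {l r : ℝ → ℝ} (hl : Continuous l) (hr : Continuous r) :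
    IsCompact {z : ℝ × ℝ | z.2 ∈ Icc a b ∧ z.1 ∈ Icc (l z.2) (r z.2)} := by
  obtain ⟨m, hm⟩ := (isCompact_Icc (a := a) (b := b)).bddBelow_image hl.continuousOn
  obtain ⟨M, hM⟩ := (isCompact_Icc (a := a) (b := b)).bddAbove_image hr.continuousOn
  apply IsCompact.of_isClosed_subset ((isCompact_Icc (a := m) (b := M)).prod
    (isCompact_Icc (a := a) (b := b)))
  · have c1 : IsClosed {z : ℝ × ℝ | z.2 ∈ Icc a b} := isClosed_Icc.preimage continuous_snd
    have c2 : IsClosed {z : ℝ × ℝ | l z.2 ≤ z.1} :=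
      isClosed_le (hl.comp continuous_snd) continuous_fst
    have c3 : IsClosed {z : ℝ × ℝ | z.1 ≤ r z.2} :=
      isClosed_le continuous_fst (hr.comp continuous_snd)
    exact c1.inter (c2.inter c3)
  · rintro ⟨s, t⟩ ⟨ht, hs1, hs2⟩
    refine ⟨⟨?_, ?_⟩, ht⟩
    · exact le_trans (hm ⟨t, ht, rfl⟩) hs1
    · exact le_trans hs2 (hM ⟨t, ht, rfl⟩)

lemma integral_region {a b : ℝ} (hab : a ≤ b) {l r : ℝ → ℝ} (hl : Continuous l)
    (hr : Continuous r) (hlr : ∀ t ∈ Icc a b, l t ≤ r t) {G : ℝ × ℝ → ℝ} (hG : Continuous G) :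
    ∫ z in {z : ℝ × ℝ | z.2 ∈ Icc a b ∧ z.1 ∈ Icc (l z.2) (r z.2)}, G z
      = ∫ t in a..b, ∫ s in (l t)..(r t), G (s, t) := by
  set S := {z : ℝ × ℝ | z.2 ∈ Icc a b ∧ z.1 ∈ Icc (l z.2) (r z.2)} with hS
  have hc : IsCompact S := isCompact_region hl hr
  have hmS : MeasurableSet S := hc.measurableSet
  have hint : IntegrableOn G S := hG.continuousOn.integrableOn_compact hc
  rw [← integral_indicator hmS]
  have hint' : Integrable (S.indicator G) (volume.prod volume) := by
    rw [← Measure.volume_eq_prod]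
    exact (integrable_indicator_iff hmS).mpr hint
  rw [Measure.volume_eq_prod, integral_prod_symm _ hint']
  rw [intervalIntegral.integral_of_le hab, ← integral_Icc_eq_integral_Ioc,
    ← integral_indicator measurableSet_Icc]
  congr 1
  funext t
  by_cases ht : t ∈ Icc a b
  · rw [indicator_of_mem ht, intervalIntegral.integral_of_le (hlr t ht),
      ← integral_Icc_eq_integral_Ioc, ← integral_indicator measurableSet_Icc]
    congr 1
    funext s
    by_cases hs : s ∈ Icc (l t) (r t)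
    · rw [indicator_of_mem hs, indicator_of_mem]
      exact ⟨ht, hs⟩
    · rw [indicator_of_notMem hs, indicator_of_notMem]
      exact fun h => hs h.2
  · rw [indicator_of_notMem ht]
    have : ∀ s, S.indicator G (s, t) = 0 := fun s => indicator_of_notMem (fun h => ht h.1) _
    simp [this]

/-- closed triangle -/
def tri {V : Type*} [AddCommGroup V] [Module ℝ V] (P Q R : V) : Set V := convexHull ℝ {P, Q, R}

lemma mem_tri {V : Type*} [AddCommGroup V] [Module ℝ V] {P Q R x : V} :
    x ∈ tri P Q R ↔ ∃ a b c : ℝ, 0 ≤ a ∧ 0 ≤ b ∧ 0 ≤ c ∧ a + b + c = 1 ∧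
      x = a • P + b • Q + c • R := by
  constructor
  · intro hx
    have hconv : Convex ℝ {x : V | ∃ a b c : ℝ, 0 ≤ a ∧ 0 ≤ b ∧ 0 ≤ c ∧ a + b + c = 1 ∧
      x = a • P + b • Q + c • R} := by
      rintro x ⟨a, b, c, ha, hb, hc, h1, rfl⟩ y ⟨a', b', c', ha', hb', hc', h1', rfl⟩ s t hs ht hst
      refine ⟨s * a + t * a', s * b + t * b', s * c + t * c', by positivity, by positivity,
        by positivity, ?_, ?_⟩
      · calc s * a + t * a' + (s * b + t * b') + (s * c + t * c')
            = s * (a + b + c) + t * (a' + b' + c') := by ring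
          _ = 1 := by rw [h1, h1']; linarith
      · module
    have hsub : ({P, Q, R} : Set V) ⊆ {x : V | ∃ a b c : ℝ, 0 ≤ a ∧ 0 ≤ b ∧ 0 ≤ c ∧ a + b + c = 1 ∧
      x = a • P + b • Q + c • R} := by
      intro y hy
      simp only [mem_insert_iff, mem_singleton_iff] at hy
      rcases hy with rfl | rfl | rfl
      · exact ⟨1, 0, 0, by norm_num, le_rfl, le_rfl, by norm_num, by simp⟩
      · exact ⟨0, 1, 0, le_rfl, by norm_num, le_rfl, by norm_num, by simp⟩
      · exact ⟨0, 0, 1, le_rfl, le_rfl, by norm_num, by norm_num, by simp⟩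
    exact convexHull_min hsub hconv hx
  · rintro ⟨a, b, c, ha, hb, hc, h1, rfl⟩
    have h := (convex_convexHull ℝ ({P, Q, R} : Set V)).sum_mem (t := (Finset.univ : Finset (Fin 3)))
      (w := ![a, b, c]) (z := ![P, Q, R]) (by
        intro i _; fin_cases i <;> simpa) (by simp [Fin.sum_univ_three, h1]) (by
        intro i _
        apply subset_convexHull
        fin_cases i <;> simp)
    simpa [Fin.sum_univ_three, tri] using h

lemma tri_convex (P Q R : W) : Convex ℝ (tri P Q R) := convex_convexHull ℝ _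

/-- the standard triangle `u, v ≥ 0, u + v ≤ 1` -/
def D0 : Set W := {z : ℝ × ℝ | z.2 ∈ Icc (0:ℝ) 1 ∧ z.1 ∈ Icc ((fun _ => (0:ℝ)) z.2) ((fun t => 1 - t) z.2)}

/-- the triangle `|s| ≤ t ≤ 1/2` -/
def Th : Set W := {z : ℝ × ℝ | z.2 ∈ Icc (0:ℝ) (1/2) ∧ z.1 ∈ Icc ((fun t => -t) z.2) ((fun t => t) z.2)}

lemma D0_compact : IsCompact D0 :=
  isCompact_region (l := fun _ => (0:ℝ)) (r := fun t => 1 - t) continuous_const (by fun_prop)
lemma Th_compact : IsCompact Th :=
  isCompact_region (l := fun t => -t) (r := fun t => t) (by fun_prop) (by fun_prop)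

lemma tri_eq_D0 (P Q R : W) : tri P Q R = aff P (Q - P) (R - P) '' D0 := by
  ext x
  rw [mem_tri]
  constructor
  · rintro ⟨a, b, c, ha, hb, hc, h1, rfl⟩
    refine ⟨(b, c), ⟨⟨hc, by linarith⟩, ⟨hb, by simp only; linarith⟩⟩, ?_⟩
    have : a = 1 - b - c := by linarith
    subst this
    unfold aff
    module
  · rintro ⟨⟨u, v⟩, ⟨⟨h1, h2⟩, ⟨h3, h4⟩⟩, rfl⟩
    simp only at h1 h2 h3 h4
    refine ⟨1 - u - v, u, v, by linarith, h3, h1, by ring, ?_⟩
    unfold aff
    module

lemma tri_eq_Th (P Q R : W) :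
    tri P Q R = aff P (Q - R) (Q + R - (2:ℝ) • P) '' Th := by
  ext x
  rw [mem_tri]
  constructor
  · rintro ⟨a, b, c, ha, hb, hc, h1, rfl⟩
    refine ⟨((b - c)/2, (b + c)/2), ⟨⟨by simp only; linarith, by simp only; linarith⟩,
      ⟨by simp only; linarith, by simp only; linarith⟩⟩, ?_⟩
    have : a = 1 - b - c := by linarith
    subst this
    unfold aff
    module
  · rintro ⟨⟨s, t⟩, ⟨⟨h1, h2⟩, ⟨h3, h4⟩⟩, rfl⟩
    simp only at h1 h2 h3 h4
    refine ⟨1 - 2 * t, s + t, t - s, by linarith, by linarith, by linarith, by ring, ?_⟩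
    unfold aff
    module

lemma tri_compact (P Q R : W) : IsCompact (tri P Q R) := by
  rw [tri_eq_D0]
  exact D0_compact.image (aff_continuous _ _ _)

theorem integral_tri_D0 {P Q R : W} (hD : cr (Q - P) (R - P) ≠ 0) {F : W → ℝ}
    (hF : Continuous F) :
    ∫ x in tri P Q R, F x = |cr (Q - P) (R - P)| *
      ∫ v in (0:ℝ)..1, ∫ u in (0:ℝ)..(1 - v), F (aff P (Q - P) (R - P) (u, v)) := by
  rw [tri_eq_D0, integral_aff _ _ _ hD D0_compact.measurableSet]
  congr 1
  exact integral_region (l := fun _ => (0:ℝ)) (r := fun t => 1 - t) zero_le_one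
    continuous_const (by fun_prop)
    (fun t ht => by linarith [ht.2]) (hF.comp (aff_continuous _ _ _))

theorem integral_tri_Th {P U V : W} (hD : cr U V ≠ 0) {F : W → ℝ} (hF : Continuous F) :
    ∫ x in aff P U V '' Th, F x = |cr U V| *
      ∫ t in (0:ℝ)..(1/2), ∫ s in (-t)..t, F (aff P U V (s, t)) := by
  rw [integral_aff _ _ _ hD Th_compact.measurableSet]
  congr 1
  exact integral_region (a := 0) (b := 1/2) (l := fun t => -t) (r := fun t => t)
    (by norm_num) (by fun_prop) (by fun_prop)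
    (fun t ht => by linarith [ht.1]) (hF.comp (aff_continuous _ _ _))

end Pool.Agent.Lib.MP_03b26c_an
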