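import Mathlib
import Pool.Agent.Lib.MP_03b26c_an.Tri

set_option autoImplicit false

open MeasureTheory Metric ContinuousLinearMap Filter Topology Set
open scoped ContDiff

namespace Pool.Agent.Lib.MP_03b26c_an

/-- Poincaré inequality for piecewise smooth, locally Lipschitz functions -/
theorem PW.pieces' {ι : Type*} [Fintype ι] {Ω : Set W} {Λ p r k : ℝ} (h : PW Ω Λ p r k)
    (hcΩ : IsCompact Ω)
    (C : ι → Set W) (hconv : ∀ i, Convex ℝ (C i)) (hcomp : ∀ i, IsCompact (C i))
    (hd : Pairwise (Function.onFun (AEDisjoint volume) C)) (hcov : Ω =ᵐ[volume] ⋃ i, C i)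
    {f : W → ℝ} (hf : LocallyLipschitz f)
    (g : ι → W → ℝ) (hg : ∀ i, ContDiff ℝ ∞ (g i)) (hfg : ∀ i, ∀ x ∈ C i, f x = g i x) :
    Λ * ((∑ i, ∫ x in C i, g i x ^ 2) * (volume Ω).toReal - (∑ i, ∫ x in C i, g i x) ^ 2)
      ≤ (volume Ω).toReal * ∑ i, ∫ x in C i, en p r k (fderiv ℝ (g i) x) := by
  obtain ⟨ρ, hρ⟩ := hcΩ.isBounded.subset_ball (0:W)
  have hρ' : Ω ⊆ ball 0 (|ρ| + 1) :=
    hρ.trans (ball_subset_ball (by linarith [le_abs_self ρ]))
  obtain ⟨K, hK⟩ := (hf.locallyLipschitzOn (s := closedBall (0:W) (|ρ| + 1 + 1))).exists_lipschitzOnWith_of_compact (isCompact_closedBall _ _)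
  refine h.pieces hcΩ.measurableSet (ρ := |ρ| + 1) (by positivity) hρ' C hconv hcomp hd hcov
    hf.continuous (K := K) K.2 ?_ g hg hfg
  intro z hz z' hz'
  have := hK.dist_le_mul z (ball_subset_closedBall hz) z' (ball_subset_closedBall hz')
  rwa [Real.dist_eq, dist_eq_norm] at this

lemma null_line {a b c : ℝ} (h : a ≠ 0 ∨ b ≠ 0) : volume {z : W | a * z.1 + b * z.2 = c} = 0 := by
  have hm : MeasurableSet {z : W | a * z.1 + b * z.2 = c} := by
    apply IsClosed.measurableSet
    exact isClosed_eq (by fun_prop) continuous_const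
  rw [Measure.volume_eq_prod, Measure.measure_prod_null hm]
  by_cases hb : b = 0
  · have ha : a ≠ 0 := by
      rcases h with h | h
      · exact h
      · exact absurd hb h
    have : ∀ᵐ x : ℝ, x ≠ c / a := by
      rw [ae_iff]; simp
    filter_upwards [this] with x hx
    have : (Prod.mk x ⁻¹' {z : W | a * z.1 + b * z.2 = c}) = ∅ := by
      ext y
      simp only [mem_preimage, mem_ofPred_eq, mem_empty_iff_false, iff_false]
      rw [hb]
      intro h
      apply hx
      field_simp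
      linarith
    simp [this]
  · refine Eventually.of_forall (fun x => ?_)
    have : (Prod.mk x ⁻¹' {z : W | a * z.1 + b * z.2 = c}) ⊆ {(c - a * x) / b} := by
      intro y hy
      simp only [mem_preimage, mem_ofPred_eq] at hy
      rw [mem_singleton_iff]
      field_simp
      linarith
    exact measure_mono_null this (by simp)

/-- vertices of the normalized quadrilateral -/
noncomputable def va (α β : ℝ) : W := (-1/2 + α/4, -1/2 + β/4)
noncomputable def vb (α β : ℝ) : W := (1/2 - α/4, -1/2 - β/4)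
noncomputable def vc (α β : ℝ) : W := (1/2 + α/4, 1/2 + β/4)
noncomputable def vd (α β : ℝ) : W := (-1/2 - α/4, 1/2 - β/4)

/-- first half -/
noncomputable def T1 (α β : ℝ) : Set W := tri (va α β) (vb α β) (vc α β)
/-- second half -/
noncomputable def T2 (α β : ℝ) : Set W := tri (va α β) (vc α β) (vd α β)

lemma cr1 (α β : ℝ) : cr (vb α β - va α β) (vc α β - va α β) = 1 - (α - β)/2 := by
  simp only [cr, va, vb, vc, Prod.fst_sub, Prod.snd_sub]; ring

lemma cr2 (α β : ℝ) : cr (vc α β - va α β) (vd α β - va α β) = 1 + (α - β)/2 := by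
  simp only [cr, va, vd, vc, Prod.fst_sub, Prod.snd_sub]; ring

/-- a.e. equality of the pieces -/
lemma T1T2_inter (α β : ℝ) (h : |α - β| < 2) : T1 α β ∩ T2 α β ⊆ {z : W | z.1 - z.2 = (α - β)/4} := by
  rintro z ⟨h1, h2⟩
  rw [abs_lt] at h
  rw [T1, mem_tri] at h1
  rw [T2, mem_tri] at h2
  obtain ⟨a, b, c, ha, hb, hc, h3, rfl⟩ := h1
  obtain ⟨a', b', c', ha', hb', hc', h3', h4⟩ := h2
  have e1 := congrArg Prod.fst h4
  have e2 := congrArg Prod.snd h4
  simp only [va, vb, vc, vd, Prod.fst_add, Prod.snd_add, Prod.smul_fst, Prod.smul_snd,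
    smul_eq_mul] at e1 e2
  simp only [mem_ofPred_eq, va, vb, vc, Prod.fst_add, Prod.snd_add, Prod.smul_fst, Prod.smul_snd,
    smul_eq_mul]
  have e3 : b * (1 - (α - β)/2) = - c' * (1 + (α - β)/2) := by
    have hA : a = 1 - b - c := by linarith
    have hA' : a' = 1 - b' - c' := by linarith
    subst hA hA'
    linear_combination e1 - e2
  have hb0 : b = 0 := by
    have q1 : 0 ≤ b * (1 - (α - β)/2) := mul_nonneg hb (by linarith)
    have q2 : 0 ≤ c' * (1 + (α - β)/2) := mul_nonneg hc' (by linarith)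
    have q3 : b * (1 - (α - β)/2) = 0 := by linarith
    rcases mul_eq_zero.mp q3 with h | h
    · exact h
    · linarith
  subst hb0
  have hA : a = 1 - c := by linarith
  subst hA
  ring

lemma T1T2_null (α β : ℝ) (h : |α - β| < 2) : volume (T1 α β ∩ T2 α β) = 0 := by
  refine measure_mono_null (T1T2_inter α β h) ?_
  have := null_line (a := 1) (b := -1) (c := (α - β)/4) (Or.inl one_ne_zero)
  refine measure_mono_null ?_ this
  intro z hz
  simp only [mem_ofPred_eq] at hz ⊢
  linarith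

/-- the normalized quadrilateral -/
noncomputable def Qd (α β : ℝ) : Set W := T1 α β ∪ T2 α β

lemma Qd_compact (α β : ℝ) : IsCompact (Qd α β) :=
  (tri_compact _ _ _).union (tri_compact _ _ _)

lemma int_poly (a b c0 c1 c2 c3 c4 c5 c6 c7 : ℝ) :
    ∫ v in a..b, (c0 + c1 * v + c2 * v^2 + c3 * v^3 + c4 * v^4 + c5 * v^5 + c6 * v^6 + c7 * v^7)
     = (c0 * b + c1 * b^2/2 + c2 * b^3/3 + c3 * b^4/4 + c4 * b^5/5 + c5 * b^6/6 + c6 * b^7/7
        + c7 * b^8/8)
      - (c0 * a + c1 * a^2/2 + c2 * a^3/3 + c3 * a^4/4 + c4 * a^5/5 + c5 * a^6/6 + c6 * a^7/7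
        + c7 * a^8/8) := by
  have h : ∀ x : ℝ, HasDerivAt (fun b : ℝ => (c0 * b + c1 * b^2/2 + c2 * b^3/3 + c3 * b^4/4
      + c4 * b^5/5 + c5 * b^6/6 + c6 * b^7/7 + c7 * b^8/8))
      (c0 + c1 * x + c2 * x^2 + c3 * x^3 + c4 * x^4 + c5 * x^5 + c6 * x^6 + c7 * x^7) x := by
    intro x
    have h1 := (hasDerivAt_id x).const_mul c0
    have h2 := ((hasDerivAt_pow 2 x).const_mul c1).div_const 2
    have h3 := ((hasDerivAt_pow 3 x).const_mul c2).div_const 3
    have h4 := ((hasDerivAt_pow 4 x).const_mul c3).div_const 4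
    have h5 := ((hasDerivAt_pow 5 x).const_mul c4).div_const 5
    have h6 := ((hasDerivAt_pow 6 x).const_mul c5).div_const 6
    have h7 := ((hasDerivAt_pow 7 x).const_mul c6).div_const 7
    have h8 := ((hasDerivAt_pow 8 x).const_mul c7).div_const 8
    have := ((((((h1.add h2).add h3).add h4).add h5).add h6).add h7).add h8
    refine this.congr_deriv ?_
    push_cast
    ring
  exact intervalIntegral.integral_eq_sub_of_hasDerivAt (fun x _ => h x)
    (Continuous.intervalIntegrable (by fun_prop) _ _)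

/-- integral over a triangle of a function of one barycentric coordinate -/
lemma integral_tri_v {P Q R : W} (hD : cr (Q - P) (R - P) ≠ 0) {F : W → ℝ}
    (hF : Continuous F) (G : ℝ → ℝ)
    (hG : ∀ u v, F (aff P (Q - P) (R - P) (u, v)) = G v) :
    ∫ x in tri P Q R, F x = |cr (Q - P) (R - P)| * ∫ v in (0:ℝ)..1, (1 - v) * G v := by
  rw [integral_tri_D0 hD hF]
  simp only [hG, intervalIntegral.integral_const, smul_eq_mul, sub_zero]

/-- polynomial version -/
lemma integral_tri_v_poly {P Q R : W} (hD : cr (Q - P) (R - P) ≠ 0) {F : W → ℝ}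
    (hF : Continuous F) (c0 c1 c2 c3 c4 c5 c6 : ℝ)
    (hG : ∀ u v, F (aff P (Q - P) (R - P) (u, v)) =
      c0 + c1 * v + c2 * v^2 + c3 * v^3 + c4 * v^4 + c5 * v^5 + c6 * v^6) :
    ∫ x in tri P Q R, F x = |cr (Q - P) (R - P)| *
      (c0 / 2 + c1 / 6 + c2 / 12 + c3 / 20 + c4 / 30 + c5 / 42 + c6 / 56) := by
  rw [integral_tri_v hD hF _ hG]
  congr 1
  have : ∀ v : ℝ, (1 - v) * (c0 + c1 * v + c2 * v^2 + c3 * v^3 + c4 * v^4 + c5 * v^5 + c6 * v^6)
      = c0 + (c1 - c0) * v + (c2 - c1) * v^2 + (c3 - c2) * v^3 + (c4 - c3) * v^4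
        + (c5 - c4) * v^5 + (c6 - c5) * v^6 + (-c6) * v^7 := by
    intro v; ring
  simp_rw [this]
  rw [int_poly]
  ring

/-- integral of a quadratic polynomial over a triangle -/
lemma integral_tri_quad {P Q R : W} (hD : cr (Q - P) (R - P) ≠ 0) {F : W → ℝ}
    (hF : Continuous F) (c0 cu cv cuu cuv cvv : ℝ)
    (hG : ∀ u v, F (aff P (Q - P) (R - P) (u, v)) =
      c0 + cu * u + cv * v + cuu * u^2 + cuv * (u * v) + cvv * v^2) :
    ∫ x in tri P Q R, F x = |cr (Q - P) (R - P)| *
      (c0 / 2 + cu / 6 + cv / 6 + cuu / 12 + cuv / 24 + cvv / 12) := by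
  rw [integral_tri_D0 hD hF]
  congr 1
  have h1 : ∀ v : ℝ, ∫ u in (0:ℝ)..(1 - v), F (aff P (Q - P) (R - P) (u, v))
      = (c0 + cu/2 + cuu/3) + (-c0 - cu + cv - cuu + cuv/2) * v
        + (cu/2 - cv + cuu - cuv + cvv) * v^2 + (-cuu/3 + cuv/2 - cvv) * v^3
        + 0 * v^4 + 0 * v^5 + 0 * v^6 + 0 * v^7 := by
    intro v
    have : ∀ u : ℝ, F (aff P (Q - P) (R - P) (u, v)) = (c0 + cv * v + cvv * v^2)
        + (cu + cuv * v) * u + cuu * u^2 + 0 * u^3 + 0 * u^4 + 0 * u^5 + 0 * u^6 + 0 * u^7 := by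
      intro u; rw [hG]; ring
    simp_rw [this]
    rw [int_poly]
    ring
  simp_rw [h1]
  rw [int_poly]
  ring

/-- area of a triangle -/
lemma tri_area {P Q R : W} (hD : cr (Q - P) (R - P) ≠ 0) :
    (volume (tri P Q R)).toReal = |cr (Q - P) (R - P)| / 2 := by
  have h1 := integral_tri_quad hD (F := fun _ => (1:ℝ)) continuous_const 1 0 0 0 0 0
    (by intro u v; ring)
  simp only [integral_const, MeasurableSet.univ, measureReal_restrict_apply, univ_inter,
    smul_eq_mul, mul_one] at h1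
  rw [measureReal_def] at h1
  rw [h1]; ring

lemma tri_swap (P Q R : W) : tri P Q R = tri P R Q := by
  unfold tri
  rw [Set.pair_comm Q R]

lemma area_T1 {α β : ℝ} (h : |α - β| < 2) : (volume (T1 α β)).toReal = (1 - (α - β)/2)/2 := by
  have h' := abs_lt.mp h
  rw [T1, tri_area (by rw [cr1]; linarith), cr1, abs_of_pos (by linarith)]

lemma area_T2 {α β : ℝ} (h : |α - β| < 2) : (volume (T2 α β)).toReal = (1 + (α - β)/2)/2 := by
  have h' := abs_lt.mp h
  rw [T2, tri_area (by rw [cr2]; linarith), cr2, abs_of_pos (by linarith)]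

lemma area_Qd {α β : ℝ} (h : |α - β| < 2) : (volume (Qd α β)).toReal = 1 := by
  have h1 : volume (Qd α β) = volume (T1 α β) + volume (T2 α β) :=
    measure_union₀ (tri_compact _ _ _).measurableSet.nullMeasurableSet (T1T2_null α β h)
  have f1 : volume (T1 α β) ≠ ⊤ := (tri_compact _ _ _).measure_lt_top.ne
  have f2 : volume (T2 α β) ≠ ⊤ := (tri_compact _ _ _).measure_lt_top.ne
  rw [h1, ENNReal.toReal_add f1 f2, area_T1 h, area_T2 h]
  ring

/-- Poincaré inequality on the normalized quadrilateral for functions smooth on each half -/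
theorem PW.quad {α β Λ p r k : ℝ} (hδ : |α - β| < 2) (h : PW (Qd α β) Λ p r k)
    {f : W → ℝ} (hf : LocallyLipschitz f) {g1 g2 : W → ℝ} (hg1 : ContDiff ℝ ∞ g1)
    (hg2 : ContDiff ℝ ∞ g2) (h1 : ∀ x ∈ T1 α β, f x = g1 x) (h2 : ∀ x ∈ T2 α β, f x = g2 x) :
    Λ * (((∫ x in T1 α β, g1 x ^ 2) + ∫ x in T2 α β, g2 x ^ 2)
        - ((∫ x in T1 α β, g1 x) + ∫ x in T2 α β, g2 x) ^ 2)
      ≤ (∫ x in T1 α β, en p r k (fderiv ℝ g1 x)) + ∫ x in T2 α β, en p r k (fderiv ℝ g2 x) := by
  have key := h.pieces' (Qd_compact α β) (ι := Fin 2) ![T1 α β, T2 α β]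
    (by intro i; fin_cases i
        · exact tri_convex _ _ _
        · exact tri_convex _ _ _)
    (by intro i; fin_cases i
        · exact tri_compact _ _ _
        · exact tri_compact _ _ _)
    (by
      intro i j hij
      have hn := T1T2_null α β hδ
      fin_cases i <;> fin_cases j
      · exact absurd rfl hij
      · exact hn
      · show volume (T2 α β ∩ T1 α β) = 0
        rw [inter_comm]; exact hn
      · exact absurd rfl hij)
    (by
      have : (⋃ i, (![T1 α β, T2 α β] : Fin 2 → Set W) i) = Qd α β := by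
        ext x
        simp [Qd, Fin.exists_fin_two]
      rw [this])
    hf ![g1, g2]
    (by intro i; fin_cases i
        · exact hg1
        · exact hg2)
    (by intro i; fin_cases i
        · exact h1
        · exact h2)
  simp only [Fin.sum_univ_two, area_Qd hδ, one_mul, mul_one] at key
  exact key

end Pool.Agent.Lib.MP_03b26c_an
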