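import Mathlib
import Pool.Agent.Lib.MP_03b26c_an.Quad

set_option autoImplicit false

open MeasureTheory Metric ContinuousLinearMap Filter Topology Set
open scoped ContDiff

namespace Pool.Agent.Lib.MP_03b26c_an

lemma aff_apply (P U V : W) (u v : ℝ) :
    aff P U V (u, v) = (P.1 + u * U.1 + v * V.1, P.2 + u * U.2 + v * V.2) := rfl

/-- derivative of a function of a linear form -/
lemma hasFDerivAt_comp_lin {g : ℝ → ℝ} {g' : ℝ → ℝ} (hg : ∀ t, HasDerivAt g (g' t) t)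
    (c0 c1 c2 : ℝ) (z : W) :
    HasFDerivAt (fun z : W => g (c0 + c1 * z.1 + c2 * z.2))
      (g' (c0 + c1 * z.1 + c2 * z.2) • (c1 • ContinuousLinearMap.fst ℝ ℝ ℝ
        + c2 • ContinuousLinearMap.snd ℝ ℝ ℝ)) z := by
  have h1 : HasFDerivAt (fun z : W => c0 + c1 * z.1 + c2 * z.2)
      (c1 • ContinuousLinearMap.fst ℝ ℝ ℝ + c2 • ContinuousLinearMap.snd ℝ ℝ ℝ) z := by
    have a1 : HasFDerivAt (fun z : W => c1 * z.1) (c1 • ContinuousLinearMap.fst ℝ ℝ ℝ) z :=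
      hasFDerivAt_fst.const_mul c1
    have a2 : HasFDerivAt (fun z : W => c2 * z.2) (c2 • ContinuousLinearMap.snd ℝ ℝ ℝ) z :=
      hasFDerivAt_snd.const_mul c2
    exact (a1.const_add c0).add a2
  exact (hg _).comp_hasFDerivAt z h1

lemma en_comp_lin {g : ℝ → ℝ} {g' : ℝ → ℝ} (hg : ∀ t, HasDerivAt g (g' t) t)
    (p r k c0 c1 c2 : ℝ) (z : W) :
    en p r k (fderiv ℝ (fun z : W => g (c0 + c1 * z.1 + c2 * z.2)) z)
      = (r * c1^2 - 2 * k * c1 * c2 + p * c2^2) * (g' (c0 + c1 * z.1 + c2 * z.2))^2 := by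
  rw [(hasFDerivAt_comp_lin hg c0 c1 c2 z).fderiv]
  simp only [en, _root_.smul_apply, _root_.add_apply,
    ContinuousLinearMap.coe_fst', ContinuousLinearMap.coe_snd', smul_eq_mul]
  ring

/-- linear trial functions -/
theorem lin_ineq {α β Λ p r k : ℝ} (hδ : |α - β| < 2) (h : PW (Qd α β) Λ p r k) (v1 v2 : ℝ) :
    Λ / 12 * ((1 + α^2/4 - β^2/12) * v1^2 + 2 * (α * β / 6) * (v1 * v2)
      + (1 + β^2/4 - α^2/12) * v2^2) ≤ r * v1^2 - 2 * k * v1 * v2 + p * v2^2 := by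
  have hδ' := abs_lt.mp hδ
  set g : W → ℝ := fun z => id (0 + v1 * z.1 + v2 * z.2) with hg
  have hgs : ContDiff ℝ ∞ g := by
    simp only [hg, id]; fun_prop
  have key := h.quad hδ (f := g) (hgs.of_le (by simp)).locallyLipschitz hgs hgs
    (fun _ _ => rfl) (fun _ _ => rfl)
  have he : ∀ z, en p r k (fderiv ℝ g z) = (r * v1^2 - 2 * k * v1 * v2 + p * v2^2) := by
    intro z
    rw [hg, en_comp_lin (g' := fun _ => 1) (fun t => hasDerivAt_id t) p r k 0 v1 v2 z]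
    ring
  have hD1 : cr (vb α β - va α β) (vc α β - va α β) ≠ 0 := by rw [cr1]; linarith
  have hD2 : cr (vc α β - va α β) (vd α β - va α β) ≠ 0 := by rw [cr2]; linarith
  have hgc : Continuous g := hgs.continuous
  have E1 := integral_tri_quad hD1 (F := fun x => en p r k (fderiv ℝ g x))
    (by simp only [he]; exact continuous_const) (r * v1^2 - 2 * k * v1 * v2 + p * v2^2) 0 0 0 0 0
    (by intro u v; rw [he]; ring)
  have E2 := integral_tri_quad hD2 (F := fun x => en p r k (fderiv ℝ g x))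
    (by simp only [he]; exact continuous_const) (r * v1^2 - 2 * k * v1 * v2 + p * v2^2) 0 0 0 0 0
    (by intro u v; rw [he]; ring)
  have M1 := integral_tri_quad hD1 (F := g) hgc (v1 * (-1/2 + α/4) + v2 * (-1/2 + β/4))
    (v1 * (1 - α/2) + v2 * (-β/2)) (v1 + v2) 0 0 0
    (by intro u v
        simp only [hg, id, aff_apply, va, vb, vc, Prod.fst_sub, Prod.snd_sub]; ring)
  have M2 := integral_tri_quad hD2 (F := g) hgc (v1 * (-1/2 + α/4) + v2 * (-1/2 + β/4))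
    (v1 + v2) (v1 * (-α/2) + v2 * (1 - β/2)) 0 0 0
    (by intro u v
        simp only [hg, id, aff_apply, va, vc, vd, Prod.fst_sub, Prod.snd_sub]; ring)
  have S1 := integral_tri_quad hD1 (F := fun x => g x ^ 2) (hgc.pow 2)
    ((v1 * (-1/2 + α/4) + v2 * (-1/2 + β/4))^2)
    (2 * (v1 * (-1/2 + α/4) + v2 * (-1/2 + β/4)) * (v1 * (1 - α/2) + v2 * (-β/2)))
    (2 * (v1 * (-1/2 + α/4) + v2 * (-1/2 + β/4)) * (v1 + v2))
    ((v1 * (1 - α/2) + v2 * (-β/2))^2) (2 * (v1 * (1 - α/2) + v2 * (-β/2)) * (v1 + v2))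
    ((v1 + v2)^2)
    (by intro u v
        simp only [hg, id, aff_apply, va, vb, vc, Prod.fst_sub, Prod.snd_sub]; ring)
  have S2 := integral_tri_quad hD2 (F := fun x => g x ^ 2) (hgc.pow 2)
    ((v1 * (-1/2 + α/4) + v2 * (-1/2 + β/4))^2)
    (2 * (v1 * (-1/2 + α/4) + v2 * (-1/2 + β/4)) * (v1 + v2))
    (2 * (v1 * (-1/2 + α/4) + v2 * (-1/2 + β/4)) * (v1 * (-α/2) + v2 * (1 - β/2)))
    ((v1 + v2)^2) (2 * (v1 * (-α/2) + v2 * (1 - β/2)) * (v1 + v2))
    ((v1 * (-α/2) + v2 * (1 - β/2))^2)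
    (by intro u v
        simp only [hg, id, aff_apply, va, vc, vd, Prod.fst_sub, Prod.snd_sub]; ring)
  rw [T1, T2, E1, E2, M1, M2, S1, S2, cr1, cr2, abs_of_pos (by linarith : 0 < 1 - (α - β)/2),
    abs_of_pos (by linarith : 0 < 1 + (α - β)/2)] at key
  calc Λ / 12 * ((1 + α^2/4 - β^2/12) * v1^2 + 2 * (α * β / 6) * (v1 * v2)
      + (1 + β^2/4 - α^2/12) * v2^2) = _ := by ring
    _ ≤ _ := key
    _ = _ := by ring

/-- the cubic in the height over the diagonal -/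
theorem cubic_ineq {α β Λ p r k : ℝ} (hδ : |α - β| < 2) (h : PW (Qd α β) Λ p r k) (δ : ℝ)
    (hδd : δ = (α - β)/2) :
    Λ * (53/420 + 19/525 * δ^2 - 43/2100 * δ^4 + 1/350 * δ^6)
      ≤ (p + r + 2 * k) * (11/15 - 4/15 * δ^2 + 1/15 * δ^4) := by
  have hδ' := abs_lt.mp hδ
  set G : ℝ → ℝ := fun y => (1 - δ^2) * y + δ * y^2 - y^3/3 with hG
  have hGd : ∀ t, HasDerivAt G ((1 - δ^2) + 2 * δ * t - t^2) t := by
    intro t
    have h1 := (hasDerivAt_id t).const_mul (1 - δ^2)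
    have h2 := (hasDerivAt_pow 2 t).const_mul δ
    have h3 := (hasDerivAt_pow 3 t).div_const 3
    refine ((h1.add h2).sub h3).congr_deriv ?_
    push_cast; ring
  set g : W → ℝ := fun z => G (δ/2 + (-1) * z.1 + 1 * z.2) with hg
  have hgs : ContDiff ℝ ∞ g := by
    simp only [hg, hG]; fun_prop
  have key := h.quad hδ (f := g) (hgs.of_le (by simp)).locallyLipschitz hgs hgs
    (fun _ _ => rfl) (fun _ _ => rfl)
  have he : ∀ z : W, en p r k (fderiv ℝ g z) = (p + r + 2 * k) *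
      ((1 - δ^2) + 2 * δ * (δ/2 + (-1) * z.1 + 1 * z.2) - (δ/2 + (-1) * z.1 + 1 * z.2)^2)^2 := by
    intro z
    rw [hg, en_comp_lin hGd p r k (δ/2) (-1) 1 z]
    ring
  have hec : Continuous (fun x : W => en p r k (fderiv ℝ g x)) := by
    simp only [he]; fun_prop
  have hD1 : cr (vc α β - va α β) (vb α β - va α β) ≠ 0 := by
    have : cr (vc α β - va α β) (vb α β - va α β) = -(1 - (α - β)/2) := by
      rw [← cr1]; unfold cr; ring
    rw [this]; intro h; linarith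
  have hD1' : |cr (vc α β - va α β) (vb α β - va α β)| = 1 - δ := by
    have : cr (vc α β - va α β) (vb α β - va α β) = -(1 - (α - β)/2) := by
      rw [← cr1]; unfold cr; ring
    rw [this, abs_neg, abs_of_pos (by linarith), hδd]
  have hD2 : cr (vc α β - va α β) (vd α β - va α β) ≠ 0 := by rw [cr2]; linarith
  have hD2' : |cr (vc α β - va α β) (vd α β - va α β)| = 1 + δ := by
    rw [cr2, abs_of_pos (by linarith), hδd]
  have hgc : Continuous g := hgs.continuous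
  have y1 : ∀ u v : ℝ, (δ/2 + (-1) * (aff (va α β) (vc α β - va α β) (vb α β - va α β) (u, v)).1
      + 1 * (aff (va α β) (vc α β - va α β) (vb α β - va α β) (u, v)).2) = -(1 - δ) * v := by
    intro u v
    simp only [aff_apply, va, vb, vc, Prod.fst_sub, Prod.snd_sub, hδd]; ring
  have y2 : ∀ u v : ℝ, (δ/2 + (-1) * (aff (va α β) (vc α β - va α β) (vd α β - va α β) (u, v)).1
      + 1 * (aff (va α β) (vc α β - va α β) (vd α β - va α β) (u, v)).2) = (1 + δ) * v := by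
    intro u v
    simp only [aff_apply, va, vd, vc, Prod.fst_sub, Prod.snd_sub, hδd]; ring
  have E1 := integral_tri_v_poly hD1 hec
    ((p + r + 2 * k) * (1 - δ^2)^2)
    ((p + r + 2 * k) * (2 * (1 - δ^2) * (2 * δ * (-(1 - δ)))))
    ((p + r + 2 * k) * ((2 * δ * (-(1 - δ)))^2 - 2 * (1 - δ^2) * (1 - δ)^2))
    ((p + r + 2 * k) * (-2 * (2 * δ * (-(1 - δ))) * (1 - δ)^2))
    ((p + r + 2 * k) * (1 - δ)^4) 0 0
    (by intro u v; rw [he, y1]; ring)
  have E2 := integral_tri_v_poly hD2 hec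
    ((p + r + 2 * k) * (1 - δ^2)^2)
    ((p + r + 2 * k) * (2 * (1 - δ^2) * (2 * δ * (1 + δ))))
    ((p + r + 2 * k) * ((2 * δ * (1 + δ))^2 - 2 * (1 - δ^2) * (1 + δ)^2))
    ((p + r + 2 * k) * (-2 * (2 * δ * (1 + δ)) * (1 + δ)^2))
    ((p + r + 2 * k) * (1 + δ)^4) 0 0
    (by intro u v; rw [he, y2]; ring)
  have M1 := integral_tri_v_poly hD1 hgc 0 (-(1 - δ^2) * (1 - δ)) (δ * (1 - δ)^2)
    ((1 - δ)^3/3) 0 0 0
    (by intro u v
        show G _ = _
        rw [y1]; simp only [hG]; ring)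
  have M2 := integral_tri_v_poly hD2 hgc 0 ((1 - δ^2) * (1 + δ)) (δ * (1 + δ)^2)
    (-(1 + δ)^3/3) 0 0 0
    (by intro u v
        show G _ = _
        rw [y2]; simp only [hG]; ring)
  have S1 := integral_tri_v_poly hD1 (F := fun x => g x ^ 2) (hgc.pow 2) 0 0
    ((1 - δ^2)^2 * (1 - δ)^2) (-2 * (1 - δ^2) * δ * (1 - δ)^3)
    ((δ^2 - 2/3 * (1 - δ^2)) * (1 - δ)^4) (2/3 * δ * (1 - δ)^5) ((1 - δ)^6/9)
    (by intro u v
        show (G _)^2 = _
        rw [y1]; simp only [hG]; ring)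
  have S2 := integral_tri_v_poly hD2 (F := fun x => g x ^ 2) (hgc.pow 2) 0 0
    ((1 - δ^2)^2 * (1 + δ)^2) (2 * (1 - δ^2) * δ * (1 + δ)^3)
    ((δ^2 - 2/3 * (1 - δ^2)) * (1 + δ)^4) (-2/3 * δ * (1 + δ)^5) ((1 + δ)^6/9)
    (by intro u v
        show (G _)^2 = _
        rw [y2]; simp only [hG]; ring)
  rw [T1, T2, tri_swap (va α β) (vb α β) (vc α β), E1, E2, M1, M2, S1, S2, hD1', hD2'] at key
  calc Λ * (53/420 + 19/525 * δ^2 - 43/2100 * δ^4 + 1/350 * δ^6) = _ := by ring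
    _ ≤ _ := key
    _ = _ := by ring

end Pool.Agent.Lib.MP_03b26c_an
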