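import Mathlib
import Pool.Agent.Lib.MP_03b26c_an.Simple
set_option autoImplicit false
open MeasureTheory Metric ContinuousLinearMap Filter Topology Set
open scoped ContDiff
namespace Pool.Agent.Lib.MP_03b26c_an

/-- the radial function from the vertex `c` -/
theorem radial_ineq {α β Λ p r k : ℝ} (hδ : |α - β| < 2) (h : PW (Qd α β) Λ p r k) (δ : ℝ)
    (hδd : δ = (α - β)/2) :
    Λ * (19/140) ≤ (p * (1 - α/2)^2 - k * β * (1 - α/2) + r * β^2/4) / (1 - δ)
      + (p * α^2/4 - k * α * (1 - β/2) + r * (1 - β/2)^2) / (1 + δ) := by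
  have hδ' := abs_lt.mp hδ
  have p1 : 0 < 1 - δ := by rw [hδd]; linarith
  have p2 : 0 < 1 + δ := by rw [hδd]; linarith
  set G : ℝ → ℝ := fun y => (1 - y)^2 - 2/3 * (1 - y)^3 with hG
  have hGd : ∀ t, HasDerivAt G (-(2 * t * (1 - t))) t := by
    intro t
    have h0 : HasDerivAt (fun y : ℝ => 1 - y) (-1) t := by
      simpa using (hasDerivAt_id t).const_sub 1
    have h1 := h0.pow 2
    have h2 := (h0.pow 3).const_mul (2/3)
    refine (h1.sub h2).congr_deriv ?_
    push_cast; ring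
  have hGs : ContDiff ℝ ∞ G := by simp only [hG]; fun_prop
  -- the barycentric coordinates of c
  have hc1 : ∃ c0 c1 c2 : ℝ, c1 = (β/2)/(1-δ) ∧ c2 = (1 - α/2)/(1-δ) ∧
      ∀ z : W, c0 + c1 * z.1 + c2 * z.2 = c1 * (z.1 - (va α β).1) + c2 * (z.2 - (va α β).2) := by
    refine ⟨-((β/2)/(1-δ) * (va α β).1 + (1 - α/2)/(1-δ) * (va α β).2), _, _, rfl, rfl, ?_⟩
    intro z; ring
  have hc2 : ∃ c0 c1 c2 : ℝ, c1 = (1 - β/2)/(1+δ) ∧ c2 = (α/2)/(1+δ) ∧
      ∀ z : W, c0 + c1 * z.1 + c2 * z.2 = c1 * (z.1 - (va α β).1) + c2 * (z.2 - (va α β).2) := by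
    refine ⟨-((1 - β/2)/(1+δ) * (va α β).1 + (α/2)/(1+δ) * (va α β).2), _, _, rfl, rfl, ?_⟩
    intro z; ring
  obtain ⟨a0, a1, a2, ha1, ha2, ha⟩ := hc1
  obtain ⟨b0, b1, b2, hb1, hb2, hb⟩ := hc2
  set y : W → ℝ := fun z => z.2 - z.1 + δ/2 with hy
  set lam : W → ℝ := fun z => (z.1 - (va α β).1) + a2 * min (y z) 0 + b2 * max (y z) 0 with hlam
  have hlip : LocallyLipschitz lam := by
    have hyl : LocallyLipschitz y := by
      have : ContDiff ℝ 1 y := by simp only [hy]; fun_prop
      exact this.locallyLipschitz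
    have h1 : LocallyLipschitz (fun z : W => z.1 - (va α β).1) := by
      have : ContDiff ℝ 1 (fun z : W => z.1 - (va α β).1) := by fun_prop
      exact this.locallyLipschitz
    have h2 : LocallyLipschitz (fun z : W => a2 * min (y z) 0) := by
      have e : LocallyLipschitz (fun t : ℝ => a2 * t) := by
        have : ContDiff ℝ 1 (fun t : ℝ => a2 * t) := by fun_prop
        exact this.locallyLipschitz
      exact e.comp (hyl.min_const 0)
    have h3 : LocallyLipschitz (fun z : W => b2 * max (y z) 0) := by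
      have e : LocallyLipschitz (fun t : ℝ => b2 * t) := by
        have : ContDiff ℝ 1 (fun t : ℝ => b2 * t) := by fun_prop
        exact this.locallyLipschitz
      exact e.comp (hyl.max_const 0)
    exact (h1.add h2).add h3
  set f : W → ℝ := fun z => G (lam z) with hf
  have hfl : LocallyLipschitz f := (hGs.of_le (by simp)).locallyLipschitz.comp hlip
  set g1 : W → ℝ := fun z => G (a0 + a1 * z.1 + a2 * z.2) with hg1
  set g2 : W → ℝ := fun z => G (b0 + b1 * z.1 + b2 * z.2) with hg2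
  have hg1s : ContDiff ℝ ∞ g1 := hGs.comp (by fun_prop)
  have hg2s : ContDiff ℝ ∞ g2 := hGs.comp (by fun_prop)
  have hva1 : (va α β).1 = -1/2 + α/4 := rfl
  have hva2 : (va α β).2 = -1/2 + β/4 := rfl
  have sa : a1 + a2 = 1 := by rw [ha1, ha2]; field_simp; rw [hδd]; ring
  have sb : b1 + b2 = 1 := by rw [hb1, hb2]; field_simp; rw [hδd]; ring
  have hfg1 : ∀ x ∈ T1 α β, f x = g1 x := by
    intro x hx
    rw [T1, mem_tri] at hx
    obtain ⟨a, b, c, h1, h2, h3, h4, rfl⟩ := hx
    simp only [hf, hg1]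
    congr 1
    rw [ha, hlam]
    have hyy : y (a • va α β + b • vb α β + c • vc α β) = -b * (1 - δ) := by
      have : a = 1 - b - c := by linarith
      subst this
      simp only [hy, va, vb, vc, Prod.fst_add, Prod.snd_add, Prod.smul_fst, Prod.smul_snd,
        smul_eq_mul, hδd]
      ring
    have hle : y (a • va α β + b • vb α β + c • vc α β) ≤ 0 := by
      rw [hyy]; nlinarith
    simp only
    rw [min_eq_left hle, max_eq_right hle]
    have e1 : a1 = 1 - a2 := by linarith
    rw [e1]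
    simp only [hy, hva1, hva2, hδd]
    ring
  have hfg2 : ∀ x ∈ T2 α β, f x = g2 x := by
    intro x hx
    rw [T2, mem_tri] at hx
    obtain ⟨a, c, d, h1, h2, h3, h4, rfl⟩ := hx
    simp only [hf, hg2]
    congr 1
    rw [hb, hlam]
    have hyy : y (a • va α β + c • vc α β + d • vd α β) = d * (1 + δ) := by
      have : a = 1 - c - d := by linarith
      subst this
      simp only [hy, va, vd, vc, Prod.fst_add, Prod.snd_add, Prod.smul_fst, Prod.smul_snd,
        smul_eq_mul, hδd]
      ring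
    have hle : 0 ≤ y (a • va α β + c • vc α β + d • vd α β) := by
      rw [hyy]; positivity
    simp only
    rw [min_eq_right hle, max_eq_left hle]
    have e1 : b1 = 1 - b2 := by linarith
    rw [e1]
    simp only [hy, hva1, hva2, hδd]
    ring
  have key := h.quad hδ hfl hg1s hg2s hfg1 hfg2
  have hD1 : cr (vb α β - va α β) (vc α β - va α β) ≠ 0 := by rw [cr1]; linarith
  have hD1' : |cr (vb α β - va α β) (vc α β - va α β)| = 1 - δ := by
    rw [cr1, abs_of_pos (by linarith), hδd]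
  have hD2 : cr (vd α β - va α β) (vc α β - va α β) ≠ 0 := by
    have : cr (vd α β - va α β) (vc α β - va α β) = -(1 + (α - β)/2) := by
      rw [← cr2]; unfold cr; ring
    rw [this]; intro h; linarith
  have hD2' : |cr (vd α β - va α β) (vc α β - va α β)| = 1 + δ := by
    have : cr (vd α β - va α β) (vc α β - va α β) = -(1 + (α - β)/2) := by
      rw [← cr2]; unfold cr; ring
    rw [this, abs_neg, abs_of_pos (by linarith), hδd]
  have l1 : ∀ u v : ℝ, a0 + a1 * (aff (va α β) (vb α β - va α β) (vc α β - va α β) (u, v)).1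
      + a2 * (aff (va α β) (vb α β - va α β) (vc α β - va α β) (u, v)).2 = v := by
    intro u v
    rw [ha, ha1, ha2]
    simp only [aff_apply, va, vb, vc, Prod.fst_sub, Prod.snd_sub]
    field_simp
    rw [hδd]; ring
  have l2 : ∀ u v : ℝ, b0 + b1 * (aff (va α β) (vd α β - va α β) (vc α β - va α β) (u, v)).1
      + b2 * (aff (va α β) (vd α β - va α β) (vc α β - va α β) (u, v)).2 = v := by
    intro u v
    rw [hb, hb1, hb2]
    simp only [aff_apply, va, vd, vc, Prod.fst_sub, Prod.snd_sub]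
    field_simp
    rw [hδd]; ring
  have he1 : ∀ z : W, en p r k (fderiv ℝ g1 z) = (r * a1^2 - 2 * k * a1 * a2 + p * a2^2) *
      (-(2 * (a0 + a1 * z.1 + a2 * z.2) * (1 - (a0 + a1 * z.1 + a2 * z.2))))^2 := by
    intro z
    rw [hg1, en_comp_lin hGd p r k a0 a1 a2 z]
  have he2 : ∀ z : W, en p r k (fderiv ℝ g2 z) = (r * b1^2 - 2 * k * b1 * b2 + p * b2^2) *
      (-(2 * (b0 + b1 * z.1 + b2 * z.2) * (1 - (b0 + b1 * z.1 + b2 * z.2))))^2 := by
    intro z
    rw [hg2, en_comp_lin hGd p r k b0 b1 b2 z]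
  have hec1 : Continuous (fun x : W => en p r k (fderiv ℝ g1 x)) := by
    simp only [he1]; fun_prop
  have hec2 : Continuous (fun x : W => en p r k (fderiv ℝ g2 x)) := by
    simp only [he2]; fun_prop
  have E1 := integral_tri_v_poly hD1 hec1 0 0
    ((r * a1^2 - 2 * k * a1 * a2 + p * a2^2) * 4) ((r * a1^2 - 2 * k * a1 * a2 + p * a2^2) * (-8))
    ((r * a1^2 - 2 * k * a1 * a2 + p * a2^2) * 4) 0 0
    (by intro u v; rw [he1, l1]; ring)
  have E2 := integral_tri_v_poly hD2 hec2 0 0
    ((r * b1^2 - 2 * k * b1 * b2 + p * b2^2) * 4) ((r * b1^2 - 2 * k * b1 * b2 + p * b2^2) * (-8))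
    ((r * b1^2 - 2 * k * b1 * b2 + p * b2^2) * 4) 0 0
    (by intro u v; rw [he2, l2]; ring)
  have M1 := integral_tri_v_poly hD1 hg1s.continuous (1/3) 0 (-1) (2/3) 0 0 0
    (by intro u v
        show G _ = _
        rw [l1]; simp only [hG]; ring)
  have M2 := integral_tri_v_poly hD2 hg2s.continuous (1/3) 0 (-1) (2/3) 0 0 0
    (by intro u v
        show G _ = _
        rw [l2]; simp only [hG]; ring)
  have S1 := integral_tri_v_poly hD1 (F := fun x => g1 x ^ 2) (hg1s.continuous.pow 2)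
    (1/9) 0 (-2/3) (4/9) 1 (-4/3) (4/9)
    (by intro u v
        show (G _)^2 = _
        rw [l1]; simp only [hG]; ring)
  have S2 := integral_tri_v_poly hD2 (F := fun x => g2 x ^ 2) (hg2s.continuous.pow 2)
    (1/9) 0 (-2/3) (4/9) 1 (-4/3) (4/9)
    (by intro u v
        show (G _)^2 = _
        rw [l2]; simp only [hG]; ring)
  rw [T1, T2, tri_swap (va α β) (vc α β) (vd α β), E1, E2, M1, M2, S1, S2, hD1', hD2'] at key
  have f1 : (p * (1 - α/2)^2 - k * β * (1 - α/2) + r * β^2/4) / (1 - δ)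
      = (1 - δ) * (r * a1^2 - 2 * k * a1 * a2 + p * a2^2) := by
    rw [ha1, ha2]; field_simp; ring
  have f2 : (p * α^2/4 - k * α * (1 - β/2) + r * (1 - β/2)^2) / (1 + δ)
      = (1 + δ) * (r * b1^2 - 2 * k * b1 * b2 + p * b2^2) := by
    rw [hb1, hb2]; field_simp; ring
  rw [f1, f2]
  linarith

end Pool.Agent.Lib.MP_03b26c_an
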