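import Mathlib

set_option autoImplicit false

open MeasureTheory Real intervalIntegral

namespace Pool.Agent.Lib.MP_03b26c_an

lemma hs (t : ℝ) : HasDerivAt (fun t => sin (π * t)) (π * cos (π * t)) t := by
  have h : HasDerivAt (fun t : ℝ => π * t) π t := by simpa using (hasDerivAt_id t).const_mul π
  have := h.sin
  rwa [mul_comm] at this

lemma hc (t : ℝ) : HasDerivAt (fun t => cos (π * t)) (-(π * sin (π * t))) t := by
  have h : HasDerivAt (fun t : ℝ => π * t) π t := by simpa using (hasDerivAt_id t).const_mul π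
  have := h.cos
  refine this.congr_deriv (by ring)

lemma ftc {F f : ℝ → ℝ} (hf : Continuous f) (h : ∀ t, HasDerivAt F (f t) t) (a b : ℝ) :
    ∫ t in a..b, f t = F b - F a :=
  integral_eq_sub_of_hasDerivAt (fun t _ => h t) (hf.intervalIntegrable _ _)

-- inner integrals
lemma in_cos2 (t : ℝ) : ∫ s in (-t)..t, cos (π * s) ^ 2 = t + sin (π * t) * cos (π * t) / π := by
  have hpi : π ≠ 0 := pi_ne_zero
  rw [ftc (F := fun s => s / 2 + sin (π * s) * cos (π * s) / (2 * π)) (by fun_prop)]
  · simp only [mul_neg, sin_neg, cos_neg]; field_simp; ring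
  · intro s
    have h1 := ((hasDerivAt_id s).div_const 2).add (((hs s).mul (hc s)).div_const (2 * π))
    refine h1.congr_deriv ?_
    have h2 := sin_sq_add_cos_sq (π * s)
    field_simp
    linear_combination (-1) * h2

lemma in_sin2 (t : ℝ) : ∫ s in (-t)..t, sin (π * s) ^ 2 = t - sin (π * t) * cos (π * t) / π := by
  have hpi : π ≠ 0 := pi_ne_zero
  rw [ftc (F := fun s => s / 2 - sin (π * s) * cos (π * s) / (2 * π)) (by fun_prop)]
  · simp only [mul_neg, sin_neg, cos_neg]; field_simp; ring
  · intro s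
    have h1 := ((hasDerivAt_id s).div_const 2).sub (((hs s).mul (hc s)).div_const (2 * π))
    refine h1.congr_deriv ?_
    have h2 := sin_sq_add_cos_sq (π * s)
    field_simp
    linear_combination (-1) * h2

lemma in_cos (t : ℝ) : ∫ s in (-t)..t, cos (π * s) = 2 * sin (π * t) / π := by
  have hpi : π ≠ 0 := pi_ne_zero
  rw [ftc (F := fun s => sin (π * s) / π) (by fun_prop)]
  · simp only [mul_neg, sin_neg]; ring
  · intro s
    exact ((hs s).div_const π).congr_deriv (by field_simp)

lemma in_sin (t : ℝ) : ∫ s in (-t)..t, sin (π * s) = 0 := by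
  have hpi : π ≠ 0 := pi_ne_zero
  rw [ftc (F := fun s => -cos (π * s) / π) (by fun_prop)]
  · simp only [mul_neg, cos_neg]; ring
  · intro s
    exact ((hc s).neg.div_const π).congr_deriv (by field_simp)

lemma in_sincos (t : ℝ) : ∫ s in (-t)..t, sin (π * s) * cos (π * s) = 0 := by
  have hpi : π ≠ 0 := pi_ne_zero
  rw [ftc (F := fun s => sin (π * s) ^ 2 / (2 * π)) (by fun_prop)]
  · simp only [mul_neg, sin_neg]; ring
  · intro s
    exact (((hs s).pow 2).div_const (2*π)).congr_deriv (by field_simp; norm_num; ring)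

lemma s0 : sin (π * 0) = 0 := by simp
lemma c0 : cos (π * 0) = 1 := by simp
lemma s1 : sin (π * (1/2)) = 1 := by
  rw [show π * (1/2) = π / 2 by ring]; exact sin_pi_div_two
lemma c1 : cos (π * (1/2)) = 0 := by
  rw [show π * (1/2) = π / 2 by ring]; exact cos_pi_div_two

-- outer building blocks
lemma ou_t : ∫ t in (0:ℝ)..(1/2), t = 1/8 := by
  rw [ftc (f := fun t => t) (F := fun t => t^2/2) continuous_id]
  · norm_num
  · intro t
    exact ((hasDerivAt_pow 2 t).div_const 2).congr_deriv (by simp)

lemma ou_sc : ∫ t in (0:ℝ)..(1/2), sin (π * t) * cos (π * t) = 1 / (2 * π) := by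
  have hpi : π ≠ 0 := pi_ne_zero
  rw [ftc (F := fun t => sin (π * t) ^ 2 / (2 * π)) (by fun_prop)]
  · simp only [s0, s1]; ring
  · intro s
    exact (((hs s).pow 2).div_const (2*π)).congr_deriv (by field_simp; norm_num; ring)

lemma ou_ts : ∫ t in (0:ℝ)..(1/2), t * sin (π * t) = 1 / π ^ 2 := by
  have hpi : π ≠ 0 := pi_ne_zero
  rw [ftc (F := fun t => -(t * cos (π * t)) / π + sin (π * t) / π ^ 2) (by fun_prop)]
  · simp only [s0, s1, c0, c1]; ring
  · intro t
    refine ((((hasDerivAt_id t).mul (hc t)).neg.div_const π).add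
      ((hs t).div_const (π^2))).congr_deriv ?_
    simp only [id]
    field_simp
    ring

lemma ou_s2c : ∫ t in (0:ℝ)..(1/2), sin (π * t) ^ 2 * cos (π * t) = 1 / (3 * π) := by
  have hpi : π ≠ 0 := pi_ne_zero
  rw [ftc (F := fun t => sin (π * t) ^ 3 / (3 * π)) (by fun_prop)]
  · simp only [s0, s1]; ring
  · intro s
    exact (((hs s).pow 3).div_const (3*π)).congr_deriv (by field_simp; norm_num; ring)

lemma ou_s3c : ∫ t in (0:ℝ)..(1/2), sin (π * t) ^ 3 * cos (π * t) = 1 / (4 * π) := by
  have hpi : π ≠ 0 := pi_ne_zero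
  rw [ftc (F := fun t => sin (π * t) ^ 4 / (4 * π)) (by fun_prop)]
  · simp only [s0, s1]; ring
  · intro s
    exact (((hs s).pow 4).div_const (4*π)).congr_deriv (by field_simp; norm_num; ring)

lemma ou_sc3 : ∫ t in (0:ℝ)..(1/2), sin (π * t) * cos (π * t) ^ 3 = 1 / (4 * π) := by
  have hpi : π ≠ 0 := pi_ne_zero
  rw [ftc (F := fun t => -(cos (π * t) ^ 4) / (4 * π)) (by fun_prop)]
  · simp only [c0, c1]; ring
  · intro s
    exact (((hc s).pow 4).neg.div_const (4*π)).congr_deriv (by field_simp; norm_num; ring)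

lemma ou_ts2 : ∫ t in (0:ℝ)..(1/2), t * sin (π * t) ^ 2 = 1/16 + 1 / (4 * π ^ 2) := by
  have hpi : π ≠ 0 := pi_ne_zero
  -- antiderivative: t²/4 - t sin cos/(2π) + sin²/(4π²)
  rw [ftc (F := fun t => t^2/4 - t * (sin (π * t) * cos (π * t)) / (2 * π)
      + sin (π * t) ^ 2 / (4 * π ^ 2)) (by fun_prop)]
  · simp only [s0, s1, c0, c1]; field_simp; ring
  · intro t
    refine ((((hasDerivAt_pow 2 t).div_const 4).sub
      (((hasDerivAt_id t).mul ((hs t).mul (hc t))).div_const (2 * π))).add
      (((hs t).pow 2).div_const (4 * π^2))).congr_deriv ?_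
    simp only [id, Pi.mul_apply]
    have h2 := sin_sq_add_cos_sq (t * π)
    push_cast
    field_simp
    linear_combination (-4 * t * π) * h2

lemma ou_tc2 : ∫ t in (0:ℝ)..(1/2), t * cos (π * t) ^ 2 = 1/16 - 1 / (4 * π ^ 2) := by
  have h : ∀ t : ℝ, t * cos (π * t) ^ 2 = t - t * sin (π * t) ^ 2 := by
    intro t
    have h2 := sin_sq_add_cos_sq (π * t)
    linear_combination t * h2
  simp_rw [h]
  rw [integral_sub (Continuous.intervalIntegrable (by fun_prop) _ _)
    (Continuous.intervalIntegrable (by fun_prop) _ _), ou_t, ou_ts2]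
  ring

lemma ou_ct (a : ℝ) : ∫ t in (0:ℝ)..(1/2), a * t = a * (1/8) := by
  rw [intervalIntegral.integral_const_mul, ou_t]



lemma JSS (A C : ℝ) : ∫ t in (0:ℝ)..(1/2), ∫ s in (-t)..t,
      (A * cos (π * s) + C * (cos (π * s) * sin (π * t))) ^ 2
    = A^2 * (1/8 + 1/(2*π^2)) + 2 * A * C * (4/(3*π^2)) + C^2 * (1/16 + 1/(2*π^2)) := by
  have hpi : π ≠ 0 := pi_ne_zero
  have h1 : ∀ t : ℝ, ∫ s in (-t)..t, (A * cos (π * s) + C * (cos (π * s) * sin (π * t))) ^ 2
      = A^2 * t + 2 * A * C * (t * sin (π * t)) + C^2 * (t * sin (π * t)^2)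
        + (A^2 / π) * (sin (π * t) * cos (π * t)) + (2 * A * C / π) * (sin (π * t)^2 * cos (π * t))
        + (C^2 / π) * (sin (π * t)^3 * cos (π * t)) := by
    intro t
    have : ∀ s : ℝ, (A * cos (π * s) + C * (cos (π * s) * sin (π * t))) ^ 2
      = (A + C * sin (π * t))^2 * cos (π * s)^2 := by intro s; ring
    simp_rw [this]
    rw [intervalIntegral.integral_const_mul, in_cos2]
    field_simp
    ring
  simp_rw [h1]
  simp (disch := exact Continuous.intervalIntegrable (by fun_prop) _ _) only
    [intervalIntegral.integral_add, intervalIntegral.integral_sub,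
      intervalIntegral.integral_const_mul, intervalIntegral.integral_const]
  rw [ou_ct, ou_ts, ou_ts2, ou_sc, ou_s2c, ou_s3c]
  field_simp
  ring

lemma JTT (B C : ℝ) : ∫ t in (0:ℝ)..(1/2), ∫ s in (-t)..t,
      (B * cos (π * t) + C * (sin (π * s) * cos (π * t))) ^ 2
    = B^2 * (1/8 - 1/(2*π^2)) + C^2 * (1/16 - 1/(2*π^2)) := by
  have hpi : π ≠ 0 := pi_ne_zero
  have h1 : ∀ t : ℝ, ∫ s in (-t)..t, (B * cos (π * t) + C * (sin (π * s) * cos (π * t))) ^ 2
      = (2 * B^2 + C^2) * (t * cos (π * t)^2) - (C^2 / π) * (sin (π * t) * cos (π * t)^3) := by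
    intro t
    have : ∀ s : ℝ, (B * cos (π * t) + C * (sin (π * s) * cos (π * t))) ^ 2
      = B^2 * cos (π * t)^2 + (2 * B * C * cos (π * t)^2) * sin (π * s)
        + (C^2 * cos (π * t)^2) * sin (π * s)^2 := by intro s; ring
    simp_rw [this]
    simp (disch := exact Continuous.intervalIntegrable (by fun_prop) _ _) only
      [intervalIntegral.integral_add, intervalIntegral.integral_sub,
        intervalIntegral.integral_const_mul, intervalIntegral.integral_const]
    rw [in_sin2, in_sin]
    simp only [smul_eq_mul]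
    field_simp
    ring
  simp_rw [h1]
  simp (disch := exact Continuous.intervalIntegrable (by fun_prop) _ _) only
    [intervalIntegral.integral_add, intervalIntegral.integral_sub,
      intervalIntegral.integral_const_mul, intervalIntegral.integral_const]
  rw [ou_tc2, ou_sc3]
  field_simp
  ring

lemma JST (A B C : ℝ) : ∫ t in (0:ℝ)..(1/2), ∫ s in (-t)..t,
      (A * cos (π * s) + C * (cos (π * s) * sin (π * t)))
        * (B * cos (π * t) + C * (sin (π * s) * cos (π * t)))
    = A * B * (1/π^2) + B * C * (2/(3*π^2)) := by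
  have hpi : π ≠ 0 := pi_ne_zero
  have h1 : ∀ t : ℝ, ∫ s in (-t)..t, (A * cos (π * s) + C * (cos (π * s) * sin (π * t)))
        * (B * cos (π * t) + C * (sin (π * s) * cos (π * t)))
      = (2 * A * B / π) * (sin (π * t) * cos (π * t)) + (2 * B * C / π) * (sin (π * t)^2 * cos (π * t)) := by
    intro t
    have : ∀ s : ℝ, (A * cos (π * s) + C * (cos (π * s) * sin (π * t)))
        * (B * cos (π * t) + C * (sin (π * s) * cos (π * t)))
      = ((A + C * sin (π * t)) * B * cos (π * t)) * cos (π * s)
        + ((A + C * sin (π * t)) * C * cos (π * t)) * (sin (π * s) * cos (π * s)) := by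
      intro s; ring
    simp_rw [this]
    simp (disch := exact Continuous.intervalIntegrable (by fun_prop) _ _) only
      [intervalIntegral.integral_add, intervalIntegral.integral_sub,
        intervalIntegral.integral_const_mul, intervalIntegral.integral_const]
    rw [in_cos, in_sincos]
    field_simp
    ring
  simp_rw [h1]
  simp (disch := exact Continuous.intervalIntegrable (by fun_prop) _ _) only
    [intervalIntegral.integral_add, intervalIntegral.integral_sub,
      intervalIntegral.integral_const_mul, intervalIntegral.integral_const]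
  rw [ou_sc, ou_s2c]
  field_simp

lemma JM2 (A B C : ℝ) : ∫ t in (0:ℝ)..(1/2), ∫ s in (-t)..t,
      (A * sin (π * s) + B * sin (π * t) + C * (sin (π * s) * sin (π * t))) ^ 2
    = A^2 * (1/8 - 1/(2*π^2)) + B^2 * (1/8 + 1/(2*π^2)) + C^2 * (1/16)
      + 2 * A * C * (2/(3*π^2)) := by
  have hpi : π ≠ 0 := pi_ne_zero
  have h1 : ∀ t : ℝ, ∫ s in (-t)..t,
      (A * sin (π * s) + B * sin (π * t) + C * (sin (π * s) * sin (π * t))) ^ 2
      = A^2 * t + 2 * A * C * (t * sin (π * t)) + (C^2 + 2 * B^2) * (t * sin (π * t)^2)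
        - (A^2 / π) * (sin (π * t) * cos (π * t)) - (2 * A * C / π) * (sin (π * t)^2 * cos (π * t))
        - (C^2 / π) * (sin (π * t)^3 * cos (π * t)) := by
    intro t
    have : ∀ s : ℝ, (A * sin (π * s) + B * sin (π * t) + C * (sin (π * s) * sin (π * t))) ^ 2
      = (A + C * sin (π * t))^2 * sin (π * s)^2
        + (2 * (A + C * sin (π * t)) * B * sin (π * t)) * sin (π * s)
        + B^2 * sin (π * t)^2 := by intro s; ring
    simp_rw [this]
    simp (disch := exact Continuous.intervalIntegrable (by fun_prop) _ _) only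
      [intervalIntegral.integral_add, intervalIntegral.integral_sub,
        intervalIntegral.integral_const_mul, intervalIntegral.integral_const]
    rw [in_sin2, in_sin]
    simp only [smul_eq_mul]
    field_simp
    ring
  simp_rw [h1]
  simp (disch := exact Continuous.intervalIntegrable (by fun_prop) _ _) only
    [intervalIntegral.integral_add, intervalIntegral.integral_sub,
      intervalIntegral.integral_const_mul, intervalIntegral.integral_const]
  rw [ou_ct, ou_ts, ou_ts2, ou_sc, ou_s2c, ou_s3c]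
  field_simp
  ring

lemma JM1 (A B C : ℝ) : ∫ t in (0:ℝ)..(1/2), ∫ s in (-t)..t,
      (A * sin (π * s) + B * sin (π * t) + C * (sin (π * s) * sin (π * t)))
    = B * (2/π^2) := by
  have hpi : π ≠ 0 := pi_ne_zero
  have h1 : ∀ t : ℝ, ∫ s in (-t)..t,
      (A * sin (π * s) + B * sin (π * t) + C * (sin (π * s) * sin (π * t)))
      = 2 * B * (t * sin (π * t)) := by
    intro t
    have : ∀ s : ℝ, (A * sin (π * s) + B * sin (π * t) + C * (sin (π * s) * sin (π * t)))
      = (A + C * sin (π * t)) * sin (π * s) + B * sin (π * t) := by intro s; ring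
    simp_rw [this]
    simp (disch := exact Continuous.intervalIntegrable (by fun_prop) _ _) only
      [intervalIntegral.integral_add, intervalIntegral.integral_sub,
        intervalIntegral.integral_const_mul, intervalIntegral.integral_const]
    rw [in_sin]
    simp only [smul_eq_mul]
    ring
  simp_rw [h1]
  simp (disch := exact Continuous.intervalIntegrable (by fun_prop) _ _) only
    [intervalIntegral.integral_add, intervalIntegral.integral_sub,
      intervalIntegral.integral_const_mul, intervalIntegral.integral_const]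
  rw [ou_ts]
  ring

end Pool.Agent.Lib.MP_03b26c_an
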