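import Mathlib
import Pool.Agent.Lib.MP_03b26c_an.Simple
import Pool.Agent.Lib.MP_03b26c_an.TrigInt

set_option autoImplicit false

open MeasureTheory Metric ContinuousLinearMap Filter Topology Set
open scoped ContDiff

namespace Pool.Agent.Lib.MP_03b26c_an

/-- first coordinate in the basis `U, V` -/
noncomputable def cS (U V : W) (z : W) : ℝ := (z.1 * V.2 - z.2 * V.1) / cr U V
/-- second coordinate in the basis `U, V` -/
noncomputable def cT (U V : W) (z : W) : ℝ := (U.1 * z.2 - U.2 * z.1) / cr U V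

lemma cS_aff {U V : W} (hD : cr U V ≠ 0) (s t : ℝ) : cS U V (aff 0 U V (s, t)) = s := by
  unfold cS
  rw [aff_apply]
  rw [div_eq_iff hD]
  simp only [cr, Prod.fst_zero, Prod.snd_zero]
  ring

lemma cT_aff {U V : W} (hD : cr U V ≠ 0) (s t : ℝ) : cT U V (aff 0 U V (s, t)) = t := by
  unfold cT
  rw [aff_apply]
  rw [div_eq_iff hD]
  simp only [cr, Prod.fst_zero, Prod.snd_zero]
  ring

/-- trial function on the square -/
noncomputable def trial (A B C : ℝ) (s t : ℝ) : ℝ :=
  A * Real.sin (Real.pi * s) + B * Real.sin (Real.pi * t)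
    + C * (Real.sin (Real.pi * s) * Real.sin (Real.pi * t))

/-- trial function on a piece -/
noncomputable def pieceFun (U V : W) (A B C : ℝ) (z : W) : ℝ := trial A B C (cS U V z) (cT U V z)

lemma cS_contDiff (U V : W) : ContDiff ℝ ∞ (cS U V) := by unfold cS; fun_prop
lemma cT_contDiff (U V : W) : ContDiff ℝ ∞ (cT U V) := by unfold cT; fun_prop

lemma pieceFun_contDiff (U V : W) (A B C : ℝ) : ContDiff ℝ ∞ (pieceFun U V A B C) := by
  have h1 := cS_contDiff U V
  have h2 := cT_contDiff U V
  unfold pieceFun trial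
  fun_prop

lemma cS_hasFDerivAt (U V z : W) : HasFDerivAt (cS U V)
    ((V.2 / cr U V) • ContinuousLinearMap.fst ℝ ℝ ℝ
      + (-V.1 / cr U V) • ContinuousLinearMap.snd ℝ ℝ ℝ) z := by
  have a1 : HasFDerivAt (fun z : W => (V.2 / cr U V) * z.1)
      ((V.2 / cr U V) • ContinuousLinearMap.fst ℝ ℝ ℝ) z := hasFDerivAt_fst.const_mul _
  have a2 : HasFDerivAt (fun z : W => (-V.1 / cr U V) * z.2)
      ((-V.1 / cr U V) • ContinuousLinearMap.snd ℝ ℝ ℝ) z := hasFDerivAt_snd.const_mul _
  have h := a1.add a2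
  have e : cS U V = (fun z : W => (V.2 / cr U V) * z.1) + (fun z : W => (-V.1 / cr U V) * z.2) := by
    funext z; simp only [cS, Pi.add_apply]; ring
  rw [e]; exact h

lemma cT_hasFDerivAt (U V z : W) : HasFDerivAt (cT U V)
    ((-U.2 / cr U V) • ContinuousLinearMap.fst ℝ ℝ ℝ
      + (U.1 / cr U V) • ContinuousLinearMap.snd ℝ ℝ ℝ) z := by
  have a1 : HasFDerivAt (fun z : W => (-U.2 / cr U V) * z.1)
      ((-U.2 / cr U V) • ContinuousLinearMap.fst ℝ ℝ ℝ) z := hasFDerivAt_fst.const_mul _
  have a2 : HasFDerivAt (fun z : W => (U.1 / cr U V) * z.2)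
      ((U.1 / cr U V) • ContinuousLinearMap.snd ℝ ℝ ℝ) z := hasFDerivAt_snd.const_mul _
  have h := a1.add a2
  have e : cT U V = (fun z : W => (-U.2 / cr U V) * z.1) + (fun z : W => (U.1 / cr U V) * z.2) := by
    funext z; simp only [cT, Pi.add_apply]; ring
  rw [e]; exact h

lemma pieceFun_en (U V : W) (A B C p r k : ℝ) (z : W) :
    en p r k (fderiv ℝ (pieceFun U V A B C) z)
      = (Real.pi^2 / (cr U V)^2) *
        ((p * V.1^2 + 2 * k * V.1 * V.2 + r * V.2^2) *
            (A * Real.cos (Real.pi * cS U V z)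
              + C * (Real.cos (Real.pi * cS U V z) * Real.sin (Real.pi * cT U V z)))^2
          - 2 * (p * U.1 * V.1 + k * (U.1 * V.2 + U.2 * V.1) + r * U.2 * V.2) *
            ((A * Real.cos (Real.pi * cS U V z)
              + C * (Real.cos (Real.pi * cS U V z) * Real.sin (Real.pi * cT U V z)))
            * (B * Real.cos (Real.pi * cT U V z)
              + C * (Real.sin (Real.pi * cS U V z) * Real.cos (Real.pi * cT U V z))))
          + (p * U.1^2 + 2 * k * U.1 * U.2 + r * U.2^2) *
            (B * Real.cos (Real.pi * cT U V z)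
              + C * (Real.sin (Real.pi * cS U V z) * Real.cos (Real.pi * cT U V z)))^2) := by
  have hS := cS_hasFDerivAt U V z
  have hT := cT_hasFDerivAt U V z
  have s1 := (hs (cS U V z)).comp_hasFDerivAt z hS
  have t1 := (hs (cT U V z)).comp_hasFDerivAt z hT
  have h := ((s1.const_mul A).add (t1.const_mul B)).add ((s1.mul t1).const_mul C)
  have e : pieceFun U V A B C = fun z => A * Real.sin (Real.pi * cS U V z)
      + B * Real.sin (Real.pi * cT U V z)
      + C * (Real.sin (Real.pi * cS U V z) * Real.sin (Real.pi * cT U V z)) := rfl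
  have h' : HasFDerivAt (pieceFun U V A B C) _ z := h
  rw [h'.fderiv]
  simp only [en, _root_.smul_apply, _root_.add_apply,
    ContinuousLinearMap.coe_fst', ContinuousLinearMap.coe_snd', smul_eq_mul, Function.comp_apply]
  ring

/-- all the integrals on a piece -/
lemma piece_mean {U V : W} (hD : cr U V ≠ 0) (A B C : ℝ) :
    ∫ x in aff 0 U V '' Th, pieceFun U V A B C x = |cr U V| * (B * (2/Real.pi^2)) := by
  rw [integral_tri_Th hD (pieceFun_contDiff U V A B C).continuous]
  simp only [pieceFun, cS_aff hD, cT_aff hD, trial]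
  rw [JM1]

lemma piece_sq {U V : W} (hD : cr U V ≠ 0) (A B C : ℝ) :
    ∫ x in aff 0 U V '' Th, pieceFun U V A B C x ^ 2
      = |cr U V| * (A^2 * (1/8 - 1/(2*Real.pi^2)) + B^2 * (1/8 + 1/(2*Real.pi^2)) + C^2 * (1/16)
      + 2 * A * C * (2/(3*Real.pi^2))) := by
  rw [integral_tri_Th hD (F := fun x => pieceFun U V A B C x ^ 2)
    ((pieceFun_contDiff U V A B C).continuous.pow 2)]
  simp only [pieceFun, cS_aff hD, cT_aff hD, trial]
  rw [JM2]

lemma integral_Th {G : W → ℝ} (hG : Continuous G) :
    ∫ z in Th, G z = ∫ t in (0:ℝ)..(1/2), ∫ s in (-t)..t, G (s, t) :=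
  integral_region (a := 0) (b := 1/2) (l := fun t => -t) (r := fun t => t)
    (by norm_num) (by fun_prop) (by fun_prop) (fun t ht => by linarith [ht.1]) hG

lemma lin3 {S : Set W} {f1 f2 f3 : W → ℝ} (g1 : IntegrableOn f1 S) (g2 : IntegrableOn f2 S)
    (g3 : IntegrableOn f3 S) (a b c : ℝ) :
    ∫ z in S, (a * f1 z - b * f2 z + c * f3 z)
      = a * (∫ z in S, f1 z) - b * (∫ z in S, f2 z) + c * ∫ z in S, f3 z := by
  have h1 : Integrable (fun z => a * f1 z) (volume.restrict S) := g1.const_mul a
  have h2 : Integrable (fun z => b * f2 z) (volume.restrict S) := g2.const_mul b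
  have h3 : Integrable (fun z => c * f3 z) (volume.restrict S) := g3.const_mul c
  have h12 : Integrable (fun z => a * f1 z - b * f2 z) (volume.restrict S) := h1.sub h2
  rw [integral_add h12 h3, integral_sub h1 h2, integral_const_mul, integral_const_mul,
    integral_const_mul]

lemma piece_en {U V : W} (hD : cr U V ≠ 0) (A B C p r k : ℝ) :
    ∫ x in aff 0 U V '' Th, en p r k (fderiv ℝ (pieceFun U V A B C) x)
      = (Real.pi^2 / |cr U V|) *
        ((p * V.1^2 + 2 * k * V.1 * V.2 + r * V.2^2) *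
          (A^2 * (1/8 + 1/(2*Real.pi^2)) + 2 * A * C * (4/(3*Real.pi^2))
            + C^2 * (1/16 + 1/(2*Real.pi^2)))
        - 2 * (p * U.1 * V.1 + k * (U.1 * V.2 + U.2 * V.1) + r * U.2 * V.2) *
          (A * B * (1/Real.pi^2) + B * C * (2/(3*Real.pi^2)))
        + (p * U.1^2 + 2 * k * U.1 * U.2 + r * U.2^2) *
          (B^2 * (1/8 - 1/(2*Real.pi^2)) + C^2 * (1/16 - 1/(2*Real.pi^2)))) := by
  rw [integral_aff _ _ _ hD Th_compact.measurableSet]
  have hap : 0 < |cr U V| := abs_pos.mpr hD
  have hcr2 : (cr U V)^2 = |cr U V| * |cr U V| := by rw [← sq, sq_abs]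
  have h1 : ∀ z : W, en p r k (fderiv ℝ (pieceFun U V A B C) (aff 0 U V z))
      = (Real.pi^2 / (cr U V)^2) *
        ((p * V.1^2 + 2 * k * V.1 * V.2 + r * V.2^2) *
            (A * Real.cos (Real.pi * z.1)
              + C * (Real.cos (Real.pi * z.1) * Real.sin (Real.pi * z.2)))^2
          - (2 * (p * U.1 * V.1 + k * (U.1 * V.2 + U.2 * V.1) + r * U.2 * V.2)) *
            ((A * Real.cos (Real.pi * z.1)
              + C * (Real.cos (Real.pi * z.1) * Real.sin (Real.pi * z.2)))
            * (B * Real.cos (Real.pi * z.2)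
              + C * (Real.sin (Real.pi * z.1) * Real.cos (Real.pi * z.2))))
          + (p * U.1^2 + 2 * k * U.1 * U.2 + r * U.2^2) *
            (B * Real.cos (Real.pi * z.2)
              + C * (Real.sin (Real.pi * z.1) * Real.cos (Real.pi * z.2)))^2) := by
    intro z
    obtain ⟨s, t⟩ := z
    rw [pieceFun_en, cS_aff hD, cT_aff hD]
  simp_rw [h1]
  have f1 : Continuous (fun z : W => (A * Real.cos (Real.pi * z.1)
              + C * (Real.cos (Real.pi * z.1) * Real.sin (Real.pi * z.2)))^2) := by fun_prop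
  have f2 : Continuous (fun z : W => (A * Real.cos (Real.pi * z.1)
              + C * (Real.cos (Real.pi * z.1) * Real.sin (Real.pi * z.2)))
            * (B * Real.cos (Real.pi * z.2)
              + C * (Real.sin (Real.pi * z.1) * Real.cos (Real.pi * z.2)))) := by fun_prop
  have f3 : Continuous (fun z : W => (B * Real.cos (Real.pi * z.2)
              + C * (Real.sin (Real.pi * z.1) * Real.cos (Real.pi * z.2)))^2) := by fun_prop
  have g1 := f1.continuousOn.integrableOn_compact (μ := volume) Th_compact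
  have g2 := f2.continuousOn.integrableOn_compact (μ := volume) Th_compact
  have g3 := f3.continuousOn.integrableOn_compact (μ := volume) Th_compact
  rw [integral_const_mul, lin3 g1 g2 g3, integral_Th f1, integral_Th f2, integral_Th f3,
    JSS, JTT, JST, hcr2]
  field_simp

end Pool.Agent.Lib.MP_03b26c_an
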