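import Mathlib
import Pool.Agent.Lib.MP_03b26c_an.Piece

set_option autoImplicit false

open MeasureTheory Metric ContinuousLinearMap Filter Topology Set
open scoped ContDiff

namespace Pool.Agent.Lib.MP_03b26c_an

/-- the convex hull of the four vertices is covered by the two halves -/
lemma hull_mem {α β : ℝ} (hδ : |α - β| < 2) (hS : |α + β| ≤ 2) {a b c d : ℝ} (ha : 0 ≤ a)
    (hb : 0 ≤ b) (hc : 0 ≤ c) (hd : 0 ≤ d) (h1 : a + b + c + d = 1) :
    a • va α β + b • vb α β + c • vc α β + d • vd α β ∈ Qd α β := by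
  rw [abs_lt] at hδ
  rw [abs_le] at hS
  set Jb := 1 - (α - β)/2 with hJb
  set Jd := 1 + (α - β)/2 with hJd
  set Ja := 1 - (α + β)/2 with hJa
  set Jc := 1 + (α + β)/2 with hJc
  have pb : 0 < Jb := by rw [hJb]; linarith
  have pd : 0 < Jd := by rw [hJd]; linarith
  have pa : 0 ≤ Ja := by rw [hJa]; linarith
  have pc : 0 ≤ Jc := by rw [hJc]; linarith
  -- the dependency
  have hdep : ∀ τ : ℝ, a • va α β + b • vb α β + c • vc α β + d • vd α β
      = (a + τ * Jc) • va α β + (b - τ * Jd) • vb α β + (c + τ * Ja) • vc α β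
        + (d - τ * Jb) • vd α β := by
    intro τ
    ext
    · simp only [va, vb, vc, vd, Prod.fst_add, Prod.smul_fst, smul_eq_mul, hJa, hJb, hJc, hJd]; ring
    · simp only [va, vb, vc, vd, Prod.snd_add, Prod.smul_snd, smul_eq_mul, hJa, hJb, hJc, hJd]; ring
  by_cases hcase : b * Jb ≤ d * Jd
  · right
    rw [hdep (b / Jd), T2, mem_tri]
    have e : b - b / Jd * Jd = 0 := by field_simp; ring
    refine ⟨a + b / Jd * Jc, c + b / Jd * Ja, d - b / Jd * Jb, by positivity, by positivity, ?_,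
      ?_, ?_⟩
    · have : b / Jd * Jb = (b * Jb) / Jd := by ring
      rw [this, sub_nonneg, div_le_iff₀ pd]; exact hcase
    · have : Jc + Ja - Jb = Jd := by rw [hJa, hJb, hJc, hJd]; ring
      have e2 : a + b / Jd * Jc + (c + b / Jd * Ja) + (d - b / Jd * Jb)
          = a + c + d + b / Jd * (Jc + Ja - Jb) := by ring
      rw [e2, this, div_mul_cancel₀ _ pd.ne']; linarith
    · rw [e, zero_smul, add_zero]
  · left
    push Not at hcase
    rw [hdep (d / Jb), T1, mem_tri]
    have e : d - d / Jb * Jb = 0 := by field_simp; ring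
    refine ⟨a + d / Jb * Jc, b - d / Jb * Jd, c + d / Jb * Ja, by positivity, ?_, by positivity,
      ?_, ?_⟩
    · have : d / Jb * Jd = (d * Jd) / Jb := by ring
      rw [this, sub_nonneg, div_le_iff₀ pb]; exact hcase.le
    · have : Jc + Ja - Jd = Jb := by rw [hJa, hJb, hJc, hJd]; ring
      have e2 : a + d / Jb * Jc + (b - d / Jb * Jd) + (c + d / Jb * Ja)
          = a + b + c + d / Jb * (Jc + Ja - Jd) := by ring
      rw [e2, this, div_mul_cancel₀ _ pb.ne']; linarith
    · rw [e, zero_smul, add_zero]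

lemma affTh_eq_tri (U V : W) :
    aff 0 U V '' Th = tri 0 ((1/2 : ℝ) • (U + V)) ((1/2 : ℝ) • (V - U)) := by
  rw [tri_eq_Th]
  congr 1
  congr 1
  · module
  · module

lemma affTh_area {U V : W} (hD : cr U V ≠ 0) :
    (volume (aff 0 U V '' Th)).toReal = |cr U V| / 4 := by
  rw [affTh_eq_tri]
  have e : cr ((1/2 : ℝ) • (U + V) - 0) ((1/2 : ℝ) • (V - U) - 0) = cr U V / 2 := by
    simp only [cr, sub_zero, Prod.smul_fst, Prod.smul_snd, Prod.fst_add, Prod.snd_add,
      Prod.fst_sub, Prod.snd_sub, smul_eq_mul]; ring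
  rw [tri_area (by rw [e]; simpa using hD), e, abs_div]
  norm_num
  ring

/-- the pieces -/
noncomputable def Up (α β : ℝ) : Fin 4 → W :=
  ![(1 + α/2, β/2), (1 - α/2, -β/2), (α/2, 1 + β/2), (-α/2, 1 - β/2)]
noncomputable def Vp : Fin 4 → W := ![(0, 1), (0, -1), (1, 0), (-1, 0)]

noncomputable def Cp (α β : ℝ) (i : Fin 4) : Set W := aff 0 (Up α β i) (Vp i) '' Th

/-- absolute Jacobians -/
noncomputable def Dp (α β : ℝ) : Fin 4 → ℝ := ![1 + α/2, 1 - α/2, 1 + β/2, 1 - β/2]

lemma cr_Up (α β : ℝ) : ∀ i, cr (Up α β i) (Vp i) = (![1, -1, -1, 1] : Fin 4 → ℝ) i * Dp α β i := by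
  intro i
  fin_cases i <;> simp [cr, Up, Vp, Dp]

lemma abs_cr_Up {α β : ℝ} (hα : |α| < 2) (hβ : |β| < 2) (i : Fin 4) :
    |cr (Up α β i) (Vp i)| = Dp α β i ∧ cr (Up α β i) (Vp i) ≠ 0 := by
  rw [abs_lt] at hα hβ
  have hpos : ∀ i, 0 < Dp α β i := by
    intro i
    fin_cases i <;> simp [Dp] <;> linarith
  rw [cr_Up, abs_mul, abs_of_pos (hpos i)]
  constructor
  · fin_cases i <;> simp
  · apply mul_ne_zero _ (hpos i).ne'
    fin_cases i <;> simp

lemma Cp_subset {α β : ℝ} (hδ : |α - β| < 2) (hS : |α + β| ≤ 2) (i : Fin 4) :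
    Cp α β i ⊆ Qd α β := by
  intro x hx
  rw [Cp, affTh_eq_tri, mem_tri] at hx
  obtain ⟨a, b, c, ha, hb, hc, h1, rfl⟩ := hx
  fin_cases i
  · have := hull_mem hδ hS (a := a/4) (b := a/4) (c := a/4 + b) (d := a/4 + c)
      (by positivity) (by positivity) (by positivity) (by positivity) (by linarith)
    convert this using 1
    ext
    · simp [Up, Vp, va, vb, vc, vd]; ring
    · simp [Up, Vp, va, vb, vc, vd]; ring
  · have := hull_mem hδ hS (a := a/4 + c) (b := a/4 + b) (c := a/4) (d := a/4)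
      (by positivity) (by positivity) (by positivity) (by positivity) (by linarith)
    convert this using 1
    ext
    · simp [Up, Vp, va, vb, vc, vd]; ring
    · simp [Up, Vp, va, vb, vc, vd]; ring
  · have := hull_mem hδ hS (a := a/4) (b := a/4 + c) (c := a/4 + b) (d := a/4)
      (by positivity) (by positivity) (by positivity) (by positivity) (by linarith)
    convert this using 1
    ext
    · simp [Up, Vp, va, vb, vc, vd]; ring
    · simp [Up, Vp, va, vb, vc, vd]; ring
  · have := hull_mem hδ hS (a := a/4 + c) (b := a/4) (c := a/4) (d := a/4 + b)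
      (by positivity) (by positivity) (by positivity) (by positivity) (by linarith)
    convert this using 1
    ext
    · simp [Up, Vp, va, vb, vc, vd]; ring
    · simp [Up, Vp, va, vb, vc, vd]; ring

lemma sep_null {C C' : Set W} {a b : ℝ} (h : a ≠ 0 ∨ b ≠ 0)
    (h1 : ∀ z ∈ C, 0 ≤ a * z.1 + b * z.2) (h2 : ∀ z ∈ C', a * z.1 + b * z.2 ≤ 0) :
    AEDisjoint volume C C' := by
  refine measure_mono_null ?_ (null_line (c := 0) h)
  rintro z ⟨hz1, hz2⟩
  simp only [mem_ofPred_eq]
  exact le_antisymm (h2 z hz2) (h1 z hz1)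

lemma mem_Cp {α β : ℝ} {i : Fin 4} {z : W} (hz : z ∈ Cp α β i) :
    ∃ s t : ℝ, -t ≤ s ∧ s ≤ t ∧ t ≤ 1/2 ∧ z = (s * (Up α β i).1 + t * (Vp i).1,
      s * (Up α β i).2 + t * (Vp i).2) := by
  obtain ⟨⟨s, t⟩, ⟨⟨h1, h2⟩, ⟨h3, h4⟩⟩, rfl⟩ := hz
  refine ⟨s, t, h3, h4, h2, ?_⟩
  rw [aff_apply]
  simp

lemma Cp_disj {α β : ℝ} (hα : |α| < 2) (hβ : |β| < 2) :
    Pairwise (Function.onFun (AEDisjoint volume) (Cp α β)) := by
  rw [abs_lt] at hα hβ
  -- six separations
  have s01 : AEDisjoint volume (Cp α β 0) (Cp α β 1) := by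
    apply sep_null (a := 0) (b := 1) (Or.inr one_ne_zero)
    · intro z hz
      obtain ⟨s, t, h1, h2, h3, rfl⟩ := mem_Cp hz
      simp [Up, Vp]
      nlinarith
    · intro z hz
      obtain ⟨s, t, h1, h2, h3, rfl⟩ := mem_Cp hz
      simp [Up, Vp]
      nlinarith
  have s23 : AEDisjoint volume (Cp α β 2) (Cp α β 3) := by
    apply sep_null (a := 1) (b := 0) (Or.inl one_ne_zero)
    · intro z hz
      obtain ⟨s, t, h1, h2, h3, rfl⟩ := mem_Cp hz
      simp [Up, Vp]
      nlinarith
    · intro z hz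
      obtain ⟨s, t, h1, h2, h3, rfl⟩ := mem_Cp hz
      simp [Up, Vp]
      nlinarith
  -- top / right : line through vc ; cr vc z = (1/2+α/4) z.2 - (1/2+β/4) z.1
  have s02 : AEDisjoint volume (Cp α β 0) (Cp α β 2) := by
    apply sep_null (a := -(2+β)) (b := 2+α) (Or.inr (by linarith))
    · intro z hz
      obtain ⟨s, t, h1, h2, h3, rfl⟩ := mem_Cp hz
      simp [Up, Vp]
      have : 0 ≤ (t - s) * (2 + α) := mul_nonneg (by linarith) (by linarith)
      linarith
    · intro z hz
      obtain ⟨s, t, h1, h2, h3, rfl⟩ := mem_Cp hz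
      simp [Up, Vp]
      have : 0 ≤ (t - s) * (2 + β) := mul_nonneg (by linarith) (by linarith)
      linarith
  -- top / left : line through vd
  have s03 : AEDisjoint volume (Cp α β 0) (Cp α β 3) := by
    apply sep_null (a := 2-β) (b := 2+α) (Or.inr (by linarith))
    · intro z hz
      obtain ⟨s, t, h1, h2, h3, rfl⟩ := mem_Cp hz
      simp [Up, Vp]
      have : 0 ≤ (t + s) * (2 + α) := mul_nonneg (by linarith) (by linarith)
      linarith
    · intro z hz
      obtain ⟨s, t, h1, h2, h3, rfl⟩ := mem_Cp hz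
      simp [Up, Vp]
      have : 0 ≤ (t - s) * (2 - β) := mul_nonneg (by linarith) (by linarith)
      linarith
  -- right / bottom : line through vb
  have s21 : AEDisjoint volume (Cp α β 2) (Cp α β 1) := by
    apply sep_null (a := 2+β) (b := 2-α) (Or.inr (by linarith))
    · intro z hz
      obtain ⟨s, t, h1, h2, h3, rfl⟩ := mem_Cp hz
      simp [Up, Vp]
      have : 0 ≤ (t + s) * (2 + β) := mul_nonneg (by linarith) (by linarith)
      linarith
    · intro z hz
      obtain ⟨s, t, h1, h2, h3, rfl⟩ := mem_Cp hz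
      simp [Up, Vp]
      have : 0 ≤ (t - s) * (2 - α) := mul_nonneg (by linarith) (by linarith)
      linarith
  -- left / bottom : line through va
  have s31 : AEDisjoint volume (Cp α β 3) (Cp α β 1) := by
    apply sep_null (a := -(2-β)) (b := 2-α) (Or.inr (by linarith))
    · intro z hz
      obtain ⟨s, t, h1, h2, h3, rfl⟩ := mem_Cp hz
      simp [Up, Vp]
      have : 0 ≤ (t + s) * (2 - β) := mul_nonneg (by linarith) (by linarith)
      linarith
    · intro z hz
      obtain ⟨s, t, h1, h2, h3, rfl⟩ := mem_Cp hz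
      simp [Up, Vp]
      have : 0 ≤ (t + s) * (2 - α) := mul_nonneg (by linarith) (by linarith)
      linarith
  intro i j hij
  fin_cases i <;> fin_cases j
  · exact absurd rfl hij
  · exact s01
  · exact s02
  · exact s03
  · exact s01.symm
  · exact absurd rfl hij
  · exact s21.symm
  · exact s31.symm
  · exact s02.symm
  · exact s21
  · exact absurd rfl hij
  · exact s23
  · exact s03.symm
  · exact s31
  · exact s23.symm
  · exact absurd rfl hij

lemma Cp_compact (α β : ℝ) (i : Fin 4) : IsCompact (Cp α β i) :=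
  Th_compact.image (aff_continuous _ _ _)

lemma Cp_convex (α β : ℝ) (i : Fin 4) : Convex ℝ (Cp α β i) := by
  rw [Cp, affTh_eq_tri]
  exact tri_convex _ _ _

lemma Qd_ae {α β : ℝ} (hα : |α| < 2) (hβ : |β| < 2) (hδ : |α - β| < 2) (hS : |α + β| ≤ 2) :
    Qd α β =ᵐ[volume] ⋃ i, Cp α β i := by
  symm
  apply ae_eq_of_subset_of_measure_ge
  · exact iUnion_subset (fun i => Cp_subset hδ hS i)
  · have h1 : volume (⋃ i, Cp α β i) = ∑ i, volume (Cp α β i) := by
      rw [measure_iUnion₀ (Cp_disj hα hβ)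
        (fun i => (Cp_compact α β i).measurableSet.nullMeasurableSet), tsum_fintype]
    have hf : ∀ i, volume (Cp α β i) ≠ ⊤ := fun i => (Cp_compact α β i).measure_lt_top.ne
    have h2 : (volume (⋃ i, Cp α β i)).toReal = 1 := by
      rw [h1, ENNReal.toReal_sum (fun i _ => hf i)]
      have : ∀ i, (volume (Cp α β i)).toReal = Dp α β i / 4 := by
        intro i
        rw [Cp, affTh_area (abs_cr_Up hα hβ i).2, (abs_cr_Up hα hβ i).1]
      simp only [this, Fin.sum_univ_four]
      simp [Dp]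
      ring
    have h3 : volume (⋃ i, Cp α β i) ≠ ⊤ := by
      rw [h1]; exact ENNReal.sum_ne_top.mpr (fun i _ => hf i)
    rw [← ENNReal.toReal_le_toReal (Qd_compact α β).measure_lt_top.ne h3, h2, area_Qd hδ]
  · exact (MeasurableSet.iUnion (fun i => (Cp_compact α β i).measurableSet)).nullMeasurableSet
  · exact (Qd_compact α β).measure_lt_top.ne

/-- the kink function -/
noncomputable def hk (α β : ℝ) (z : W) : ℝ :=
  max (min (z.1 / (2 + α)) (z.2 / (2 + β))) (min (-z.1 / (2 - α)) (-z.2 / (2 - β)))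

/-- the global trial function -/
noncomputable def trigFun (α β A B C : ℝ) (z : W) : ℝ :=
  trial A B C (z.1 - α * hk α β z) (z.2 - β * hk α β z)

lemma hk_lip (α β : ℝ) : LocallyLipschitz (hk α β) := by
  have l1 : LocallyLipschitz (fun z : W => z.1 / (2 + α)) := by
    have : ContDiff ℝ 1 (fun z : W => z.1 / (2 + α)) := by fun_prop
    exact this.locallyLipschitz
  have l2 : LocallyLipschitz (fun z : W => z.2 / (2 + β)) := by
    have : ContDiff ℝ 1 (fun z : W => z.2 / (2 + β)) := by fun_prop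
    exact this.locallyLipschitz
  have l3 : LocallyLipschitz (fun z : W => -z.1 / (2 - α)) := by
    have : ContDiff ℝ 1 (fun z : W => -z.1 / (2 - α)) := by fun_prop
    exact this.locallyLipschitz
  have l4 : LocallyLipschitz (fun z : W => -z.2 / (2 - β)) := by
    have : ContDiff ℝ 1 (fun z : W => -z.2 / (2 - β)) := by fun_prop
    exact this.locallyLipschitz
  exact (l1.min l2).max (l3.min l4)

/-- auxiliary function of three variables -/
noncomputable def trialAux (α β A B C : ℝ) (w : W × ℝ) : ℝ :=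
  trial A B C (w.1.1 - α * w.2) (w.1.2 - β * w.2)

lemma trialAux_contDiff (α β A B C : ℝ) : ContDiff ℝ 1 (trialAux α β A B C) := by
  unfold trialAux trial; fun_prop

lemma pair_lip (α β : ℝ) : LocallyLipschitz (fun z : W => (z, hk α β z)) :=
  LocallyLipschitz.id.prodMk (hk_lip α β)

lemma trigFun_lip (α β A B C : ℝ) : LocallyLipschitz (trigFun α β A B C) := by
  have h1 : LocallyLipschitz (trialAux α β A B C) := (trialAux_contDiff α β A B C).locallyLipschitz
  have e : trigFun α β A B C = (trialAux α β A B C) ∘ (fun z : W => (z, hk α β z)) := by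
    funext z
    simp only [trigFun, trialAux, Function.comp_apply]
  rw [e]
  exact LocallyLipschitz.comp h1 (pair_lip α β)

end Pool.Agent.Lib.MP_03b26c_an
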