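import Mathlib
import Pool.Agent.Lib.MP_03b26c_an.Trig

set_option autoImplicit false

open MeasureTheory Metric ContinuousLinearMap Filter Topology Set
open scoped ContDiff

namespace Pool.Agent.Lib.MP_03b26c_an

/-- coefficients on the pieces -/
noncomputable def Ac (A B : ℝ) : Fin 4 → ℝ := ![A, A, B, B]
noncomputable def Bc (A B : ℝ) : Fin 4 → ℝ := ![B, -B, A, -A]
noncomputable def Cc (C : ℝ) : Fin 4 → ℝ := ![C, -C, C, -C]

lemma trigFun_piece {α β : ℝ} (hα : |α| < 2) (hβ : |β| < 2) (A B C : ℝ) (i : Fin 4) (z : W)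
    (hz : z ∈ Cp α β i) :
    trigFun α β A B C z = pieceFun (Up α β i) (Vp i) (Ac A B i) (Bc A B i) (Cc C i) z := by
  have hz' := hz
  obtain ⟨s, t, h1, h2, h3, hzst⟩ := mem_Cp hz
  have hcr := (abs_cr_Up hα hβ i).2
  have hzaff : z = aff 0 (Up α β i) (Vp i) (s, t) := by
    rw [hzst, aff_apply]; simp
  have hrhs : pieceFun (Up α β i) (Vp i) (Ac A B i) (Bc A B i) (Cc C i) z
      = trial (Ac A B i) (Bc A B i) (Cc C i) s t := by
    rw [hzaff, pieceFun, cS_aff hcr, cT_aff hcr]
  rw [hrhs]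
  rw [abs_lt] at hα hβ
  have a1 : 0 < 2 + α := by linarith
  have a2 : 0 < 2 - α := by linarith
  have b1 : 0 < 2 + β := by linarith
  have b2 : 0 < 2 - β := by linarith
  fin_cases i
  · have e : z = (s * (1 + α/2), s * (β/2) + t) := by
      rw [hzst]; simp [Up, Vp]
    have hh : hk α β z = s / 2 := by
      rw [e]; unfold hk
      simp only
      have e1 : s * (1 + α/2) / (2 + α) = s / 2 := by field_simp
      have e2 : s / 2 ≤ (s * (β/2) + t) / (2 + β) := by
        rw [le_div_iff₀ b1]; linarith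
      have e3 : -(s * (β/2) + t) / (2 - β) ≤ s / 2 := by
        rw [div_le_iff₀ b2]; linarith
      rw [e1, min_eq_left e2]
      exact max_eq_left (le_trans (min_le_right _ _) e3)
    unfold trigFun
    rw [hh, e]
    simp only [Ac, Bc, Cc, trial, Fin.zero_eta, Matrix.cons_val_zero]
    congr 3 <;> ring_nf
  · have e : z = (s * (1 - α/2), -(s * (β/2)) - t) := by
      rw [hzst]; simp [Up, Vp]; ring
    have hh : hk α β z = -s / 2 := by
      rw [e]; unfold hk
      simp only
      have e1 : -(s * (1 - α/2)) / (2 - α) = -s / 2 := by field_simp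
      have e2 : -s / 2 ≤ -(-(s * (β/2)) - t) / (2 - β) := by
        rw [le_div_iff₀ b2]; linarith
      have e3 : (-(s * (β/2)) - t) / (2 + β) ≤ -s / 2 := by
        rw [div_le_iff₀ b1]; linarith
      rw [e1, min_eq_left e2]
      exact max_eq_right (le_trans (min_le_right _ _) e3)
    unfold trigFun
    rw [hh, e]
    have t1 : (s * (1 - α/2), -(s * (β/2)) - t).1 - α * (-s / 2) = s := by simp only; ring
    have t2 : (s * (1 - α/2), -(s * (β/2)) - t).2 - β * (-s / 2) = -t := by simp only; ring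
    rw [t1, t2]
    simp [Ac, Bc, Cc, trial]
  · have e : z = (s * (α/2) + t, s * (1 + β/2)) := by
      rw [hzst]; simp [Up, Vp]
    have hh : hk α β z = s / 2 := by
      rw [e]; unfold hk
      simp only
      have e1 : s * (1 + β/2) / (2 + β) = s / 2 := by field_simp
      have e2 : s / 2 ≤ (s * (α/2) + t) / (2 + α) := by
        rw [le_div_iff₀ a1]; linarith
      have e3 : -(s * (α/2) + t) / (2 - α) ≤ s / 2 := by
        rw [div_le_iff₀ a2]; linarith
      rw [e1, min_eq_right e2]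
      exact max_eq_left (le_trans (min_le_left _ _) e3)
    unfold trigFun
    rw [hh, e]
    have t1 : (s * (α/2) + t, s * (1 + β/2)).1 - α * (s / 2) = t := by simp only; ring
    have t2 : (s * (α/2) + t, s * (1 + β/2)).2 - β * (s / 2) = s := by simp only; ring
    rw [t1, t2]
    simp [Ac, Bc, Cc, trial]
    ring
  · have e : z = (-(s * (α/2)) - t, s * (1 - β/2)) := by
      rw [hzst]; simp [Up, Vp]; ring
    have hh : hk α β z = -s / 2 := by
      rw [e]; unfold hk
      simp only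
      have e1 : -(s * (1 - β/2)) / (2 - β) = -s / 2 := by field_simp
      have e2 : -s / 2 ≤ -(-(s * (α/2)) - t) / (2 - α) := by
        rw [le_div_iff₀ a2]; linarith
      have e3 : (-(s * (α/2)) - t) / (2 + α) ≤ -s / 2 := by
        rw [div_le_iff₀ a1]; linarith
      rw [e1, min_eq_right e2]
      exact max_eq_right (le_trans (min_le_left _ _) e3)
    unfold trigFun
    rw [hh, e]
    have t1 : (-(s * (α/2)) - t, s * (1 - β/2)).1 - α * (-s / 2) = -t := by simp only; ring
    have t2 : (-(s * (α/2)) - t, s * (1 - β/2)).2 - β * (-s / 2) = s := by simp only; ring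
    rw [t1, t2]
    simp [Ac, Bc, Cc, trial]
    ring

/-- the trigonometric trial functions -/
theorem trig_ineq {α β Λ p r k : ℝ} (hα : |α| < 2) (hβ : |β| < 2) (hδ : |α - β| < 2)
    (hS : |α + β| ≤ 2) (h : PW (Qd α β) Λ p r k) (v1 v2 v3 P R : ℝ)
    (hP : p = P * (1 - β^2/4)) (hR : r = R * (1 - α^2/4)) :
    Λ * (1/2 * (v1^2 + v2^2) + 1/4 * v3^2 + 4 * α / (3 * Real.pi^2) * (v1 * v3)
        + 4 * β / (3 * Real.pi^2) * (v2 * v3) - 4 / Real.pi^4 * (β * v1 + α * v2)^2)
      ≤ (Real.pi^2/2 * R + (Real.pi^2/4 - 1) * (α^2/4) * (P - R)) * v1^2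
        + (Real.pi^2/2 * P + (Real.pi^2/4 - 1) * (β^2/4) * (R - P)) * v2^2
        + (Real.pi^2/4 * (R + P) + (Real.pi^2/8 - 1) * (α^2/4 - β^2/4) * (P - R)) * v3^2
        + 2 * (-4 * k + α * β / 2 * (R + P)) * (v1 * v2)
        - 4/3 * α * (2 * R + P) * (v1 * v3) - 4/3 * β * (2 * P + R) * (v2 * v3) := by
  have key := h.pieces' (Qd_compact α β) (Cp α β) (Cp_convex α β) (Cp_compact α β)
    (Cp_disj hα hβ) (Qd_ae hα hβ hδ hS) (trigFun_lip α β v1 v2 v3)
    (fun i => pieceFun (Up α β i) (Vp i) (Ac v1 v2 i) (Bc v1 v2 i) (Cc v3 i))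
    (fun i => pieceFun_contDiff _ _ _ _ _)
    (fun i x hx => trigFun_piece hα hβ v1 v2 v3 i x hx)
  have hc := fun i => (abs_cr_Up hα hβ i).2
  have hD := fun i => (abs_cr_Up hα hβ i).1
  have m1 := fun i => piece_mean (hc i) (Ac v1 v2 i) (Bc v1 v2 i) (Cc v3 i)
  have m2 := fun i => piece_sq (hc i) (Ac v1 v2 i) (Bc v1 v2 i) (Cc v3 i)
  have m3 := fun i => piece_en (hc i) (Ac v1 v2 i) (Bc v1 v2 i) (Cc v3 i) p r k
  simp only [Cp] at key
  simp only [m1, m2, m3, area_Qd hδ, one_mul, mul_one, Fin.sum_univ_four, hD] at key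
  rw [abs_lt] at hα hβ
  have a1 : (1 + α/2) ≠ 0 := by linarith
  have a2 : (1 - α/2) ≠ 0 := by linarith
  have b1 : (1 + β/2) ≠ 0 := by linarith
  have b2 : (1 - β/2) ≠ 0 := by linarith
  have hpi : Real.pi ≠ 0 := Real.pi_ne_zero
  simp only [Up, Vp, Dp, Ac, Bc, Cc, Matrix.cons_val_zero, Matrix.cons_val_one, Matrix.cons_val] at key
  have hp2 : Real.pi ^ 2 ≠ 0 := by positivity
  generalize hpp : Real.pi ^ 2 = q at *
  have hpi4 : Real.pi ^ 4 = q ^ 2 := by rw [← hpp]; ring
  rw [hpi4]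
  rw [hP, hR] at key
  refine le_of_eq_of_le ?_ (le_of_le_of_eq key ?_)
  · field_simp
    ring
  · have a1' : (2 + α) ≠ 0 := by linarith
    have a2' : (2 - α) ≠ 0 := by linarith
    have b1' : (2 + β) ≠ 0 := by linarith
    have b2' : (2 - β) ≠ 0 := by linarith
    field_simp
    ring

end Pool.Agent.Lib.MP_03b26c_an
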