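import Mathlib
import Pool.Agent.Lib.MP_03b26c_an.Alg1
import Pool.Agent.Lib.MP_03b26c_an.Alg4
import Pool.Agent.Lib.MP_03b26c_an.Radial
import Pool.Agent.Lib.MP_03b26c_an.TrigIneq

set_option autoImplicit false

open MeasureTheory Metric ContinuousLinearMap Filter Topology Set
open scoped ContDiff

namespace Pool.Agent.Lib.MP_03b26c_an

/-- inverse of the affine parametrization -/
noncomputable def affInv (P U V : W) (y : W) : W :=
  (((y.1 - P.1) * V.2 - (y.2 - P.2) * V.1) / cr U V,
   (U.1 * (y.2 - P.2) - U.2 * (y.1 - P.1)) / cr U V)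

lemma affInv_aff {P U V : W} (hD : cr U V ≠ 0) (z : W) : affInv P U V (aff P U V z) = z := by
  unfold affInv
  rw [aff_fst, aff_snd]
  ext
  · simp only
    rw [div_eq_iff hD]
    unfold cr
    ring
  · simp only
    rw [div_eq_iff hD]
    unfold cr
    ring

lemma affInv_contDiff (P U V : W) : ContDiff ℝ ∞ (affInv P U V) := by
  unfold affInv
  fun_prop

lemma volume_aff {P U V : W} (hD : cr U V ≠ 0) {Q : Set W} (hQ : MeasurableSet Q) :
    (volume (aff P U V '' Q)).toReal = |cr U V| * (volume Q).toReal := by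
  have h := integral_aff P U V hD hQ (fun _ => (1:ℝ))
  simpa [Measure.real] using h

/-- affine change of variables in the Poincaré inequality -/
theorem PW.aff {P U V : W} (hD : cr U V ≠ 0) {Q : Set W} (hQ : MeasurableSet Q)
    {Λ p r k p' r' k' : ℝ} (h : PW (aff P U V '' Q) Λ p r k)
    (hen : ∀ L : W →L[ℝ] ℝ, en p' r' k' (L.comp (lin2 U V)) = |cr U V| * en p r k L) :
    PW Q (Λ * |cr U V|) p' r' k' := by
  intro F hF
  have hA : 0 < |cr U V| := abs_pos.mpr hD
  set g : W → ℝ := fun y => F (affInv P U V y) with hg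
  have hgs : ContDiff ℝ ∞ g := hF.comp (affInv_contDiff P U V)
  have hgF : ∀ z, g (MP_03b26c_an.aff P U V z) = F z := by
    intro z
    simp only [hg]
    rw [affInv_aff hD]
  have hder : ∀ z, en p' r' k' (fderiv ℝ F z)
      = |cr U V| * en p r k (fderiv ℝ g (MP_03b26c_an.aff P U V z)) := by
    intro z
    rw [← hen]
    congr 1
    have h1 : F = fun z => g (MP_03b26c_an.aff P U V z) := by
      funext z; exact (hgF z).symm
    have h2 : HasFDerivAt (fun z => g (MP_03b26c_an.aff P U V z))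
        ((fderiv ℝ g (MP_03b26c_an.aff P U V z)).comp (lin2 U V)) z := by
      have a1 : HasFDerivAt (MP_03b26c_an.aff P U V) (lin2 U V) z := by
        rw [aff_eq]
        exact (lin2 U V).hasFDerivAt.const_add _
      have a2 : HasFDerivAt g (fderiv ℝ g (MP_03b26c_an.aff P U V z)) (MP_03b26c_an.aff P U V z) :=
        (hgs.differentiable (by simp)).differentiableAt.hasFDerivAt
      exact a2.comp z a1
    conv_lhs => rw [h1]
    exact h2.fderiv
  have key := h g hgs
  rw [integral_aff P U V hD hQ, integral_aff P U V hD hQ, integral_aff P U V hD hQ,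
    volume_aff hD hQ] at key
  simp only [hgF] at key
  have e : ∫ z in Q, en p' r' k' (fderiv ℝ F z)
      = |cr U V| * ∫ z in Q, en p r k (fderiv ℝ g (MP_03b26c_an.aff P U V z)) := by
    rw [← integral_const_mul]
    congr 1
    funext z
    exact hder z
  rw [e]
  have key2 : |cr U V| * (Λ * |cr U V| * ((∫ x in Q, F x ^ 2) * (volume Q).toReal
      - (∫ x in Q, F x) ^ 2))
      ≤ |cr U V| * ((volume Q).toReal * (|cr U V| * ∫ z in Q, en p r k (fderiv ℝ g (MP_03b26c_an.aff P U V z)))) := by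
    refine le_of_eq_of_le ?_ (le_of_le_of_eq key ?_)
    · ring
    · ring
  exact le_of_mul_le_mul_left key2 hA

lemma aff_tri (P U V X Y Z : W) :
    MP_03b26c_an.aff P U V '' tri X Y Z
      = tri (MP_03b26c_an.aff P U V X) (MP_03b26c_an.aff P U V Y) (MP_03b26c_an.aff P U V Z) := by
  have hcomb : ∀ a b c : ℝ, a + b + c = 1 → MP_03b26c_an.aff P U V (a • X + b • Y + c • Z)
      = a • MP_03b26c_an.aff P U V X + b • MP_03b26c_an.aff P U V Y
        + c • MP_03b26c_an.aff P U V Z := by
    intro a b c h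
    have : a = 1 - b - c := by linarith
    subst this
    ext
    · simp only [aff_fst, Prod.fst_add, Prod.smul_fst, Prod.snd_add, Prod.smul_snd, smul_eq_mul]
      ring
    · simp only [aff_snd, Prod.fst_add, Prod.smul_fst, Prod.snd_add, Prod.smul_snd, smul_eq_mul]
      ring
  ext x
  constructor
  · rintro ⟨y, hy, rfl⟩
    rw [mem_tri] at hy ⊢
    obtain ⟨a, b, c, ha, hb, hc, h1, rfl⟩ := hy
    exact ⟨a, b, c, ha, hb, hc, h1, hcomb a b c h1⟩
  · intro hx
    rw [mem_tri] at hx
    obtain ⟨a, b, c, ha, hb, hc, h1, rfl⟩ := hx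
    refine ⟨a • X + b • Y + c • Z, ?_, hcomb a b c h1⟩
    rw [mem_tri]
    exact ⟨a, b, c, ha, hb, hc, h1, rfl⟩

/-- rotation by 180 degrees -/
lemma Qd_neg (α β : ℝ) :
    MP_03b26c_an.aff 0 (-1, 0) (0, -1) '' Qd (-α) (-β) = Qd α β := by
  have ea : MP_03b26c_an.aff 0 (-1, 0) (0, -1) (va (-α) (-β)) = vc α β := by
    ext
    · rw [aff_fst]; simp [va, vc]; ring
    · rw [aff_snd]; simp [va, vc]; ring
  have eb : MP_03b26c_an.aff 0 (-1, 0) (0, -1) (vb (-α) (-β)) = vd α β := by
    ext
    · rw [aff_fst]; simp [vb, vd]; ring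
    · rw [aff_snd]; simp [vb, vd]; ring
  have ec : MP_03b26c_an.aff 0 (-1, 0) (0, -1) (vc (-α) (-β)) = va α β := by
    ext
    · rw [aff_fst]; simp [va, vc]; ring
    · rw [aff_snd]; simp [va, vc]; ring
  have ed : MP_03b26c_an.aff 0 (-1, 0) (0, -1) (vd (-α) (-β)) = vb α β := by
    ext
    · rw [aff_fst]; simp [vb, vd]; ring
    · rw [aff_snd]; simp [vb, vd]; ring
  unfold Qd T1 T2
  rw [image_union, aff_tri, aff_tri, ea, eb, ec, ed, union_comm]
  congr 1
  · unfold tri
    congr 1
    ext x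
    simp only [mem_insert_iff, mem_singleton_iff]
    tauto
  · unfold tri
    congr 1
    ext x
    simp only [mem_insert_iff, mem_singleton_iff]
    tauto

theorem PW.neg {α β Λ p r k : ℝ} (h : PW (Qd α β) Λ p r k) : PW (Qd (-α) (-β)) Λ p r k := by
  have hc : cr ((-1, 0) : W) (0, -1) = 1 := by simp [cr]
  have h2 : PW (Qd (-α) (-β)) (Λ * |cr ((-1, 0) : W) (0, -1)|) p r k := by
    refine PW.aff (P := 0) (p := p) (r := r) (k := k) (by rw [hc]; exact one_ne_zero)
      (Qd_compact _ _).measurableSet ?_ ?_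
    · rw [Qd_neg]; exact h
    · intro L
      rw [hc, abs_one, one_mul]
      have e1 : (L.comp (lin2 ((-1, 0) : W) (0, -1))) (1, 0) = - L (1, 0) := by
        rw [ContinuousLinearMap.comp_apply, lin2_apply, ← map_neg]
        simp
      have e2 : (L.comp (lin2 ((-1, 0) : W) (0, -1))) (0, 1) = - L (0, 1) := by
        rw [ContinuousLinearMap.comp_apply, lin2_apply, ← map_neg]
        simp
      unfold en
      rw [e1, e2]
      ring
  rwa [hc, abs_one, mul_one] at h2

/-- rotation by 90 degrees exchanges the roles of the two diagonals -/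
lemma Qd_rot {α β : ℝ} (hδ : |α - β| < 2) (hS : |α + β| < 2) :
    MP_03b26c_an.aff 0 (0, 1) (-1, 0) '' Qd (-β) α = Qd α β := by
  have ea : MP_03b26c_an.aff 0 (0, 1) (-1, 0) (va (-β) α) = vb α β := by
    ext
    · rw [aff_fst]; simp [va, vb]; ring
    · rw [aff_snd]; simp [va, vb]; ring
  have eb : MP_03b26c_an.aff 0 (0, 1) (-1, 0) (vb (-β) α) = vc α β := by
    ext
    · rw [aff_fst]; simp [vb, vc]; ring
    · rw [aff_snd]; simp [vb, vc]; ring
  have ec : MP_03b26c_an.aff 0 (0, 1) (-1, 0) (vc (-β) α) = vd α β := by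
    ext
    · rw [aff_fst]; simp [vd, vc]; ring
    · rw [aff_snd]; simp [vd, vc]; ring
  have ed : MP_03b26c_an.aff 0 (0, 1) (-1, 0) (vd (-β) α) = va α β := by
    ext
    · rw [aff_fst]; simp [va, vd]; ring
    · rw [aff_snd]; simp [va, vd]; ring
  have hδ' : |(-β) - α| < 2 := by
    have : (-β) - α = -(α + β) := by ring
    rw [this, abs_neg]; exact hS
  have hS' : |(-β) + α| ≤ 2 := by
    have : (-β) + α = α - β := by ring
    rw [this]; exact hδ.le
  have hcomb : ∀ a b c d : ℝ, MP_03b26c_an.aff 0 (0, 1) (-1, 0)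
      (a • va (-β) α + b • vb (-β) α + c • vc (-β) α + d • vd (-β) α)
      = d • va α β + a • vb α β + b • vc α β + c • vd α β := by
    intro a b c d
    rw [← ea, ← eb, ← ec, ← ed]
    ext
    · simp only [aff_fst, Prod.fst_add, Prod.smul_fst, Prod.snd_add, Prod.smul_snd, smul_eq_mul,
        Prod.fst_zero]
      ring
    · simp only [aff_snd, Prod.fst_add, Prod.smul_fst, Prod.snd_add, Prod.smul_snd, smul_eq_mul,
        Prod.snd_zero]
      ring
  ext x
  constructor
  · rintro ⟨y, hy, rfl⟩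
    rcases hy with hy | hy
    · rw [T1, mem_tri] at hy
      obtain ⟨a, b, c, ha, hb, hc, h1, rfl⟩ := hy
      have h2 := hcomb a b c 0
      rw [zero_smul, add_zero] at h2
      rw [h2]
      exact hull_mem hδ hS.le le_rfl ha hb hc (by linarith)
    · rw [T2, mem_tri] at hy
      obtain ⟨a, c, d, ha, hc, hd, h1, rfl⟩ := hy
      have h2 := hcomb a 0 c d
      rw [zero_smul, zero_smul, add_zero, add_zero] at h2
      rw [h2]
      have h3 := hull_mem hδ hS.le hd ha le_rfl hc (by linarith)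
      rwa [zero_smul, add_zero] at h3
  · intro hx
    rcases hx with hx | hx
    · rw [T1, mem_tri] at hx
      obtain ⟨a, b, c, ha, hb, hc, h1, rfl⟩ := hx
      refine ⟨_, hull_mem hδ' hS' hb hc le_rfl ha (by linarith), ?_⟩
      rw [hcomb]
      rw [zero_smul, add_zero]
    · rw [T2, mem_tri] at hx
      obtain ⟨a, c, d, ha, hc, hd, h1, rfl⟩ := hx
      refine ⟨_, hull_mem hδ' hS' le_rfl hc hd ha (by linarith), ?_⟩
      rw [hcomb]
      rw [zero_smul, add_zero]

theorem PW.rot {α β Λ p r k : ℝ} (hδ : |α - β| < 2) (hS : |α + β| < 2)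
    (h : PW (Qd α β) Λ p r k) : PW (Qd (-β) α) Λ r p (-k) := by
  have hc : cr ((0, 1) : W) (-1, 0) = 1 := by simp [cr]
  have h2 : PW (Qd (-β) α) (Λ * |cr ((0, 1) : W) (-1, 0)|) r p (-k) := by
    refine PW.aff (P := 0) (p := p) (r := r) (k := k) (by rw [hc]; exact one_ne_zero)
      (Qd_compact _ _).measurableSet ?_ ?_
    · rw [Qd_rot hδ hS]; exact h
    · intro L
      rw [hc, abs_one, one_mul]
      have e1 : (L.comp (lin2 ((0, 1) : W) (-1, 0))) (1, 0) = L (0, 1) := by
        rw [ContinuousLinearMap.comp_apply, lin2_apply]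
        simp
      have e2 : (L.comp (lin2 ((0, 1) : W) (-1, 0))) (0, 1) = - L (1, 0) := by
        rw [ContinuousLinearMap.comp_apply, lin2_apply, ← map_neg]
        simp
      unfold en
      rw [e1, e2]
      ring
  rwa [hc, abs_one, mul_one] at h2

lemma norm_case1 {α β Λ p r k : ℝ} (hδ : |α - β| < 2) (hS : 3/2 ≤ α + β)
    (h : PW (Qd α β) Λ p r k) (hdet : p * r - k^2 = 1) (hp : 0 < p) (hr : 0 < r) :
    Λ ≤ Real.pi^2 := by
  by_contra hΛ
  push Not at hΛ
  have hΛ' : 9.8696 < Λ := by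
    have h1 := Real.pi_gt_d6
    have h3 : (3.141592:ℝ)^2 < Real.pi^2 := by gcongr
    norm_num at h3 ⊢
    linarith
  exact part1 hδ hS hdet hp hr hΛ' (lin_ineq hδ h) (cubic_ineq hδ h _ rfl)
    (radial_ineq hδ h _ rfl)

/-- the normalized theorem -/
theorem norm_main {α β Λ p r k : ℝ} (hδ : |α - β| < 2)
    (h : PW (Qd α β) Λ p r k) (hdet : p * r - k^2 = 1) (hp : 0 < p) (hr : 0 < r) :
    Λ ≤ Real.pi^2 := by
  rcases le_or_gt (3/2) (α + β) with h1 | h1
  · exact norm_case1 hδ h1 h hdet hp hr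
  rcases le_or_gt (α + β) (-(3/2)) with h2 | h2
  · refine norm_case1 (α := -α) (β := -β) ?_ (by linarith) h.neg hdet hp hr
    have : (-α) - (-β) = -(α - β) := by ring
    rw [this, abs_neg]; exact hδ
  have hS : |α + β| < 3/2 := by rw [abs_lt]; constructor <;> linarith
  rcases le_or_gt (3/2) (α - β) with h3 | h3
  · have h4 := h.rot hδ (by linarith)
    refine norm_case1 (α := -β) (β := α) ?_ (by linarith) h4 ?_ hr hp
    · have : (-β) - α = -(α + β) := by ring
      rw [this, abs_neg]; linarith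
    · rw [mul_comm, neg_sq]; exact hdet
  rcases le_or_gt (α - β) (-(3/2)) with h4 | h4
  · have h5 := (h.rot hδ (by linarith)).neg
    refine norm_case1 (α := -(-β)) (β := -α) ?_ (by linarith) h5 ?_ hr hp
    · have : (-(-β)) - (-α) = (α + β) := by ring
      rw [this]; linarith
    · rw [mul_comm, neg_sq]; exact hdet
  have hαβ : |α| + |β| ≤ 3/2 := by
    rcases abs_cases α with ⟨e1, _⟩ | ⟨e1, _⟩ <;> rcases abs_cases β with ⟨e2, _⟩ | ⟨e2, _⟩ <;>
      rw [e1, e2] <;> linarith
  by_contra hΛ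
  push Not at hΛ
  have hα0 := abs_nonneg α
  have hβ0 := abs_nonneg β
  exact part23 hαβ hdet hp hr hΛ (lin_ineq hδ h)
    (trig_ineq (by linarith) (by linarith) hδ (by linarith) h)

end Pool.Agent.Lib.MP_03b26c_an
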