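import Mathlib

set_option autoImplicit false

/-! Simple closed quadrilaterals, the Sobolev space and the first Neumann eigenvalue. -/

open MeasureTheory
open scoped ContDiff

namespace Pool.Agent.Lib.MP_03b26c_an.Own

/-- The Euclidean plane. -/
abbrev E2 : Type := EuclideanSpace ℝ (Fin 2)

/-- The closed polygon with the four vertices `a, b, c, d` (in this order). -/
def polygon (a b c d : E2) : Set E2 :=
  segment ℝ a b ∪ segment ℝ b c ∪ segment ℝ c d ∪ segment ℝ d a

/-- The closed polygon `a, b, c, d` is simple: two neighbouring sides have only their common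
vertex in common, two opposite sides do not meet. (In particular the vertices are distinct.) -/
structure SimplePolygon (a b c d : E2) : Prop where
  at_a : segment ℝ d a ∩ segment ℝ a b = {a}
  at_b : segment ℝ a b ∩ segment ℝ b c = {b}
  at_c : segment ℝ b c ∩ segment ℝ c d = {c}
  at_d : segment ℝ c d ∩ segment ℝ d a = {d}
  opp₁ : Disjoint (segment ℝ a b) (segment ℝ c d)
  opp₂ : Disjoint (segment ℝ b c) (segment ℝ d a)

/-- `Ω` is a quadrilateral, convex or not: the bounded open region enclosed by a simple closed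
polygon with four sides. -/
def IsQuadrilateral (Ω : Set E2) : Prop :=
  IsOpen Ω ∧ Bornology.IsBounded Ω ∧ Ω.Nonempty ∧
    ∃ a b c d : E2, SimplePolygon a b c d ∧ frontier Ω = polygon a b c d

/-- `u` is an element of the Sobolev space `H¹(Ω)` and `g` is its weak gradient. -/
structure IsH1 (Ω : Set E2) (u : E2 → ℝ) (g : E2 → E2) : Prop where
  memLp : MemLp u 2 (volume.restrict Ω)
  memLp_grad : MemLp g 2 (volume.restrict Ω)
  weak : ∀ φ : E2 → ℝ, ContDiff ℝ ∞ φ → HasCompactSupport φ → tsupport φ ⊆ Ω → ∀ v : E2,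
    ∫ x in Ω, u x * fderiv ℝ φ x v = -∫ x in Ω, inner ℝ (g x) v * φ x

/-- The first non-zero Neumann eigenvalue of `Ω` in its variational form: the infimum of
`∫ |∇u|² / ∫ u²` over all `u ∈ H¹(Ω)`, `u ≠ 0`, with mean value zero. -/
noncomputable def mu1 (Ω : Set E2) : ℝ :=
  sInf {r : ℝ | ∃ (u : E2 → ℝ) (g : E2 → E2), IsH1 Ω u g ∧ ∫ x in Ω, u x = 0 ∧
    0 < ∫ x in Ω, u x ^ 2 ∧ r = (∫ x in Ω, ‖g x‖ ^ 2) / ∫ x in Ω, u x ^ 2}

/-- The open unit square. -/
def unitSquare : Set E2 := {x | 0 < x 0 ∧ x 0 < 1 ∧ 0 < x 1 ∧ x 1 < 1}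

end Pool.Agent.Lib.MP_03b26c_an.Own
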