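import Mathlib
import Pool.Agent.Lib.MP_03b26c_an.Aff

set_option autoImplicit false

open MeasureTheory Metric ContinuousLinearMap Filter Topology Set
open scoped ContDiff

namespace Pool.Agent.Lib.MP_03b26c_an

lemma en_lin2 (U V : W) (hA : 0 < cr U V) (L : W →L[ℝ] ℝ) :
    en ((U.1^2 + U.2^2) / cr U V) ((V.1^2 + V.2^2) / cr U V) ((U.1 * V.1 + U.2 * V.2) / cr U V)
      (L.comp (lin2 U V)) = |cr U V| * en 1 1 0 L := by
  have hL : ∀ x y : ℝ, L (x, y) = x * L (1, 0) + y * L (0, 1) := by
    intro x y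
    have : ((x, y) : W) = x • ((1, 0) : W) + y • ((0, 1) : W) := by
      ext <;> simp
    rw [this, map_add, map_smul, map_smul, smul_eq_mul, smul_eq_mul]
  have e1 : (L.comp (lin2 U V)) (1, 0) = U.1 * L (1, 0) + U.2 * L (0, 1) := by
    rw [ContinuousLinearMap.comp_apply, lin2_apply]
    simp only [one_mul, zero_mul, add_zero]
    exact hL _ _
  have e2 : (L.comp (lin2 U V)) (0, 1) = V.1 * L (1, 0) + V.2 * L (0, 1) := by
    rw [ContinuousLinearMap.comp_apply, lin2_apply]
    simp only [one_mul, zero_mul, zero_add]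
    exact hL _ _
  unfold en
  rw [e1, e2, abs_of_pos hA]
  field_simp
  unfold cr
  ring

/-- bound for quadrilaterals in the plane, positive orientation -/
theorem quad_bound {a b c d : W} (h1 : 0 < cr (b - a) (c - a)) (h2 : 0 < cr (c - a) (d - a))
    {Λ : ℝ} (h : PW (tri a b c ∪ tri a c d) Λ 1 1 0) :
    Λ * (volume (tri a b c ∪ tri a c d)).toReal ≤ Real.pi^2 := by
  obtain ⟨P, hP⟩ : ∃ P : W, P = ((1/4 : ℝ)) • (a + b + c + d) := ⟨_, rfl⟩
  obtain ⟨U, hU⟩ : ∃ U : W, U = ((1/2 : ℝ)) • (b + c - a - d) := ⟨_, rfl⟩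
  obtain ⟨V, hV⟩ : ∃ V : W, V = ((1/2 : ℝ)) • (c + d - a - b) := ⟨_, rfl⟩
  have hA2 : cr U V = (cr (b - a) (c - a) + cr (c - a) (d - a)) / 2 := by
    rw [hU, hV]
    simp only [cr, Prod.fst_add, Prod.smul_fst, Prod.snd_add, Prod.smul_snd, smul_eq_mul,
      Prod.fst_sub, Prod.snd_sub]
    ring
  have hA : 0 < cr U V := by rw [hA2]; positivity
  obtain ⟨α, hα⟩ : ∃ α : ℝ, α = cr (a + c - b - d) V / cr U V := ⟨_, rfl⟩
  obtain ⟨β, hβ⟩ : ∃ β : ℝ, β = cr U (a + c - b - d) / cr U V := ⟨_, rfl⟩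
  have hD : a + c - b - d = α • U + β • V := by
    have hA' : cr U V ≠ 0 := hA.ne'
    ext
    · simp only [Prod.fst_add, Prod.smul_fst, smul_eq_mul]
      rw [hα, hβ]
      field_simp
      simp only [cr, Prod.fst_add, Prod.snd_add, Prod.fst_sub, Prod.snd_sub]
      ring
    · simp only [Prod.snd_add, Prod.smul_snd, smul_eq_mul]
      rw [hα, hβ]
      field_simp
      simp only [cr, Prod.fst_add, Prod.snd_add, Prod.fst_sub, Prod.snd_sub]
      ring
  have ea : MP_03b26c_an.aff P U V (va α β) = a := by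
    have : MP_03b26c_an.aff P U V (va α β)
        = P - (1/2:ℝ) • U - (1/2:ℝ) • V + (1/4:ℝ) • (α • U + β • V) := by
      unfold MP_03b26c_an.aff va
      simp only
      module
    rw [this, ← hD, hP, hU, hV]
    module
  have eb : MP_03b26c_an.aff P U V (vb α β) = b := by
    have : MP_03b26c_an.aff P U V (vb α β)
        = P + (1/2:ℝ) • U - (1/2:ℝ) • V - (1/4:ℝ) • (α • U + β • V) := by
      unfold MP_03b26c_an.aff vb
      simp only
      module
    rw [this, ← hD, hP, hU, hV]
    module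
  have ec : MP_03b26c_an.aff P U V (vc α β) = c := by
    have : MP_03b26c_an.aff P U V (vc α β)
        = P + (1/2:ℝ) • U + (1/2:ℝ) • V + (1/4:ℝ) • (α • U + β • V) := by
      unfold MP_03b26c_an.aff vc
      simp only
      module
    rw [this, ← hD, hP, hU, hV]
    module
  have ed : MP_03b26c_an.aff P U V (vd α β) = d := by
    have : MP_03b26c_an.aff P U V (vd α β)
        = P - (1/2:ℝ) • U + (1/2:ℝ) • V - (1/4:ℝ) • (α • U + β • V) := by
      unfold MP_03b26c_an.aff vd
      simp only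
      module
    rw [this, ← hD, hP, hU, hV]
    module
  have himg : MP_03b26c_an.aff P U V '' Qd α β = tri a b c ∪ tri a c d := by
    unfold Qd T1 T2
    rw [image_union, aff_tri, aff_tri, ea, eb, ec, ed]
  -- the parameter restriction
  have hδ : |α - β| < 2 := by
    have e3 : (α - β) * cr U V = (cr (c - a) (d - a) - cr (b - a) (c - a)) := by
      rw [hα, hβ, sub_mul, div_mul_cancel₀ _ hA.ne', div_mul_cancel₀ _ hA.ne', hU, hV]
      simp only [cr, Prod.fst_add, Prod.smul_fst, Prod.snd_add, Prod.smul_snd, smul_eq_mul,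
        Prod.fst_sub, Prod.snd_sub]
      ring
    rw [abs_lt]
    constructor
    · by_contra hcon
      push Not at hcon
      have := mul_le_mul_of_nonneg_right hcon hA.le
      rw [e3, hA2] at this
      linarith
    · by_contra hcon
      push Not at hcon
      have := mul_le_mul_of_nonneg_right hcon hA.le
      rw [e3, hA2] at this
      linarith
  rw [← himg] at h ⊢
  have hPW := PW.aff hA.ne' (Qd_compact α β).measurableSet h (en_lin2 U V hA)
  have hUV : 0 < U.1^2 + U.2^2 := by
    by_contra hcon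
    push Not at hcon
    have u1 : U.1 = 0 := by nlinarith [sq_nonneg U.1, sq_nonneg U.2]
    have u2 : U.2 = 0 := by nlinarith [sq_nonneg U.1, sq_nonneg U.2]
    unfold cr at hA
    rw [u1, u2] at hA
    simp at hA
  have hVV : 0 < V.1^2 + V.2^2 := by
    by_contra hcon
    push Not at hcon
    have u1 : V.1 = 0 := by nlinarith [sq_nonneg V.1, sq_nonneg V.2]
    have u2 : V.2 = 0 := by nlinarith [sq_nonneg V.1, sq_nonneg V.2]
    unfold cr at hA
    rw [u1, u2] at hA
    simp at hA
  have hdet : (U.1^2 + U.2^2) / cr U V * ((V.1^2 + V.2^2) / cr U V)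
      - ((U.1 * V.1 + U.2 * V.2) / cr U V)^2 = 1 := by
    field_simp
    unfold cr
    ring
  have hfin := norm_main hδ hPW hdet (by positivity) (by positivity)
  rw [volume_aff hA.ne' (Qd_compact α β).measurableSet, area_Qd hδ, mul_one]
  exact hfin

/-- bound for quadrilaterals in the plane -/
theorem quad_bound' {a b c d : W} (h : cr (b - a) (c - a) * cr (d - a) (c - a) < 0)
    {Λ : ℝ} (hPW : PW (tri a b c ∪ tri a c d) Λ 1 1 0) :
    Λ * (volume (tri a b c ∪ tri a c d)).toReal ≤ Real.pi^2 := by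
  have hsw : ∀ X Y : W, cr X Y = - cr Y X := by
    intro X Y
    unfold cr
    ring
  rcases mul_neg_iff.mp h with ⟨h1, h2⟩ | ⟨h1, h2⟩
  · refine quad_bound h1 ?_ hPW
    rw [hsw]; linarith
  · have e : tri a b c ∪ tri a c d = tri a d c ∪ tri a c b := by
      rw [tri_swap a b c, tri_swap a c d, union_comm]
    rw [e] at hPW ⊢
    refine quad_bound h2 ?_ hPW
    rw [hsw]; linarith

end Pool.Agent.Lib.MP_03b26c_an
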