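import Mathlib

set_option autoImplicit false

open MeasureTheory Set intervalIntegral
open scoped ContDiff

namespace Pool.Agent.Lib.MP_03b26c_an

/-- Dirichlet inequality on the unit interval -/
lemma dirichlet1D {θ : ℝ} (hθ0 : 0 < θ) (hθ : θ < Real.pi) {G G' : ℝ → ℝ}
    (hd : ∀ x, HasDerivAt G (G' x) x) (hc : Continuous G') (h0 : G 0 = 0) (h1 : G 1 = 0) :
    θ^2 * ∫ x in (0:ℝ)..1, G x ^ 2 ≤ ∫ x in (0:ℝ)..1, G' x ^ 2 := by
  have hGc : Continuous G := continuous_iff_continuousAt.mpr fun x => (hd x).continuousAt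
  have hcos : ∀ x ∈ uIcc (0:ℝ) 1, Real.cos (θ * (x - 1/2)) ≠ 0 := by
    intro x hx
    rw [uIcc_of_le zero_le_one] at hx
    apply ne_of_gt
    apply Real.cos_pos_of_mem_Ioo
    constructor
    · nlinarith [hx.1, hx.2]
    · nlinarith [hx.1, hx.2]
  set φ : ℝ → ℝ := fun x => θ * Real.tan (θ * (x - 1/2)) with hφ
  have hφd : ∀ x ∈ uIcc (0:ℝ) 1, HasDerivAt φ (θ^2 + φ x ^ 2) x := by
    intro x hx
    have a1 : HasDerivAt (fun x : ℝ => θ * (x - 1/2)) θ x := by
      have := ((hasDerivAt_id x).sub_const (1/2)).const_mul θ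
      simpa using this
    have a2 := ((Real.hasDerivAt_tan (hcos x hx)).comp x a1).const_mul θ
    refine a2.congr_deriv ?_
    simp only [hφ]
    have h3 := hcos x hx
    rw [Real.tan_eq_sin_div_cos]
    have h4 := Real.sin_sq_add_cos_sq (θ * (x - 1/2))
    generalize θ * (x - 1/2) = A at h3 h4
    field_simp
    linear_combination (-1:ℝ) * h4
  have hφc : ContinuousOn φ (uIcc (0:ℝ) 1) := fun x hx => (hφd x hx).continuousAt.continuousWithinAt
  have hH : ∀ x ∈ uIcc (0:ℝ) 1, HasDerivAt (fun x => φ x * G x ^ 2)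
      ((θ^2 + φ x ^ 2) * G x ^ 2 + φ x * (2 * G x * G' x)) x := by
    intro x hx
    have := (hφd x hx).fun_mul ((hd x).fun_pow 2)
    simpa using this
  have hint : ContinuousOn (fun x => (θ^2 + φ x ^ 2) * G x ^ 2 + φ x * (2 * G x * G' x))
      (uIcc (0:ℝ) 1) := by
    have := hGc.continuousOn (s := uIcc (0:ℝ) 1)
    have := hc.continuousOn (s := uIcc (0:ℝ) 1)
    fun_prop
  have hFTC := integral_eq_sub_of_hasDerivAt hH hint.intervalIntegrable
  simp only [h0, h1] at hFTC
  have hpos : 0 ≤ ∫ x in (0:ℝ)..1, (G' x + φ x * G x)^2 :=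
    integral_nonneg zero_le_one (fun x _ => sq_nonneg _)
  have i1 : IntervalIntegrable (fun x => G' x ^ 2) volume 0 1 :=
    (hc.pow 2).intervalIntegrable _ _
  have i2 : IntervalIntegrable (fun x => G x ^ 2) volume 0 1 :=
    (hGc.pow 2).intervalIntegrable _ _
  have hsplit : ∫ x in (0:ℝ)..1, (G' x + φ x * G x)^2
      = (∫ x in (0:ℝ)..1, G' x ^ 2)
        + (∫ x in (0:ℝ)..1, ((θ^2 + φ x ^ 2) * G x ^ 2 + φ x * (2 * G x * G' x)))
        - θ^2 * ∫ x in (0:ℝ)..1, G x ^ 2 := by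
    rw [← intervalIntegral.integral_const_mul, ← integral_add i1 hint.intervalIntegrable,
      ← integral_sub (i1.add hint.intervalIntegrable) (i2.const_mul _)]
    congr 1
    funext x
    ring
  rw [hsplit, hFTC] at hpos
  simp at hpos
  linarith

/-- Neumann inequality on the unit interval -/
lemma neumann1D {θ : ℝ} (hθ0 : 0 < θ) (hθ : θ < Real.pi) {h h' : ℝ → ℝ}
    (hd : ∀ x, HasDerivAt h (h' x) x) (hc : Continuous h') :
    θ^2 * ((∫ x in (0:ℝ)..1, h x ^ 2) - (∫ x in (0:ℝ)..1, h x)^2)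
      ≤ ∫ x in (0:ℝ)..1, h' x ^ 2 := by
  have hhc : Continuous h := continuous_iff_continuousAt.mpr fun x => (hd x).continuousAt
  obtain ⟨m, hm⟩ : ∃ m, m = ∫ x in (0:ℝ)..1, h x := ⟨_, rfl⟩
  set u : ℝ → ℝ := fun x => h x - m with hu
  have huc : Continuous u := hhc.sub continuous_const
  set G : ℝ → ℝ := fun x => ∫ t in (0:ℝ)..x, u t with hG
  have hGd : ∀ x, HasDerivAt G (u x) x := fun x => huc.integral_hasStrictDerivAt 0 x |>.hasDerivAt
  have hG0 : G 0 = 0 := by simp [hG]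
  have hG1 : G 1 = 0 := by
    simp only [hG, hu]
    rw [integral_sub (hhc.intervalIntegrable _ _) (by simp), ← hm]
    simp
  have hGc : Continuous G := continuous_iff_continuousAt.mpr fun x => (hGd x).continuousAt
  have hD := dirichlet1D hθ0 hθ hGd huc hG0 hG1
  have hud : ∀ x, HasDerivAt u (h' x) x := fun x => (hd x).sub_const m
  have hibp : ∫ x in (0:ℝ)..1, u x ^ 2 = - ∫ x in (0:ℝ)..1, G x * h' x := by
    have e : ∫ x in (0:ℝ)..1, (u x * u x + G x * h' x) = G 1 * u 1 - G 0 * u 0 := by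
      apply integral_eq_sub_of_hasDerivAt (f := fun x => G x * u x)
      · intro x _
        exact (hGd x).fun_mul (hud x)
      · exact ((huc.mul huc).add (hGc.mul hc)).intervalIntegrable _ _
    rw [hG0, hG1] at e
    have j1 : IntervalIntegrable (fun x => u x * u x) volume 0 1 :=
      (huc.mul huc).intervalIntegrable _ _
    have j2 : IntervalIntegrable (fun x => G x * h' x) volume 0 1 :=
      (hGc.mul hc).intervalIntegrable _ _
    rw [integral_add j1 j2] at e
    simp only [pow_two]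
    linarith
  have hAM : 0 ≤ ∫ x in (0:ℝ)..1, (θ * G x + h' x / θ)^2 :=
    integral_nonneg zero_le_one (fun x _ => sq_nonneg _)
  have hexp : ∫ x in (0:ℝ)..1, (θ * G x + h' x / θ)^2
      = θ^2 * (∫ x in (0:ℝ)..1, G x ^ 2) + 2 * (∫ x in (0:ℝ)..1, G x * h' x)
        + (1/θ^2) * ∫ x in (0:ℝ)..1, h' x ^ 2 := by
    have i1 : IntervalIntegrable (fun x => G x ^ 2) volume 0 1 := (hGc.pow 2).intervalIntegrable _ _
    have i2 : IntervalIntegrable (fun x => G x * h' x) volume 0 1 :=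
      (hGc.mul hc).intervalIntegrable _ _
    have i3 : IntervalIntegrable (fun x => h' x ^ 2) volume 0 1 := (hc.pow 2).intervalIntegrable _ _
    rw [← intervalIntegral.integral_const_mul, ← intervalIntegral.integral_const_mul,
      ← intervalIntegral.integral_const_mul, ← integral_add (i1.const_mul _) (i2.const_mul _),
      ← integral_add ((i1.const_mul _).add (i2.const_mul _)) (i3.const_mul _)]
    congr 1
    funext x
    field_simp
    ring
  have hvar : ∫ x in (0:ℝ)..1, u x ^ 2 = (∫ x in (0:ℝ)..1, h x ^ 2) - m^2 := by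
    have i1 : IntervalIntegrable (fun x => h x ^ 2) volume 0 1 := (hhc.pow 2).intervalIntegrable _ _
    have i2 : IntervalIntegrable (fun x => h x) volume 0 1 := hhc.intervalIntegrable _ _
    have : ∫ x in (0:ℝ)..1, u x ^ 2 = ∫ x in (0:ℝ)..1, (h x ^ 2 - (2 * m) * h x + m^2) := by
      congr 1
      funext x
      simp only [hu]
      ring
    rw [this, integral_add (i1.sub (i2.const_mul _)) (by simp), integral_sub i1 (i2.const_mul _),
      intervalIntegral.integral_const_mul, ← hm]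
    simp
    ring
  rw [hexp] at hAM
  rw [← hm, ← hvar]
  have h1 : ∫ x in (0:ℝ)..1, u x ^ 2 ≤ (1/θ^2) * ∫ x in (0:ℝ)..1, h' x ^ 2 := by linarith
  have hθ2 : 0 < θ^2 := by positivity
  calc θ^2 * ∫ x in (0:ℝ)..1, u x ^ 2 ≤ θ^2 * ((1/θ^2) * ∫ x in (0:ℝ)..1, h' x ^ 2) :=
        mul_le_mul_of_nonneg_left h1 hθ2.le
    _ = ∫ x in (0:ℝ)..1, h' x ^ 2 := by field_simp

end Pool.Agent.Lib.MP_03b26c_an
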