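import Mathlib
import Pool.Agent.Lib.MP_03b26c_an.Square
import Pool.Agent.Lib.MP_03b26c_an.Glue

set_option autoImplicit false

open MeasureTheory Set intervalIntegral
open scoped ContDiff

namespace Pool.Agent.Lib.MP_03b26c_an

/-- the open unit square -/
def Sq : Set W := Ioo (0:ℝ) 1 ×ˢ Ioo (0:ℝ) 1

lemma Sq_measurable : MeasurableSet Sq := measurableSet_Ioo.prod measurableSet_Ioo

lemma integrableOn_Sq {F : W → ℝ} (hF : Continuous F) : IntegrableOn F Sq := by
  have h1 : IntegrableOn F (Icc (0:ℝ) 1 ×ˢ Icc (0:ℝ) 1) :=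
    hF.continuousOn.integrableOn_compact (isCompact_Icc.prod isCompact_Icc)
  exact h1.mono_set (prod_mono Ioo_subset_Icc_self Ioo_subset_Icc_self)

lemma int_Sq {F : W → ℝ} (hF : Continuous F) :
    ∫ z in Sq, F z = ∫ x in (0:ℝ)..1, ∫ y in (0:ℝ)..1, F (x, y) := by
  unfold Sq
  rw [Measure.volume_eq_prod, setIntegral_prod F (integrableOn_Sq hF)]
  rw [intervalIntegral.integral_of_le zero_le_one, integral_Ioc_eq_integral_Ioo]
  congr 1
  funext x
  rw [intervalIntegral.integral_of_le zero_le_one, integral_Ioc_eq_integral_Ioo]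

lemma int_Sq' {F : W → ℝ} (hF : Continuous F) :
    ∫ z in Sq, F z = ∫ y in (0:ℝ)..1, ∫ x in (0:ℝ)..1, F (x, y) := by
  have h := int_Sq (F := fun z => F z.swap) (hF.comp continuous_swap)
  have h2 : ∫ z in Sq, F z.swap = ∫ z in Sq, F z := by
    unfold Sq
    rw [Measure.volume_eq_prod]
    exact setIntegral_prod_swap _ _ F
  rw [h2] at h
  exact h

lemma int_sub_sq {u : ℝ → ℝ} (hu : Continuous u) (m : ℝ) :
    ∫ x in (0:ℝ)..1, (u x - m)^2 = (∫ x in (0:ℝ)..1, u x ^ 2) - 2 * m * (∫ x in (0:ℝ)..1, u x)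
      + m^2 := by
  have i1 : IntervalIntegrable (fun x => u x ^ 2) volume 0 1 := (hu.pow 2).intervalIntegrable _ _
  have i2 : IntervalIntegrable (fun x => u x) volume 0 1 := hu.intervalIntegrable _ _
  have : ∫ x in (0:ℝ)..1, (u x - m) ^ 2 = ∫ x in (0:ℝ)..1, (u x ^ 2 - (2 * m) * u x + m^2) := by
    congr 1
    funext x
    ring
  rw [this, integral_add (i1.sub (i2.const_mul _)) (by simp), integral_sub i1 (i2.const_mul _),
    intervalIntegral.integral_const_mul]
  simp

lemma cs_int {u : ℝ → ℝ} (hu : Continuous u) :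
    (∫ x in (0:ℝ)..1, u x)^2 ≤ ∫ x in (0:ℝ)..1, u x ^ 2 := by
  have h : 0 ≤ ∫ x in (0:ℝ)..1, (u x - ∫ x in (0:ℝ)..1, u x)^2 :=
    integral_nonneg zero_le_one (fun x _ => sq_nonneg _)
  rw [int_sub_sq hu] at h
  nlinarith

/-- sharp Poincaré inequality on the unit square -/
theorem sq_poincare {θ : ℝ} (hθ0 : 0 < θ) (hθ : θ < Real.pi) {g : W → ℝ} (hg : ContDiff ℝ ∞ g) :
    θ^2 * ((∫ z in Sq, g z ^ 2) - (∫ z in Sq, g z)^2)
      ≤ ∫ z in Sq, en 1 1 0 (fderiv ℝ g z) := by
  have hgc : Continuous g := hg.continuous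
  have hfc : Continuous (fun z => fderiv ℝ g z) := hg.continuous_fderiv (by simp)
  have hdiff : Differentiable ℝ g := hg.differentiable (by simp)
  set gx : W → ℝ := fun z => fderiv ℝ g z (1, 0) with hgx
  set gy : W → ℝ := fun z => fderiv ℝ g z (0, 1) with hgy
  have hgxc : Continuous gx := hfc.clm_apply continuous_const
  have hgyc : Continuous gy := hfc.clm_apply continuous_const
  set a : ℝ → ℝ := fun x => ∫ y in (0:ℝ)..1, g (x, y) with ha
  set b : ℝ → ℝ := fun y => ∫ x in (0:ℝ)..1, g (x, y) with hb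
  have hac : Continuous a :=
    continuous_parametric_intervalIntegral_of_continuous' (f := fun x y => g (x, y))
      (by exact hgc) 0 1
  have hbc : Continuous b :=
    continuous_parametric_intervalIntegral_of_continuous' (f := fun y x => g (x, y))
      (by exact hgc.comp continuous_swap) 0 1
  obtain ⟨c, hc⟩ : ∃ c, c = ∫ z in Sq, g z := ⟨_, rfl⟩
  have hca : ∫ x in (0:ℝ)..1, a x = c := by rw [hc, int_Sq hgc]
  have hcb : ∫ y in (0:ℝ)..1, b y = c := by rw [hc, int_Sq' hgc]
  -- derivatives along the axes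
  have hdy : ∀ x y : ℝ, HasDerivAt (fun t => g (x, t)) (gy (x, y)) y := by
    intro x y
    have h1 : HasDerivAt (fun t : ℝ => ((x, t) : W)) ((0, 1) : W) y :=
      (hasDerivAt_const y x).prodMk (hasDerivAt_id y)
    exact (hdiff (x, y)).hasFDerivAt.comp_hasDerivAt y h1
  have hdx : ∀ x y : ℝ, HasDerivAt (fun t => g (t, y)) (gx (x, y)) x := by
    intro x y
    have h1 : HasDerivAt (fun t : ℝ => ((t, y) : W)) ((1, 0) : W) x :=
      (hasDerivAt_id x).prodMk (hasDerivAt_const x y)
    exact (hdiff (x, y)).hasFDerivAt.comp_hasDerivAt x h1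
  -- one dimensional inequalities
  have cg2 : Continuous (fun z => g z ^ 2) := hgc.pow 2
  have cgx2 : Continuous (fun z => gx z ^ 2) := hgxc.pow 2
  have cgy2 : Continuous (fun z => gy z ^ 2) := hgyc.pow 2
  have cI : ∀ {F : W → ℝ}, Continuous F → Continuous (fun x => ∫ y in (0:ℝ)..1, F (x, y)) := by
    intro F hF
    exact continuous_parametric_intervalIntegral_of_continuous' (f := fun x y => F (x, y))
      (by exact hF) 0 1
  have cI' : ∀ {F : W → ℝ}, Continuous F → Continuous (fun y => ∫ x in (0:ℝ)..1, F (x, y)) := by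
    intro F hF
    exact continuous_parametric_intervalIntegral_of_continuous' (f := fun y x => F (x, y))
      (by exact hF.comp continuous_swap) 0 1
  have hY : θ^2 * ((∫ z in Sq, g z ^ 2) - ∫ x in (0:ℝ)..1, a x ^ 2) ≤ ∫ z in Sq, gy z ^ 2 := by
    rw [int_Sq cg2, int_Sq cgy2]
    have i1 : IntervalIntegrable (fun x => ∫ y in (0:ℝ)..1, g (x, y) ^ 2) volume 0 1 :=
      (cI cg2).intervalIntegrable _ _
    have i2 : IntervalIntegrable (fun x => a x ^ 2) volume 0 1 := (hac.pow 2).intervalIntegrable _ _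
    have i3 : IntervalIntegrable (fun x => ∫ y in (0:ℝ)..1, gy (x, y) ^ 2) volume 0 1 :=
      (cI cgy2).intervalIntegrable _ _
    rw [← integral_sub i1 i2, ← intervalIntegral.integral_const_mul]
    apply integral_mono_on zero_le_one ((i1.sub i2).const_mul _) i3
    intro x _
    have hcy : Continuous (fun y => gy (x, y)) := hgyc.comp (by fun_prop)
    exact neumann1D hθ0 hθ (h := fun y => g (x, y)) (h' := fun y => gy (x, y)) (hdy x) hcy
  have hX : θ^2 * ((∫ z in Sq, g z ^ 2) - ∫ y in (0:ℝ)..1, b y ^ 2) ≤ ∫ z in Sq, gx z ^ 2 := by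
    rw [int_Sq' cg2, int_Sq' cgx2]
    have i1 : IntervalIntegrable (fun y => ∫ x in (0:ℝ)..1, g (x, y) ^ 2) volume 0 1 :=
      (cI' cg2).intervalIntegrable _ _
    have i2 : IntervalIntegrable (fun x => b x ^ 2) volume 0 1 := (hbc.pow 2).intervalIntegrable _ _
    have i3 : IntervalIntegrable (fun y => ∫ x in (0:ℝ)..1, gx (x, y) ^ 2) volume 0 1 :=
      (cI' cgx2).intervalIntegrable _ _
    rw [← integral_sub i1 i2, ← intervalIntegral.integral_const_mul]
    apply integral_mono_on zero_le_one ((i1.sub i2).const_mul _) i3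
    intro y _
    have hcx : Continuous (fun x => gx (x, y)) := hgxc.comp (by fun_prop)
    exact neumann1D hθ0 hθ (h := fun x => g (x, y)) (h' := fun x => gx (x, y))
      (fun x => hdx x y) hcx
  -- subadditivity of the variance
  have hV : (∫ x in (0:ℝ)..1, a x ^ 2) - c^2
      ≤ (∫ z in Sq, g z ^ 2) - ∫ y in (0:ℝ)..1, b y ^ 2 := by
    have h1 : ∀ x ∈ Icc (0:ℝ) 1, (a x - c)^2 ≤ ∫ y in (0:ℝ)..1, (g (x, y) - b y)^2 := by
      intro x _
      have hgcx : Continuous (fun y => g (x, y)) := hgc.comp (by fun_prop)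
      have h2 := cs_int (u := fun y => g (x, y) - b y) (hgcx.sub hbc)
      rw [integral_sub (hgcx.intervalIntegrable _ _) (hbc.intervalIntegrable _ _), hcb] at h2
      exact h2
    have cd : Continuous (fun z : W => (g z - b z.2)^2) := by
      have := hbc.comp (continuous_snd (X := ℝ) (Y := ℝ))
      exact (hgc.sub this).pow 2
    have h3 : ∫ x in (0:ℝ)..1, (a x - c)^2 ≤ ∫ x in (0:ℝ)..1, ∫ y in (0:ℝ)..1, (g (x, y) - b y)^2 := by
      apply integral_mono_on zero_le_one
        (((hac.sub continuous_const).pow 2).intervalIntegrable _ _)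
        ((cI cd).intervalIntegrable _ _) h1
    rw [int_sub_sq hac, hca] at h3
    have h4 : ∫ x in (0:ℝ)..1, ∫ y in (0:ℝ)..1, (g (x, y) - b y)^2
        = (∫ z in Sq, g z ^ 2) - ∫ y in (0:ℝ)..1, b y ^ 2 := by
      have e1 : ∫ x in (0:ℝ)..1, ∫ y in (0:ℝ)..1, (g (x, y) - b y)^2
          = ∫ z in Sq, (g z - b z.2)^2 := (int_Sq cd).symm
      rw [e1, int_Sq' cd, int_Sq' cg2]
      have i1 : IntervalIntegrable (fun y => ∫ x in (0:ℝ)..1, g (x, y) ^ 2) volume 0 1 :=
        (cI' cg2).intervalIntegrable _ _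
      have i2 : IntervalIntegrable (fun x => b x ^ 2) volume 0 1 :=
        (hbc.pow 2).intervalIntegrable _ _
      rw [← integral_sub i1 i2]
      congr 1
      funext y
      have hcx : Continuous (fun x => g (x, y)) := hgc.comp (by fun_prop)
      have h5 := int_sub_sq hcx (b y)
      simp only at h5 ⊢
      rw [h5]
      have h6 : ∫ x in (0:ℝ)..1, g (x, y) = b y := rfl
      rw [h6]
      ring
    rw [h4] at h3
    linarith
  have hE : ∫ z in Sq, en 1 1 0 (fderiv ℝ g z) = (∫ z in Sq, gx z ^ 2) + ∫ z in Sq, gy z ^ 2 := by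
    rw [← MeasureTheory.integral_add (integrableOn_Sq cgx2) (integrableOn_Sq cgy2)]
    congr 1
    funext z
    unfold en
    simp only [hgx, hgy]
    ring
  rw [hE, ← hc]
  have hθ2 : 0 ≤ θ^2 := sq_nonneg θ
  have h7 := mul_le_mul_of_nonneg_left hV hθ2
  linarith

end Pool.Agent.Lib.MP_03b26c_an
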