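import Mathlib
import Pool.Agent.Lib.MP_03b26c_an.RedW
import Pool.Agent.Lib.MP_03b26c_an.Square2

set_option autoImplicit false

open MeasureTheory Metric ContinuousLinearMap Filter Topology Set
open scoped ContDiff

namespace Pool.Agent.Lib.MP_03b26c_an

/-- coordinates of the Euclidean plane -/
noncomputable def em : EuclideanSpace ℝ (Fin 2) ≃L[ℝ] W :=
  (EuclideanSpace.equiv (Fin 2) ℝ).trans (ContinuousLinearEquiv.finTwoArrow ℝ ℝ)

lemma em_apply (x : EuclideanSpace ℝ (Fin 2)) : em x = (x 0, x 1) := rfl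

lemma em_mp : MeasurePreserving em :=
  (volume_preserving_finTwoArrow ℝ).comp (PiLp.volume_preserving_ofLp (Fin 2))

lemma em_emb : MeasurableEmbedding em := em.toHomeomorph.measurableEmbedding

lemma int_em (Ω : Set (EuclideanSpace ℝ (Fin 2))) (h : W → ℝ) :
    ∫ x in Ω, h (em x) = ∫ z in em '' Ω, h z :=
  (em_mp.setIntegral_image_emb em_emb h Ω).symm

lemma vol_em (Ω : Set (EuclideanSpace ℝ (Fin 2))) :
    volume (em '' Ω) = volume Ω := by
  rw [← em_mp.measure_preimage_emb em_emb, preimage_image_eq _ em.injective]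

/-- norm of a linear functional on the Euclidean plane -/
lemma norm_sq_dual (l : EuclideanSpace ℝ (Fin 2) →L[ℝ] ℝ) :
    ‖l‖^2 = (l (EuclideanSpace.single 0 1))^2 + (l (EuclideanSpace.single 1 1))^2 := by
  set v := (InnerProductSpace.toDual ℝ (EuclideanSpace ℝ (Fin 2))).symm l with hv
  have h1 : ‖v‖ = ‖l‖ := by rw [hv]; simp
  have h2 : ∀ y, l y = inner ℝ v y := by
    intro y
    rw [hv]
    simp
  rw [← h1, EuclideanSpace.norm_sq_eq, Fin.sum_univ_two, h2, h2]
  simp [EuclideanSpace.inner_single_right]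

lemma fderiv_comp_em {g : W → ℝ} (hg : Differentiable ℝ g) (c : ℝ)
    (x : EuclideanSpace ℝ (Fin 2)) :
    ‖fderiv ℝ (fun x => g (em x) - c) x‖^2 = en 1 1 0 (fderiv ℝ g (em x)) := by
  have h1 : HasFDerivAt (fun x => g (em x) - c)
      ((fderiv ℝ g (em x)).comp (em : EuclideanSpace ℝ (Fin 2) →L[ℝ] W)) x := by
    have a1 : HasFDerivAt g (fderiv ℝ g (em x)) (em x) := (hg _).hasFDerivAt
    exact (a1.comp x em.hasFDerivAt).sub_const c
  rw [h1.fderiv, norm_sq_dual]
  have e1 : em (EuclideanSpace.single (0 : Fin 2) (1:ℝ)) = (1, 0) := by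
    rw [em_apply]; simp
  have e2 : em (EuclideanSpace.single (1 : Fin 2) (1:ℝ)) = (0, 1) := by
    rw [em_apply]; simp
  simp only [ContinuousLinearMap.comp_apply, ContinuousLinearEquiv.coe_coe, e1, e2, en]
  ring

/-- the set of Rayleigh quotients -/
def RQ (Ω : Set (EuclideanSpace ℝ (Fin 2))) : Set ℝ :=
  {r : ℝ | ∃ f : EuclideanSpace ℝ (Fin 2) → ℝ,
          ContDiff ℝ (⊤ : ℕ∞) f ∧ (∫ x in Ω, f x) = 0 ∧ 0 < (∫ x in Ω, f x ^ 2) ∧
          r = (∫ x in Ω, ‖fderiv ℝ f x‖ ^ 2) / (∫ x in Ω, f x ^ 2)}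

lemma RQ_nonneg {Ω : Set (EuclideanSpace ℝ (Fin 2))} {r : ℝ} (hr : r ∈ RQ Ω) : 0 ≤ r := by
  obtain ⟨f, _, _, h3, rfl⟩ := hr
  apply div_nonneg _ h3.le
  exact integral_nonneg fun x => by positivity

lemma RQ_bdd (Ω : Set (EuclideanSpace ℝ (Fin 2))) : BddBelow (RQ Ω) :=
  ⟨0, fun _ hr => RQ_nonneg hr⟩

/-- the Poincaré inequality with the Neumann eigenvalue as constant -/
theorem PW_of_RQ {Ω : Set (EuclideanSpace ℝ (Fin 2))} (hΩ : IsCompact Ω)
    (hvol : 0 < (volume Ω).toReal) : PW (em '' Ω) (sInf (RQ Ω)) 1 1 0 := by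
  intro g hg
  have hc : IsCompact (em '' Ω) := hΩ.image em.continuous
  have i1 : IntegrableOn g (em '' Ω) := hg.continuous.continuousOn.integrableOn_compact hc
  have i2 : IntegrableOn (fun z => g z ^ 2) (em '' Ω) :=
    (hg.continuous.pow 2).continuousOn.integrableOn_compact hc
  rw [vol_em]
  obtain ⟨V, hV⟩ : ∃ V, V = (volume Ω).toReal := ⟨_, rfl⟩
  rw [← hV] at hvol ⊢
  obtain ⟨I1, hI1⟩ : ∃ I, I = ∫ z in em '' Ω, g z := ⟨_, rfl⟩
  obtain ⟨I2, hI2⟩ : ∃ I, I = ∫ z in em '' Ω, g z ^ 2 := ⟨_, rfl⟩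
  obtain ⟨m, hm⟩ : ∃ m, m = I1 / V := ⟨_, rfl⟩
  have hVr : volume.real (em '' Ω) = V := by
    rw [Measure.real, vol_em, ← hV]
  have hfin : volume (em '' Ω) ≠ ⊤ := hc.measure_lt_top.ne
  have : IsFiniteMeasure (volume.restrict (em '' Ω)) :=
    ⟨by rw [Measure.restrict_apply_univ]; exact hc.measure_lt_top⟩
  set f : EuclideanSpace ℝ (Fin 2) → ℝ := fun x => g (em x) - m with hf
  have hfs : ContDiff ℝ (⊤ : ℕ∞) f := (hg.comp em.contDiff).sub contDiff_const
  have hf0 : ∫ x in Ω, f x = 0 := by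
    have : ∫ x in Ω, f x = ∫ z in em '' Ω, (g z - m) := int_em Ω (fun z => g z - m)
    rw [this, integral_sub i1 (integrable_const _), ← hI1]
    simp only [integral_const, smul_eq_mul, MeasurableSet.univ, measureReal_restrict_apply,
      univ_inter, hVr]
    rw [hm]
    field_simp
    ring
  have hf2 : ∫ x in Ω, f x ^ 2 = I2 - I1^2 / V := by
    have : ∫ x in Ω, f x ^ 2 = ∫ z in em '' Ω, (g z - m)^2 := int_em Ω (fun z => (g z - m)^2)
    have e : ∫ z in em '' Ω, (g z - m)^2 = ∫ z in em '' Ω, (g z ^ 2 - (2 * m) * g z + m^2) := by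
      congr 1
      funext z
      ring
    have j2 : IntegrableOn (fun z => (2 * m) * g z) (em '' Ω) := i1.const_mul _
    have j3 : IntegrableOn (fun z => g z ^ 2 - (2 * m) * g z) (em '' Ω) := i2.sub j2
    have j4 : IntegrableOn (fun _ : W => m ^ 2) (em '' Ω) := integrable_const _
    rw [this, e, integral_add j3 j4, integral_sub i2 j2, integral_const_mul, ← hI1, ← hI2]
    simp only [integral_const, smul_eq_mul, MeasurableSet.univ, measureReal_restrict_apply,
      univ_inter, hVr]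
    rw [hm]
    field_simp
    ring
  have hen : ∫ x in Ω, ‖fderiv ℝ f x‖ ^ 2 = ∫ z in em '' Ω, en 1 1 0 (fderiv ℝ g z) := by
    rw [← int_em Ω (fun z => en 1 1 0 (fderiv ℝ g z))]
    congr 1
    funext x
    exact fderiv_comp_em (hg.differentiable (by simp)) m x
  rw [← hI1, ← hI2, ← hen]
  have hen0 : 0 ≤ ∫ x in Ω, ‖fderiv ℝ f x‖ ^ 2 := integral_nonneg fun x => by positivity
  have hf20 : 0 ≤ ∫ x in Ω, f x ^ 2 := integral_nonneg fun x => sq_nonneg _
  have hid : I2 * V - I1^2 = V * ∫ x in Ω, f x ^ 2 := by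
    rw [hf2]
    field_simp
  rw [hid]
  rcases hf20.eq_or_lt with h | h
  · rw [← h]
    simp only [mul_zero]
    positivity
  · have hle : sInf (RQ Ω) ≤ (∫ x in Ω, ‖fderiv ℝ f x‖ ^ 2) / (∫ x in Ω, f x ^ 2) :=
      csInf_le (RQ_bdd Ω) ⟨f, hfs, hf0, h, rfl⟩
    rw [le_div_iff₀ h] at hle
    have := mul_le_mul_of_nonneg_left hle hvol.le
    linarith

lemma image_em_tri (a b c : EuclideanSpace ℝ (Fin 2)) :
    em '' (convexHull ℝ {a, b, c}) = tri (em a) (em b) (em c) := by
  unfold tri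
  have := (em : EuclideanSpace ℝ (Fin 2) →L[ℝ] W).toLinearMap.image_convexHull {a, b, c}
  have e : (em : EuclideanSpace ℝ (Fin 2) →L[ℝ] W).toLinearMap '' {a, b, c}
      = {em a, em b, em c} := by
    rw [image_insert_eq, image_pair]
    rfl
  rw [e] at this
  exact this

lemma interior_ae {S T : Set (EuclideanSpace ℝ (Fin 2))} (hS : Convex ℝ S) (hT : Convex ℝ T) :
    (interior (S ∪ T) : Set (EuclideanSpace ℝ (Fin 2))) =ᵐ[volume] (S ∪ T : Set _) := by
  apply Filter.EventuallyLE.antisymm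
  · exact interior_subset.eventuallyLE
  · rw [ae_le_set]
    have h1 := hS.addHaar_frontier volume
    have h2 := hT.addHaar_frontier volume
    refine measure_mono_null ?_ (measure_union_null h1 h2)
    rintro x ⟨hx, hxi⟩
    rcases hx with hx | hx
    · left
      refine ⟨subset_closure hx, fun h => hxi ?_⟩
      exact interior_mono subset_union_left h
    · right
      refine ⟨subset_closure hx, fun h => hxi ?_⟩
      exact interior_mono subset_union_right h

/-- upper bound for quadrilaterals -/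
theorem quad_upper (a b c d : EuclideanSpace ℝ (Fin 2))
    (h : ((b 0 - a 0) * (c 1 - a 1) - (b 1 - a 1) * (c 0 - a 0)) *
          ((d 0 - a 0) * (c 1 - a 1) - (d 1 - a 1) * (c 0 - a 0)) < 0) :
    sInf (RQ (interior (convexHull ℝ {a, b, c} ∪ convexHull ℝ {a, c, d}))) *
            (volume
              (interior (convexHull ℝ {a, b, c} ∪ convexHull ℝ {a, c, d}))).toReal
      ≤ Real.pi^2 := by
  have hae := interior_ae (convex_convexHull ℝ {a, b, c}) (convex_convexHull ℝ {a, c, d})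
  set Ω := convexHull ℝ {a, b, c} ∪ convexHull ℝ {a, c, d} with hΩ
  have hRQ : RQ (interior Ω) = RQ Ω := by
    unfold RQ
    rw [Measure.restrict_congr_set hae]
  have hcomp : IsCompact Ω :=
    (Set.Finite.isCompact_convexHull ℝ (by simp)).union (Set.Finite.isCompact_convexHull ℝ (by simp))
  have himg : em '' Ω = tri (em a) (em b) (em c) ∪ tri (em a) (em c) (em d) := by
    rw [hΩ, image_union, image_em_tri, image_em_tri]
  have hcr : cr (em b - em a) (em c - em a) * cr (em d - em a) (em c - em a) < 0 := by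
    have : cr (em b - em a) (em c - em a) * cr (em d - em a) (em c - em a)
      = ((b 0 - a 0) * (c 1 - a 1) - (b 1 - a 1) * (c 0 - a 0)) *
          ((d 0 - a 0) * (c 1 - a 1) - (d 1 - a 1) * (c 0 - a 0)) := by
      simp only [cr, em_apply, Prod.fst_sub, Prod.snd_sub]
    rw [this]
    exact h
  rw [hRQ, measure_congr hae]
  rcases (ENNReal.toReal_nonneg (a := volume Ω)).eq_or_lt with h0 | h0
  · rw [← h0, mul_zero]
    positivity
  · have hPW := PW_of_RQ hcomp h0
    rw [himg] at hPW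
    have := quad_bound' hcr hPW
    rw [← himg, vol_em] at this
    exact this

/-- lower bound for the square -/
theorem square_lower :
    Real.pi^2 ≤ sInf (RQ {x : EuclideanSpace ℝ (Fin 2) | 0 < x 0 ∧ x 0 < 1 ∧ 0 < x 1 ∧ x 1 < 1}) := by
  set S := {x : EuclideanSpace ℝ (Fin 2) | 0 < x 0 ∧ x 0 < 1 ∧ 0 < x 1 ∧ x 1 < 1} with hS
  have himg : em '' S = Sq := by
    ext z
    constructor
    · rintro ⟨x, ⟨h1, h2, h3, h4⟩, rfl⟩
      rw [em_apply]
      exact ⟨⟨h1, h2⟩, ⟨h3, h4⟩⟩
    · rintro ⟨⟨h1, h2⟩, ⟨h3, h4⟩⟩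
      refine ⟨em.symm z, ?_, em.apply_symm_apply z⟩
      have e := em.apply_symm_apply z
      rw [em_apply] at e
      have e1 : (em.symm z) 0 = z.1 := congrArg Prod.fst e
      have e2 : (em.symm z) 1 = z.2 := congrArg Prod.snd e
      simp only [hS, mem_ofPred_eq, e1, e2]
      exact ⟨h1, h2, h3, h4⟩
  apply le_csInf
  · refine ⟨_, fun x => (em x).1 - 1/2, ?_, ?_, ?_, rfl⟩
    · exact (contDiff_fst.comp em.contDiff).sub contDiff_const
    · rw [int_em S (fun z => z.1 - 1/2), himg, int_Sq (by fun_prop)]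
      simp only [intervalIntegral.integral_const]
      norm_num [integral_id]
    · rw [int_em S (fun z => (z.1 - 1/2)^2), himg, int_Sq (by fun_prop)]
      simp only [intervalIntegral.integral_const]
      have h1 := int_sub_sq (u := fun x => x) continuous_id (1/2)
      simp only [sub_zero, one_smul]
      rw [h1]
      norm_num [integral_id]
  · rintro r hr
    have hr0 := RQ_nonneg hr
    obtain ⟨f, h1, h2, h3, hrf⟩ := hr
    obtain ⟨g, hg⟩ : ∃ g : W → ℝ, g = fun z => f (em.symm z) := ⟨_, rfl⟩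
    have hgf : ∀ x, f x = g (em x) := by
      intro x
      rw [hg]
      simp only [ContinuousLinearEquiv.symm_apply_apply]
    have hgs : ContDiff ℝ ∞ g := by
      rw [hg]
      exact h1.comp em.symm.contDiff
    have k1 : ∫ z in Sq, g z = 0 := by
      rw [← himg, ← int_em S g, ← h2]
      congr 1
      funext x
      exact (hgf x).symm
    have k2 : ∫ x in S, f x ^ 2 = ∫ z in Sq, g z ^ 2 := by
      rw [← himg, ← int_em S (fun z => g z ^ 2)]
      congr 1
      funext x
      rw [hgf x]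
    have k3 : ∫ x in S, ‖fderiv ℝ f x‖ ^ 2 = ∫ z in Sq, en 1 1 0 (fderiv ℝ g z) := by
      rw [← himg, ← int_em S (fun z => en 1 1 0 (fderiv ℝ g z))]
      congr 1
      funext x
      have h5 := fderiv_comp_em (hgs.differentiable (by simp)) 0 x
      rw [← h5]
      congr 3
      funext y
      rw [sub_zero]
      exact hgf y
    by_contra hcon
    push Not at hcon
    have hs : √r < Real.pi := (Real.sqrt_lt' Real.pi_pos).mpr hcon
    have hs0 := Real.sqrt_nonneg r
    have hθ0 : 0 < (√r + Real.pi)/2 := by linarith [Real.pi_pos]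
    have hθ1 : (√r + Real.pi)/2 < Real.pi := by linarith
    have key := sq_poincare hθ0 hθ1 hgs
    rw [k1, ← k2, ← k3] at key
    have hr2 : r < ((√r + Real.pi)/2)^2 := by
      have e1 : √r < (√r + Real.pi)/2 := by linarith
      have e2 : √r ^ 2 < ((√r + Real.pi)/2)^2 := by gcongr
      rwa [Real.sq_sqrt hr0] at e2
    rw [eq_div_iff h3.ne'] at hrf
    have := mul_lt_mul_of_pos_right hr2 h3
    linarith

end Pool.Agent.Lib.MP_03b26c_an
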