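import Mathlib
import Pool.Agent.Lib.MP_03b26c_an.OwnDefs
import Pool.Agent.Lib.MP_03b26c_an.RedE

set_option autoImplicit false

/-! A quadrilateral is cut by one of its diagonals into two triangles. -/

open MeasureTheory Set Topology

namespace Pool.Agent.Lib.MP_03b26c_an.Own

/-- twice the signed area of the triangle `p q r` -/
def Dt (p q r : E2) : ℝ := (q 0 - p 0) * (r 1 - p 1) - (q 1 - p 1) * (r 0 - p 0)

lemma polygon_rot (a b c d : E2) : polygon b c d a = polygon a b c d := by
  unfold polygon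
  ext x
  simp only [mem_union]
  tauto

lemma SimplePolygon.rot {a b c d : E2} (h : SimplePolygon a b c d) : SimplePolygon b c d a :=
  ⟨h.at_b, h.at_c, h.at_d, h.at_a, h.opp₂, h.opp₁.symm⟩

lemma Dt_rot (p q r : E2) : Dt q r p = Dt p q r := by
  unfold Dt; ring

/-- a point of a segment -/
lemma mem_seg {p q : E2} {t : ℝ} (h0 : 0 ≤ t) (h1 : t ≤ 1) {x : E2}
    (e0 : x 0 = p 0 + t * (q 0 - p 0)) (e1 : x 1 = p 1 + t * (q 1 - p 1)) :
    x ∈ segment ℝ p q := by
  refine ⟨1 - t, t, by linarith, h0, by ring, ?_⟩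
  ext i
  fin_cases i
  · simp only [Fin.zero_eta, PiLp.add_apply, PiLp.smul_apply, smul_eq_mul]
    rw [e0]; ring
  · simp only [Fin.mk_one, PiLp.add_apply, PiLp.smul_apply, smul_eq_mul]
    rw [e1]; ring

lemma seg_coord {p q x : E2} (h : x ∈ segment ℝ p q) : ∃ t : ℝ, 0 ≤ t ∧ t ≤ 1 ∧
    x 0 = p 0 + t * (q 0 - p 0) ∧ x 1 = p 1 + t * (q 1 - p 1) := by
  obtain ⟨s, t, hs, ht, hst, rfl⟩ := h
  refine ⟨t, ht, by linarith, ?_, ?_⟩
  · simp only [PiLp.add_apply, PiLp.smul_apply, smul_eq_mul]
    have : s = 1 - t := by linarith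
    rw [this]; ring
  · simp only [PiLp.add_apply, PiLp.smul_apply, smul_eq_mul]
    have : s = 1 - t := by linarith
    rw [this]; ring

lemma ext2 {x y : E2} (h0 : x 0 = y 0) (h1 : x 1 = y 1) : x = y := by
  ext i
  fin_cases i
  · exact h0
  · exact h1

/-- crossing segments -/
lemma cross {a b c d : E2} (h1 : Dt a b c * Dt a b d < 0) (h2 : Dt c d a * Dt c d b < 0) :
    ¬ Disjoint (segment ℝ a b) (segment ℝ c d) := by
  intro hd
  set p := Dt a b c with hp
  set s := Dt a b d with hs
  set q := Dt c d a with hq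
  set r := Dt c d b with hr
  have hps : p - s ≠ 0 := by
    intro h
    have : p = s := by linarith
    rw [this] at h1
    nlinarith [mul_self_nonneg s]
  have hqr : q - r ≠ 0 := by
    intro h
    have : q = r := by linarith
    rw [this] at h2
    nlinarith [mul_self_nonneg r]
  have key : ∀ {x y : ℝ}, x * y < 0 → 0 ≤ x / (x - y) ∧ x / (x - y) ≤ 1 := by
    intro x y hxy
    rcases lt_trichotomy x 0 with hx | hx | hx
    · have hy : 0 < y := by nlinarith
      constructor
      · exact div_nonneg_of_nonpos hx.le (by linarith)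
      · rw [div_le_one_of_neg (by linarith)]
        linarith
    · rw [hx] at hxy; linarith
    · have hy : y < 0 := by nlinarith
      constructor
      · exact div_nonneg hx.le (by linarith)
      · rw [div_le_one (by linarith)]
        linarith
  have kl := key h2
  have km := key h1
  set l := q / (q - r) with hl
  set m := p / (p - s) with hm
  set x : E2 := WithLp.toLp 2 ![a 0 + l * (b 0 - a 0), a 1 + l * (b 1 - a 1)] with hx
  have x0 : x 0 = a 0 + l * (b 0 - a 0) := rfl
  have x1 : x 1 = a 1 + l * (b 1 - a 1) := rfl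
  have m1 : x ∈ segment ℝ a b := mem_seg kl.1 kl.2 x0 x1
  have m2 : x ∈ segment ℝ c d := by
    refine mem_seg (t := m) km.1 km.2 ?_ ?_
    · rw [x0, hl, hm]
      field_simp
      rw [hp, hq, hr, hs]
      unfold Dt
      ring
    · rw [x1, hl, hm]
      field_simp
      rw [hp, hq, hr, hs]
      unfold Dt
      ring
  exact disjoint_left.1 hd m1 m2

lemma Dt_self (p q : E2) : Dt p q p = 0 := by unfold Dt; ring
lemma Dt_self' (p q : E2) : Dt p q q = 0 := by unfold Dt; ring
lemma Dt_swap (p q r : E2) : Dt q p r = -Dt p q r := by unfold Dt; ring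

/-- a collinear vertex lies strictly between its neighbours -/
lemma between {a b c d : E2} (h : SimplePolygon a b c d) (h0 : Dt a b c = 0) :
    ∃ t : ℝ, 0 < t ∧ t < 1 ∧ b 0 = a 0 + t * (c 0 - a 0) ∧ b 1 = a 1 + t * (c 1 - a 1) := by
  have hab : a ≠ b := by
    rintro rfl
    exact disjoint_left.1 h.opp₂ (left_mem_segment ℝ a c) (right_mem_segment ℝ d a)
  have hbc : b ≠ c := by
    rintro rfl
    exact disjoint_left.1 h.opp₁ (right_mem_segment ℝ a b) (left_mem_segment ℝ b d)
  have hac : a ≠ c := by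
    rintro rfl
    have : a ∈ segment ℝ a b ∩ segment ℝ b a := ⟨left_mem_segment ℝ a b, right_mem_segment ℝ b a⟩
    rw [h.at_b] at this
    exact hab this
  set N : ℝ := (c 0 - a 0) ^ 2 + (c 1 - a 1) ^ 2 with hN
  have hN0 : 0 < N := by
    by_contra hc
    have h1 : c 0 - a 0 = 0 := by nlinarith [sq_nonneg (c 0 - a 0), sq_nonneg (c 1 - a 1)]
    have h2 : c 1 - a 1 = 0 := by nlinarith [sq_nonneg (c 0 - a 0), sq_nonneg (c 1 - a 1)]
    exact hac (ext2 (by linarith) (by linarith))
  set t : ℝ := ((b 0 - a 0) * (c 0 - a 0) + (b 1 - a 1) * (c 1 - a 1)) / N with ht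
  have e0 : b 0 = a 0 + t * (c 0 - a 0) := by
    rw [ht]
    unfold Dt at h0
    field_simp
    rw [hN]
    linear_combination (c 1 - a 1) * h0
  have e1 : b 1 = a 1 + t * (c 1 - a 1) := by
    rw [ht]
    unfold Dt at h0
    field_simp
    rw [hN]
    linear_combination -(c 0 - a 0) * h0
  refine ⟨t, ?_, ?_, e0, e1⟩
  · by_contra hc
    push Not at hc
    have h1 : a ∈ segment ℝ b c := by
      refine mem_seg (t := -t / (1 - t)) (div_nonneg (by linarith) (by linarith)) ?_ ?_ ?_
      · rw [div_le_one (by linarith)]; linarith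
      · have : (1 - t) ≠ 0 := by linarith
        field_simp
        rw [e0]; ring
      · have : (1 - t) ≠ 0 := by linarith
        field_simp
        rw [e1]; ring
    have h2 : a ∈ segment ℝ a b ∩ segment ℝ b c := ⟨left_mem_segment ℝ a b, h1⟩
    rw [h.at_b] at h2
    exact hab h2
  · by_contra hc
    push Not at hc
    have h1 : c ∈ segment ℝ a b := by
      refine mem_seg (t := 1 / t) (by positivity) ?_ ?_ ?_
      · rw [div_le_one (by linarith)]; linarith
      · have : t ≠ 0 := by linarith
        field_simp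
        rw [e0]; ring
      · have : t ≠ 0 := by linarith
        field_simp
        rw [e1]; ring
    have h2 : c ∈ segment ℝ a b ∩ segment ℝ b c := ⟨h1, right_mem_segment ℝ b c⟩
    rw [h.at_b] at h2
    exact hbc (mem_singleton_iff.1 h2).symm

lemma zero_case {a b c d : E2} (h : SimplePolygon a b c d) (h0 : Dt a b c = 0) :
    0 < Dt b c d * Dt b d a := by
  obtain ⟨t, t0, t1, e0, e1⟩ := between h h0
  have k1 : Dt b c d = (1 - t) * Dt a c d := by
    unfold Dt; rw [e0, e1]; ring
  have k2 : Dt b d a = t * Dt a c d := by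
    unfold Dt; rw [e0, e1]; ring
  by_cases hq : Dt a c d = 0
  · exfalso
    obtain ⟨s, s0, s1, f0, f1⟩ := between h.rot.rot (by rw [Dt_rot]; exact hq)
    rcases le_total t (1 - s) with hts | hts
    · have : d ∈ segment ℝ b c := by
        refine mem_seg (t := (1 - s - t) / (1 - t)) (div_nonneg (by linarith) (by linarith)) ?_ ?_ ?_
        · rw [div_le_one (by linarith)]; linarith
        · have : (1 - t) ≠ 0 := by linarith
          field_simp
          rw [e0, f0]; ring
        · have : (1 - t) ≠ 0 := by linarith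
          field_simp
          rw [e1, f1]; ring
      exact disjoint_left.1 h.opp₂ this (left_mem_segment ℝ d a)
    · have : d ∈ segment ℝ a b := by
        refine mem_seg (t := (1 - s) / t) (div_nonneg (by linarith) (by linarith)) ?_ ?_ ?_
        · rw [div_le_one (by linarith)]; linarith
        · have : t ≠ 0 := by linarith
          field_simp
          rw [e0, f0]; ring
        · have : t ≠ 0 := by linarith
          field_simp
          rw [e1, f1]; ring
      exact disjoint_left.1 h.opp₁ this (right_mem_segment ℝ c d)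
  · rw [k1, k2]
    have : 0 < Dt a c d * Dt a c d := mul_self_pos.2 hq
    have h3 : 0 < (1 - t) * t := mul_pos (by linarith) t0
    nlinarith [mul_pos h3 this]

/-- one of the two diagonals separates the other two vertices -/
lemma diag {a b c d : E2} (h : SimplePolygon a b c d) :
    0 < Dt a b c * Dt a c d ∨ 0 < Dt b c d * Dt b d a := by
  by_contra hcon
  push Not at hcon
  obtain ⟨k1, k2⟩ := hcon
  have e1 : Dt c d a = Dt a c d := Dt_rot a c d
  have e2 : Dt d a b = Dt b d a := Dt_rot b d a
  have e3 : Dt a b d = Dt b d a := (Dt_rot a b d).symm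
  have e4 : Dt d b c = Dt b c d := (Dt_rot d b c).symm
  have e5 : Dt c a b = Dt a b c := (Dt_rot c a b).symm
  have e6 : Dt c d b = Dt b c d := Dt_rot b c d
  have e7 : Dt b c a = Dt a b c := Dt_rot a b c
  have e8 : Dt d a c = Dt a c d := by rw [← Dt_rot d a c]
  have hp : Dt a b c ≠ 0 := fun h0 => by
    have := zero_case h h0
    linarith
  have hr : Dt b c d ≠ 0 := fun h0 => by
    have := zero_case h.rot h0
    rw [e1, e5, mul_comm] at this
    linarith
  have hq : Dt a c d ≠ 0 := fun h0 => by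
    have := zero_case h.rot.rot (by rw [e1]; exact h0)
    rw [e2, e4, mul_comm] at this
    linarith
  have hs : Dt b d a ≠ 0 := fun h0 => by
    have := zero_case h.rot.rot.rot (by rw [e2]; exact h0)
    linarith
  set p := Dt a b c
  set q := Dt a c d
  set r := Dt b c d
  set s := Dt b d a
  have c1 : ¬ (p * s < 0 ∧ q * r < 0) := by
    rintro ⟨h1, h2⟩
    exact cross (a := a) (b := b) (c := c) (d := d) (by rw [e3]; exact h1)
      (by rw [e1, e6]; exact h2) h.opp₁
  have c2 : ¬ (r * p < 0 ∧ s * q < 0) := by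
    rintro ⟨h1, h2⟩
    exact cross (a := b) (b := c) (c := d) (d := a) (by rw [e7]; exact h1)
      (by rw [e2, e8]; exact h2) h.opp₂
  rcases lt_or_gt_of_ne hp with hp | hp <;> rcases lt_or_gt_of_ne hr with hr | hr
  · have hq' : 0 < q := by
      rcases lt_or_gt_of_ne hq with h | h
      · have := mul_pos_of_neg_of_neg hp h; linarith
      · exact h
    have hs' : 0 < s := by
      rcases lt_or_gt_of_ne hs with h | h
      · have := mul_pos_of_neg_of_neg hr h; linarith
      · exact h
    exact c1 ⟨mul_neg_of_neg_of_pos hp hs', mul_neg_of_pos_of_neg hq' hr⟩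
  · have hq' : 0 < q := by
      rcases lt_or_gt_of_ne hq with h | h
      · have := mul_pos_of_neg_of_neg hp h; linarith
      · exact h
    have hs' : s < 0 := by
      rcases lt_or_gt_of_ne hs with h | h
      · exact h
      · have := mul_pos hr h; linarith
    exact c2 ⟨mul_neg_of_pos_of_neg hr hp, mul_neg_of_neg_of_pos hs' hq'⟩
  · have hq' : q < 0 := by
      rcases lt_or_gt_of_ne hq with h | h
      · exact h
      · have := mul_pos hp h; linarith
    have hs' : 0 < s := by
      rcases lt_or_gt_of_ne hs with h | h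
      · have := mul_pos_of_neg_of_neg hr h; linarith
      · exact h
    exact c2 ⟨mul_neg_of_neg_of_pos hr hp, mul_neg_of_pos_of_neg hs' hq'⟩
  · have hq' : q < 0 := by
      rcases lt_or_gt_of_ne hq with h | h
      · exact h
      · have := mul_pos hp h; linarith
    have hs' : s < 0 := by
      rcases lt_or_gt_of_ne hs with h | h
      · exact h
      · have := mul_pos hr h; linarith
    exact c1 ⟨mul_neg_of_pos_of_neg hp hs', mul_neg_of_neg_of_pos hq' hr⟩

/-- half-planes are convex -/
lemma half_convex (p q : E2) : Convex ℝ {x : E2 | 0 ≤ Dt p q x} := by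
  intro x hx y hy s t hs ht hst
  have e : Dt p q (s • x + t • y) = s * Dt p q x + t * Dt p q y := by
    unfold Dt
    simp only [PiLp.add_apply, PiLp.smul_apply, smul_eq_mul]
    have : s = 1 - t := by linarith
    rw [this]; ring
  show 0 ≤ Dt p q (s • x + t • y)
  rw [e]
  exact add_nonneg (mul_nonneg hs hx) (mul_nonneg ht hy)

lemma tri_half {p q u v w : E2} (hu : 0 ≤ Dt p q u) (hv : 0 ≤ Dt p q v) (hw : 0 ≤ Dt p q w) :
    convexHull ℝ {u, v, w} ⊆ {x : E2 | 0 ≤ Dt p q x} := by
  refine convexHull_min ?_ (half_convex p q)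
  intro x hx
  rcases hx with rfl | rfl | rfl
  · exact hu
  · exact hv
  · exact hw

/-- the interior of a subset of a closed half-plane lies in the open half-plane -/
lemma int_half {p q x : E2} {S : Set E2} (hpq : p ≠ q) (hS : S ⊆ {x : E2 | 0 ≤ Dt p q x})
    (hx : x ∈ interior S) : 0 < Dt p q x := by
  have h0 : 0 ≤ Dt p q x := hS (interior_subset hx)
  rcases h0.eq_or_lt with h1 | h1
  swap
  · exact h1
  exfalso
  set v : E2 := WithLp.toLp 2 ![q 1 - p 1, -(q 0 - p 0)] with hv
  have v0 : v 0 = q 1 - p 1 := rfl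
  have v1 : v 1 = -(q 0 - p 0) := rfl
  have hc : Continuous fun δ : ℝ => x + δ • v := by fun_prop
  have h2 : (fun δ : ℝ => x + δ • v) ⁻¹' interior S ∈ 𝓝 (0 : ℝ) := by
    refine hc.continuousAt.preimage_mem_nhds ?_
    simpa using isOpen_interior.mem_nhds hx
  obtain ⟨δ, hδ0, hδ⟩ : ∃ δ : ℝ, 0 < δ ∧ x + δ • v ∈ interior S := by
    obtain ⟨ε, hε, hb⟩ := Metric.mem_nhds_iff.1 h2
    refine ⟨ε / 2, by linarith, hb ?_⟩
    rw [Metric.mem_ball, dist_zero_right, Real.norm_eq_abs, abs_of_pos (by linarith)]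
    linarith
  have h3 : 0 ≤ Dt p q (x + δ • v) := hS (interior_subset hδ)
  have h4 : Dt p q (x + δ • v) = Dt p q x - δ * ((q 0 - p 0) ^ 2 + (q 1 - p 1) ^ 2) := by
    unfold Dt
    simp only [PiLp.add_apply, PiLp.smul_apply, smul_eq_mul]
    rw [v0, v1]; ring
  have h5 : 0 < (q 0 - p 0) ^ 2 + (q 1 - p 1) ^ 2 := by
    by_contra hcon
    have g1 : q 0 - p 0 = 0 := by nlinarith [sq_nonneg (q 0 - p 0), sq_nonneg (q 1 - p 1)]
    have g2 : q 1 - p 1 = 0 := by nlinarith [sq_nonneg (q 0 - p 0), sq_nonneg (q 1 - p 1)]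
    exact hpq (ext2 (by linarith) (by linarith))
  rw [h4, ← h1] at h3
  have := mul_pos hδ0 h5
  linarith

lemma Dt_seg {p q x : E2} (h : x ∈ segment ℝ p q) : Dt p q x = 0 := by
  obtain ⟨t, _, _, e0, e1⟩ := seg_coord h
  unfold Dt
  rw [e0, e1]; ring

lemma ne_of_Dt {p q r : E2} (h : Dt p q r ≠ 0) : p ≠ q := by
  rintro rfl
  apply h
  unfold Dt; ring

lemma seg_tri₁ (u v w : E2) : segment ℝ u v ⊆ convexHull ℝ {u, v, w} :=
  segment_subset_convexHull (by simp) (by simp)
lemma seg_tri₂ (u v w : E2) : segment ℝ v w ⊆ convexHull ℝ {u, v, w} :=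
  segment_subset_convexHull (by simp) (by simp)
lemma seg_tri₃ (u v w : E2) : segment ℝ w u ⊆ convexHull ℝ {u, v, w} :=
  segment_subset_convexHull (by simp) (by simp)
lemma seg_tri₄ (u v w : E2) : segment ℝ u w ⊆ convexHull ℝ {u, v, w} :=
  segment_subset_convexHull (by simp) (by simp)

/-- a nondegenerate triangle has non-empty interior -/
lemma tri_int {u v w : E2} (h : Dt u v w ≠ 0) : (interior (convexHull ℝ {u, v, w})).Nonempty := by
  by_contra hcon
  rw [not_nonempty_iff_eq_empty] at hcon
  have hz : volume (convexHull ℝ {u, v, w} : Set E2) = 0 := by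
    have h1 := (convex_convexHull ℝ ({u, v, w} : Set E2)).addHaar_frontier volume
    have hcl : IsClosed (convexHull ℝ ({u, v, w} : Set E2)) :=
      (Set.Finite.isCompact_convexHull ℝ (by simp)).isClosed
    rwa [hcl.frontier_eq, hcon, sdiff_empty] at h1
  have h2 : (volume (tri (em u) (em v) (em w))).toReal = 0 := by
    rw [← image_em_tri, vol_em, hz]
    rfl
  have h3 : cr (em v - em u) (em w - em u) = Dt u v w := by
    simp only [cr, em_apply, Prod.fst_sub, Prod.snd_sub]
    unfold Dt
    ring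
  rw [tri_area (by rw [h3]; exact h), h3] at h2
  have := abs_pos.2 h
  linarith

/-- connected sets do not cross the boundary -/
lemma in_or_out {Ω C : Set E2} (hΩ : IsOpen Ω) (hC : IsPreconnected C)
    (h : Disjoint C (frontier Ω)) : C ⊆ Ω ∨ Disjoint C Ω := by
  have hsub : C ⊆ Ω ∪ (closure Ω)ᶜ := by
    intro x hx
    by_cases hx1 : x ∈ closure Ω
    · left
      by_contra hx2
      refine disjoint_left.1 h hx ?_
      rw [hΩ.frontier_eq]
      exact ⟨hx1, hx2⟩
    · exact Or.inr hx1
  have hd : Disjoint Ω (closure Ω)ᶜ := disjoint_left.2 fun x hx hx' => hx' (subset_closure hx)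
  rcases hC.subset_or_subset hΩ (isClosed_closure (s := Ω)).isOpen_compl hd hsub with h1 | h1
  · exact Or.inl h1
  · exact Or.inr (disjoint_left.2 fun x hx hx' => h1 hx (subset_closure hx'))

/-- the region enclosed, positive orientation -/
lemma region {a b c d : E2} (h1 : 0 < Dt a b c) (h2 : 0 < Dt a c d) {Ω : Set E2} (hΩ : IsOpen Ω)
    (hb : Bornology.IsBounded Ω) (hne : Ω.Nonempty) (hf : frontier Ω = polygon a b c d) :
    Ω ⊆ convexHull ℝ {a, b, c} ∪ convexHull ℝ {a, c, d} ∧
    interior (convexHull ℝ {a, b, c}) ⊆ Ω ∧ interior (convexHull ℝ {a, c, d}) ⊆ Ω := by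
  set T₁ : Set E2 := convexHull ℝ {a, b, c} with hT₁
  set T₂ : Set E2 := convexHull ℝ {a, c, d} with hT₂
  have hPT : polygon a b c d ⊆ T₁ ∪ T₂ := by
    rintro x (((hx | hx) | hx) | hx)
    · exact Or.inl (seg_tri₁ a b c hx)
    · exact Or.inl (seg_tri₂ a b c hx)
    · exact Or.inr (seg_tri₂ a c d hx)
    · exact Or.inr (seg_tri₃ a c d hx)
  have hac : a ≠ c := ne_of_Dt h2.ne'
  have e1 : Dt b c a = Dt a b c := Dt_rot a b c
  have e2 : Dt c a b = Dt a b c := (Dt_rot c a b).symm
  have e3 : Dt c d a = Dt a c d := Dt_rot a c d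
  have e4 : Dt d a c = Dt a c d := (Dt_rot d a c).symm
  have s11 : T₁ ⊆ {x | 0 ≤ Dt a b x} := tri_half (Dt_self a b).ge (Dt_self' a b).ge h1.le
  have s12 : T₁ ⊆ {x | 0 ≤ Dt b c x} := tri_half (by rw [e1]; exact h1.le) (Dt_self b c).ge
    (Dt_self' b c).ge
  have s13 : T₁ ⊆ {x | 0 ≤ Dt c a x} := tri_half (Dt_self' c a).ge (by rw [e2]; exact h1.le)
    (Dt_self c a).ge
  have s21 : T₂ ⊆ {x | 0 ≤ Dt a c x} := tri_half (Dt_self a c).ge (Dt_self' a c).ge h2.le
  have s22 : T₂ ⊆ {x | 0 ≤ Dt c d x} := tri_half (by rw [e3]; exact h2.le) (Dt_self c d).ge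
    (Dt_self' c d).ge
  have s23 : T₂ ⊆ {x | 0 ≤ Dt d a x} := tri_half (Dt_self' d a).ge (by rw [e4]; exact h2.le)
    (Dt_self d a).ge
  have nab : a ≠ b := ne_of_Dt h1.ne'
  have nbc : b ≠ c := ne_of_Dt (r := a) (by rw [e1]; exact h1.ne')
  have ncd : c ≠ d := ne_of_Dt (r := a) (by rw [e3]; exact h2.ne')
  have nda : d ≠ a := ne_of_Dt (r := c) (by rw [e4]; exact h2.ne')
  -- the interiors of the triangles do not meet the polygon
  have d1 : Disjoint (interior T₁) (frontier Ω) := by
    rw [hf, disjoint_left]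
    intro x hx hxP
    have g3 := int_half hac.symm s13 hx
    rcases hxP with ((hx1 | hx1) | hx1) | hx1
    · have := int_half nab s11 hx
      rw [Dt_seg hx1] at this
      exact lt_irrefl _ this
    · have := int_half nbc s12 hx
      rw [Dt_seg hx1] at this
      exact lt_irrefl _ this
    · have g4 : 0 ≤ Dt a c x := s21 (seg_tri₂ a c d hx1)
      rw [Dt_swap c a x] at g4
      linarith
    · have g4 : 0 ≤ Dt a c x := s21 (seg_tri₃ a c d hx1)
      rw [Dt_swap c a x] at g4
      linarith
  have d2 : Disjoint (interior T₂) (frontier Ω) := by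
    rw [hf, disjoint_left]
    intro x hx hxP
    have g3 := int_half hac s21 hx
    rcases hxP with ((hx1 | hx1) | hx1) | hx1
    · have g4 : 0 ≤ Dt c a x := s13 (seg_tri₁ a b c hx1)
      rw [Dt_swap a c x] at g4
      linarith
    · have g4 : 0 ≤ Dt c a x := s13 (seg_tri₂ a b c hx1)
      rw [Dt_swap a c x] at g4
      linarith
    · have := int_half ncd s22 hx
      rw [Dt_seg hx1] at this
      exact lt_irrefl _ this
    · have := int_half nda s23 hx
      rw [Dt_seg hx1] at this
      exact lt_irrefl _ this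
  -- the midpoint of the diagonal
  obtain ⟨m, hm⟩ : ∃ m : E2, m = (1 / 2 : ℝ) • a + (1 / 2 : ℝ) • c := ⟨_, rfl⟩
  have m0 : m 0 = a 0 + 1 / 2 * (c 0 - a 0) := by
    rw [hm]; simp only [PiLp.add_apply, PiLp.smul_apply, smul_eq_mul]; ring
  have m1 : m 1 = a 1 + 1 / 2 * (c 1 - a 1) := by
    rw [hm]; simp only [PiLp.add_apply, PiLp.smul_apply, smul_eq_mul]; ring
  have hms : m ∈ segment ℝ a c := mem_seg (t := 1 / 2) (by norm_num) (by norm_num) m0 m1
  have hm1 : m ∈ T₁ := seg_tri₄ a b c hms
  have hm2 : m ∈ T₂ := seg_tri₁ a c d hms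
  have hmP : m ∉ frontier Ω := by
    rw [hf]
    have k1 : Dt a b m = 1 / 2 * Dt a b c := by unfold Dt; rw [m0, m1]; ring
    have k2 : Dt b c m = 1 / 2 * Dt a b c := by unfold Dt; rw [m0, m1]; ring
    have k3 : Dt c d m = 1 / 2 * Dt a c d := by unfold Dt; rw [m0, m1]; ring
    have k4 : Dt d a m = 1 / 2 * Dt a c d := by unfold Dt; rw [m0, m1]; ring
    rintro (((hx | hx) | hx) | hx)
    · rw [Dt_seg hx] at k1; linarith
    · rw [Dt_seg hx] at k2; linarith
    · rw [Dt_seg hx] at k3; linarith
    · rw [Dt_seg hx] at k4; linarith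
  -- the rays from the midpoint
  have hsub : Ω ⊆ T₁ ∪ T₂ := by
    intro x hx
    by_contra hxT
    have hxm : x ≠ m := by
      rintro rfl
      exact hxT (Or.inl hm1)
    set ray : ℝ → E2 := fun t => m + t • (x - m) with hray
    have hrc : IsPreconnected (ray '' Ici 1) :=
      isPreconnected_Ici.image ray (by fun_prop : Continuous ray).continuousOn
    have hstar : ∀ {S : Set E2}, Convex ℝ S → m ∈ S → x ∉ S → ∀ t : ℝ, 1 ≤ t → ray t ∉ S := by
      intro S hS hmS hxS t ht hy
      apply hxS
      have h3 := hS hmS hy (a := 1 - 1 / t) (b := 1 / t)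
        (by rw [sub_nonneg, div_le_one (by linarith)]; exact ht) (by positivity) (by ring)
      have h4 : (1 - 1 / t) • m + (1 / t) • ray t = x := by
        simp only [hray]
        rw [smul_add, smul_smul, one_div_mul_cancel (by linarith : t ≠ 0), one_smul, sub_smul,
          one_smul]
        abel
      rwa [h4] at h3
    have hrd : Disjoint (ray '' Ici 1) (frontier Ω) := by
      rw [disjoint_left]
      rintro _ ⟨t, ht, rfl⟩ hy
      rw [hf] at hy
      rcases hPT hy with h3 | h3
      · exact hstar (convex_convexHull ℝ _) hm1 (fun h => hxT (Or.inl h)) t ht h3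
      · exact hstar (convex_convexHull ℝ _) hm2 (fun h => hxT (Or.inr h)) t ht h3
    have hx1 : x ∈ ray '' Ici 1 := ⟨1, self_mem_Ici, by simp [hray]⟩
    rcases in_or_out hΩ hrc hrd with h3 | h3
    · obtain ⟨R, hR⟩ := hb.exists_norm_le
      have hpos : 0 < ‖x - m‖ := norm_pos_iff.2 (sub_ne_zero.2 hxm)
      obtain ⟨t, ht⟩ : ∃ t : ℝ, t = 1 + (|R| + ‖m‖) / ‖x - m‖ := ⟨_, rfl⟩
      have ht1 : 1 ≤ t := by
        rw [ht]
        have : 0 ≤ (|R| + ‖m‖) / ‖x - m‖ := by positivity
        linarith
      have h4 := hR (ray t) (h3 ⟨t, ht1, rfl⟩)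
      have h5 : t * ‖x - m‖ - ‖m‖ ≤ ‖ray t‖ := by
        have h6 : t • (x - m) = ray t - m := by simp [hray]
        have h7 : t * ‖x - m‖ = ‖ray t - m‖ := by
          rw [← h6, norm_smul, Real.norm_eq_abs, abs_of_nonneg (by linarith)]
        have h8 := norm_sub_le (ray t) m
        linarith
      have h6 : t * ‖x - m‖ = ‖x - m‖ + (|R| + ‖m‖) := by
        rw [ht]; field_simp
      have := le_abs_self R
      linarith
    · exact disjoint_left.1 h3 hx1 hx
  have c1 := in_or_out hΩ ((convex_convexHull ℝ ({a, b, c} : Set E2)).interior.isPreconnected) d1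
  have c2 := in_or_out hΩ ((convex_convexHull ℝ ({a, c, d} : Set E2)).interior.isPreconnected) d2
  -- one of the triangles is inside
  have hcl1 : m ∈ closure (interior T₁) := by
    rw [(convex_convexHull ℝ ({a, b, c} : Set E2)).closure_interior_eq_closure_of_nonempty_interior
      (tri_int h1.ne')]
    exact subset_closure hm1
  have hcl2 : m ∈ closure (interior T₂) := by
    rw [(convex_convexHull ℝ ({a, c, d} : Set E2)).closure_interior_eq_closure_of_nonempty_interior
      (tri_int h2.ne')]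
    exact subset_closure hm2
  have hmΩ : (interior T₁ ⊆ Ω ∨ interior T₂ ⊆ Ω) → m ∈ Ω := by
    intro h3
    have h4 : m ∈ closure Ω := by
      rcases h3 with h3 | h3
      · exact closure_mono h3 hcl1
      · exact closure_mono h3 hcl2
    by_contra h5
    apply hmP
    rw [hΩ.frontier_eq]
    exact ⟨h4, h5⟩
  have hboth : m ∈ Ω → interior T₁ ⊆ Ω ∧ interior T₂ ⊆ Ω := by
    intro h3
    constructor
    · rcases c1 with h4 | h4
      · exact h4
      · obtain ⟨y, hy1, hy2⟩ := mem_closure_iff.1 hcl1 Ω hΩ h3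
        exact absurd hy1 (disjoint_left.1 h4 hy2)
    · rcases c2 with h4 | h4
      · exact h4
      · obtain ⟨y, hy1, hy2⟩ := mem_closure_iff.1 hcl2 Ω hΩ h3
        exact absurd hy1 (disjoint_left.1 h4 hy2)
  have hone : interior T₁ ⊆ Ω ∨ interior T₂ ⊆ Ω := by
    by_contra hcon
    push Not at hcon
    have h3 := c1.resolve_left hcon.1
    have h4 := c2.resolve_left hcon.2
    have h5 : Ω ⊆ frontier T₁ ∪ frontier T₂ := by
      intro x hx
      rcases hsub hx with h6 | h6
      · left
        exact ⟨subset_closure h6, fun h7 => disjoint_left.1 h3 h7 hx⟩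
      · right
        exact ⟨subset_closure h6, fun h7 => disjoint_left.1 h4 h7 hx⟩
    have h6 : volume Ω = 0 := by
      refine measure_mono_null h5 (measure_union_null ?_ ?_)
      · exact (convex_convexHull ℝ ({a, b, c} : Set E2)).addHaar_frontier volume
      · exact (convex_convexHull ℝ ({a, c, d} : Set E2)).addHaar_frontier volume
    exact (hΩ.measure_pos volume hne).ne' h6
  exact ⟨hsub, hboth (hmΩ hone)⟩

end Pool.Agent.Lib.MP_03b26c_an.Own
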