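import Mathlib
import Pool.Agent.Lib.MP_03b26c_an.OwnGeom

set_option autoImplicit false

/-! Smooth functions belong to the Sobolev space; the upper bound. -/

open MeasureTheory Set Topology
open scoped ContDiff

namespace Pool.Agent.Lib.MP_03b26c_an.Own

/-- a quadrilateral is, up to a null set, the union of two triangles -/
lemma cut {Ω : Set E2} (h : IsQuadrilateral Ω) : ∃ a b c d : E2, 0 < Dt a b c * Dt a c d ∧
    (Ω : Set E2) =ᵐ[volume] (convexHull ℝ {a, b, c} ∪ convexHull ℝ {a, c, d} : Set E2) := by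
  obtain ⟨hΩ, hb, hne, a, b, c, d, hs, hf⟩ := h
  have key : ∀ {a b c d : E2}, 0 < Dt a b c → 0 < Dt a c d → frontier Ω = polygon a b c d →
      (Ω : Set E2) =ᵐ[volume] (convexHull ℝ {a, b, c} ∪ convexHull ℝ {a, c, d} : Set E2) := by
    intro a b c d h1 h2 hf
    obtain ⟨k1, k2, k3⟩ := region h1 h2 hΩ hb hne hf
    refine Filter.EventuallyLE.antisymm k1.eventuallyLE ?_
    rw [ae_le_set]
    have h5 : (convexHull ℝ {a, b, c} ∪ convexHull ℝ {a, c, d} : Set E2) \ Ω ⊆
        frontier (convexHull ℝ {a, b, c}) ∪ frontier (convexHull ℝ {a, c, d}) := by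
      rintro x ⟨h6 | h6, hx⟩
      · left
        exact ⟨subset_closure h6, fun h7 => hx (k2 h7)⟩
      · right
        exact ⟨subset_closure h6, fun h7 => hx (k3 h7)⟩
    exact measure_mono_null h5 (measure_union_null
      ((convex_convexHull ℝ ({a, b, c} : Set E2)).addHaar_frontier volume)
      ((convex_convexHull ℝ ({a, c, d} : Set E2)).addHaar_frontier volume))
  have key2 : ∀ {a b c d : E2}, 0 < Dt a b c * Dt a c d → frontier Ω = polygon a b c d →
      (Ω : Set E2) =ᵐ[volume] (convexHull ℝ {a, b, c} ∪ convexHull ℝ {a, c, d} : Set E2) := by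
    intro a b c d h1 hf
    rcases pos_and_pos_or_neg_and_neg_of_mul_pos h1 with ⟨h2, h3⟩ | ⟨h2, h3⟩
    · exact key h2 h3 hf
    · have h4 : 0 < Dt a d c := by
        have : Dt a d c = -Dt a c d := by unfold Dt; ring
        rw [this]; linarith
      have h5 : 0 < Dt a c b := by
        have : Dt a c b = -Dt a b c := by unfold Dt; ring
        rw [this]; linarith
      have h6 : frontier Ω = polygon a d c b := by
        rw [hf]
        unfold polygon
        rw [segment_symm ℝ a d, segment_symm ℝ d c, segment_symm ℝ c b, segment_symm ℝ b a]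
        ext x
        simp only [mem_union]
        tauto
      have h7 := key h4 h5 h6
      have e1 : ({a, c, b} : Set E2) = {a, b, c} := by rw [pair_comm]
      have e2 : ({a, d, c} : Set E2) = {a, c, d} := by rw [pair_comm]
      rw [union_comm, e1, e2] at h7
      exact h7
  rcases diag hs with h1 | h1
  · exact ⟨a, b, c, d, h1, key2 h1 hf⟩
  · exact ⟨b, c, d, a, h1, key2 h1 (by rw [polygon_rot]; exact hf)⟩

/-- restrictions of smooth functions belong to the Sobolev space -/
lemma isH1_smooth {Ω : Set E2} (hΩ : MeasurableSet Ω) (hb : Bornology.IsBounded Ω) {f : E2 → ℝ}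
    (hf : ContDiff ℝ ∞ f) : IsH1 Ω f (gradient f) := by
  have hfd : Continuous fun x => fderiv ℝ f x := hf.continuous_fderiv (by simp)
  have hgc : Continuous (gradient f) :=
    (InnerProductSpace.toDual ℝ E2).symm.continuous.comp hfd
  obtain ⟨R, hR⟩ := hb.subset_closedBall 0
  have hcomp : IsCompact (Metric.closedBall (0 : E2) R) := isCompact_closedBall 0 R
  have hfin : IsFiniteMeasure (volume.restrict Ω) :=
    ⟨by rw [Measure.restrict_apply_univ]; exact hb.measure_lt_top⟩
  obtain ⟨K, hK⟩ := hcomp.exists_bound_of_continuousOn hf.continuous.continuousOn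
  obtain ⟨K', hK'⟩ := hcomp.exists_bound_of_continuousOn hgc.continuousOn
  refine ⟨?_, ?_, ?_⟩
  · refine MemLp.of_bound hf.continuous.aestronglyMeasurable K ?_
    filter_upwards [ae_restrict_mem hΩ] with x hx
    exact hK x (hR hx)
  · refine MemLp.of_bound hgc.aestronglyMeasurable K' ?_
    filter_upwards [ae_restrict_mem hΩ] with x hx
    exact hK' x (hR hx)
  · intro φ hφ hφc hφs v
    have hφd : Continuous fun x => fderiv ℝ φ x v :=
      (hφ.continuous_fderiv (by simp)).clm_apply continuous_const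
    have hfv : Continuous fun x => fderiv ℝ f x v := hfd.clm_apply continuous_const
    have hc' : HasCompactSupport fun x => fderiv ℝ φ x v := hφc.fderiv_apply ℝ v
    have e1 : ∀ x, inner ℝ (gradient f x) v = fderiv ℝ f x v := by
      intro x
      unfold gradient
      rw [InnerProductSpace.toDual_symm_apply]
    simp only [e1]
    have s1 : ∫ x in Ω, f x * fderiv ℝ φ x v = ∫ x, f x * fderiv ℝ φ x v := by
      refine setIntegral_eq_integral_of_forall_compl_eq_zero fun x hx => ?_
      have : fderiv ℝ φ x = 0 := by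
        have h2 : x ∉ tsupport φ := fun h => hx (hφs h)
        have h3 : x ∉ tsupport (fderiv ℝ φ) := fun h => h2 (tsupport_fderiv_subset ℝ h)
        exact image_eq_zero_of_notMem_tsupport h3
      rw [this]; simp
    have s2 : ∫ x in Ω, fderiv ℝ f x v * φ x = ∫ x, fderiv ℝ f x v * φ x := by
      refine setIntegral_eq_integral_of_forall_compl_eq_zero fun x hx => ?_
      rw [image_eq_zero_of_notMem_tsupport (fun h => hx (hφs h)), mul_zero]
    rw [s1, s2]
    refine integral_mul_fderiv_eq_neg_fderiv_mul_of_integrable ?_ ?_ ?_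
      (fun x _ => (hf.differentiable (by simp)) x) (fun x _ => (hφ.differentiable (by simp)) x)
    · exact (hfv.mul hφ.continuous).integrable_of_hasCompactSupport hφc.mul_left
    · exact (hf.continuous.mul hφd).integrable_of_hasCompactSupport hc'.mul_left
    · exact (hf.continuous.mul hφ.continuous).integrable_of_hasCompactSupport hφc.mul_left

lemma norm_gradient (f : E2 → ℝ) (x : E2) : ‖gradient f x‖ = ‖fderiv ℝ f x‖ := by
  unfold gradient
  exact LinearIsometryEquiv.norm_map _ _

lemma quot_bdd (Ω : Set E2) : BddBelow {r : ℝ | ∃ (u : E2 → ℝ) (g : E2 → E2), IsH1 Ω u g ∧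
    ∫ x in Ω, u x = 0 ∧ 0 < ∫ x in Ω, u x ^ 2 ∧
    r = (∫ x in Ω, ‖g x‖ ^ 2) / ∫ x in Ω, u x ^ 2} := by
  refine ⟨0, ?_⟩
  rintro r ⟨u, g, _, _, h, rfl⟩
  exact div_nonneg (integral_nonneg fun x => by positivity) h.le

/-- smooth functions on a bounded open set: a nonconstant one with mean value zero -/
lemma RQ_nonempty {Ω : Set E2} (hΩ : IsOpen Ω) (hb : Bornology.IsBounded Ω) (hne : Ω.Nonempty) :
    (RQ Ω).Nonempty := by
  have hfin : IsFiniteMeasure (volume.restrict Ω) :=
    ⟨by rw [Measure.restrict_apply_univ]; exact hb.measure_lt_top⟩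
  have hV : 0 < volume.real Ω :=
    ENNReal.toReal_pos (hΩ.measure_pos volume hne).ne' hb.measure_lt_top.ne
  obtain ⟨R, hR⟩ := hb.subset_closedBall 0
  have hint : ∀ {h : E2 → ℝ}, Continuous h → IntegrableOn h Ω := fun hh =>
    (hh.continuousOn.integrableOn_compact (isCompact_closedBall 0 R)).mono_set hR
  set m : ℝ := (∫ x in Ω, x 0) / volume.real Ω with hm
  have hc : Continuous fun x : E2 => x 0 := by fun_prop
  refine ⟨_, fun x => x 0 - m, by fun_prop, ?_, ?_, rfl⟩
  · rw [integral_sub (hint hc) (integrable_const _)]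
    simp only [integral_const, smul_eq_mul, measureReal_restrict_apply_univ]
    rw [hm]
    field_simp
    ring
  · have h2 : Continuous fun x : E2 => (x 0 - m) ^ 2 := by fun_prop
    rw [setIntegral_pos_iff_support_of_nonneg_ae
      (Filter.Eventually.of_forall fun x => sq_nonneg _) (hint h2)]
    have ho : IsOpen (Function.support (fun x : E2 => (x 0 - m) ^ 2) ∩ Ω) :=
      h2.isOpen_support.inter hΩ
    refine ho.measure_pos volume ?_
    obtain ⟨p, hp⟩ := hne
    by_cases h3 : p 0 = m
    · obtain ⟨ε, hε, hball⟩ := Metric.isOpen_iff.1 hΩ p hp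
      refine ⟨p + (ε / 2) • EuclideanSpace.single 0 1, ?_, hball ?_⟩
      · rw [Function.mem_support]
        have : (p + (ε / 2) • EuclideanSpace.single (0 : Fin 2) (1 : ℝ)) 0 - m = ε / 2 := by
          simp [h3]
        rw [this]
        positivity
      · rw [Metric.mem_ball, dist_eq_norm, add_sub_cancel_left, norm_smul,
          PiLp.norm_single, norm_one, mul_one, Real.norm_eq_abs,
          abs_of_pos (by linarith)]
        linarith
    · refine ⟨p, ?_, hp⟩
      rw [Function.mem_support]
      exact pow_ne_zero 2 (sub_ne_zero.2 h3)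

lemma mu1_le_RQ {Ω : Set E2} (hΩ : IsOpen Ω) (hb : Bornology.IsBounded Ω) (hne : Ω.Nonempty) :
    mu1 Ω ≤ sInf (RQ Ω) := by
  refine le_csInf (RQ_nonempty hΩ hb hne) ?_
  rintro r ⟨f, h1, h2, h3, rfl⟩
  refine csInf_le (quot_bdd Ω) ⟨f, gradient f, isH1_smooth hΩ.measurableSet hb h1, h2, h3, ?_⟩
  simp only [norm_gradient]

/-- the upper bound -/
theorem upper {Ω : Set E2} (h : IsQuadrilateral Ω) :
    (volume Ω).toReal * mu1 Ω ≤ Real.pi ^ 2 := by
  obtain ⟨a, b, c, d, h1, h2⟩ := cut h
  obtain ⟨hΩ, hb, hne, _⟩ := h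
  have h3 := mu1_le_RQ hΩ hb hne
  have h4 := quad_upper a b c d (by
    have : Dt a b c * Dt a c d = -(((b 0 - a 0) * (c 1 - a 1) - (b 1 - a 1) * (c 0 - a 0)) *
          ((d 0 - a 0) * (c 1 - a 1) - (d 1 - a 1) * (c 0 - a 0))) := by
      unfold Dt; ring
    linarith)
  have h5 := interior_ae (convex_convexHull ℝ {a, b, c}) (convex_convexHull ℝ {a, c, d})
  have h6 := h2.trans h5.symm
  have h7 : RQ (interior (convexHull ℝ {a, b, c} ∪ convexHull ℝ {a, c, d})) = RQ Ω := by
    unfold RQ
    rw [Measure.restrict_congr_set h6]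
  rw [h7, ← measure_congr h6] at h4
  calc (volume Ω).toReal * mu1 Ω ≤ (volume Ω).toReal * sInf (RQ Ω) := by gcongr
    _ ≤ _ := by rw [mul_comm]; exact h4

end Pool.Agent.Lib.MP_03b26c_an.Own
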