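import Mathlib
import Pool.Agent.Lib.MP_03b26c_an.OwnH1

set_option autoImplicit false

/-! The sharp Poincaré inequality on the unit square for Sobolev functions. -/

open MeasureTheory Set Topology Filter ContinuousLinearMap
open scoped ContDiff Convolution

namespace Pool.Agent.Lib.MP_03b26c_an.Own

noncomputable def rr (n : ℕ) : ℝ := 1 / ((n : ℝ) + 3)

lemma rr_pos (n : ℕ) : 0 < rr n := by unfold rr; positivity

lemma rr_le (n : ℕ) : rr n ≤ 1 / 3 := by
  unfold rr
  apply one_div_le_one_div_of_le (by norm_num)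
  have := (Nat.cast_nonneg n : (0 : ℝ) ≤ n)
  linarith

lemma rr_tendsto : Tendsto rr atTop (𝓝 0) := by
  have h := tendsto_one_div_add_atTop_nhds_zero_nat (𝕜 := ℝ)
  have h2 := (tendsto_add_atTop_iff_nat 2).mpr h
  refine h2.congr (fun n => ?_)
  unfold rr
  push_cast
  congr 1
  ring

noncomputable def bp (n : ℕ) : ContDiffBump (0 : E2) where
  rIn := rr n / 2
  rOut := rr n
  rIn_pos := by have := rr_pos n; positivity
  rIn_lt_rOut := by have := rr_pos n; linarith

/-- the mollifier -/
noncomputable def rho (n : ℕ) : E2 → ℝ := (bp n).normed volume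

/-- mollification -/
noncomputable def mo (u : E2 → ℝ) (n : ℕ) : E2 → ℝ := rho n ⋆[lsmul ℝ ℝ, volume] u

lemma rho_cont (n : ℕ) : Continuous (rho n) := (bp n).continuous_normed
lemma rho_nonneg (n : ℕ) (x : E2) : 0 ≤ rho n x := (bp n).nonneg_normed x
lemma rho_smooth (n : ℕ) : ContDiff ℝ ∞ (rho n) := (bp n).contDiff_normed
lemma rho_comp (n : ℕ) : HasCompactSupport (rho n) := (bp n).hasCompactSupport_normed
lemma rho_int (n : ℕ) : ∫ x, rho n x = 1 := (bp n).integral_normed
lemma rho_integrable (n : ℕ) : Integrable (rho n) := (bp n).integrable_normed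
lemma rho_tsupport (n : ℕ) : tsupport (rho n) = Metric.closedBall 0 (rr n) :=
  (bp n).tsupport_normed_eq

lemma mo_apply (u : E2 → ℝ) (n : ℕ) (x : E2) : mo u n x = ∫ y, rho n (x - y) * u y := by
  unfold mo
  rw [convolution_eq_swap]
  rfl

lemma mo_smooth {u : E2 → ℝ} (hu : LocallyIntegrable u volume) (n : ℕ) :
    ContDiff ℝ ∞ (mo u n) :=
  (rho_comp n).contDiff_convolution_left _ (rho_smooth n) hu

lemma rho_bound (n : ℕ) : ∃ K : ℝ, ∀ x, ‖rho n x‖ ≤ K :=
  (rho_comp n).exists_bound_of_continuous (rho_cont n)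

lemma int_rho {k : E2 → ℝ} (hk : Integrable k) (n : ℕ) (x : E2) :
    Integrable fun y => rho n (x - y) * k y := by
  obtain ⟨K, hK⟩ := rho_bound n
  exact hk.bdd_mul (c := K) ((rho_cont n).comp (by fun_prop)).aestronglyMeasurable
    (Filter.Eventually.of_forall fun y => hK _)

lemma int_rho_one (n : ℕ) (x : E2) : ∫ y, rho n (x - y) = 1 := by
  rw [integral_sub_left_eq_self (rho n) volume x, rho_int]

/-- Jensen's inequality -/
lemma jensen {k : E2 → ℝ} (hk : Integrable k) (hk2 : Integrable fun y => k y ^ 2) (n : ℕ)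
    (x : E2) : (∫ y, rho n (x - y) * k y) ^ 2 ≤ ∫ y, rho n (x - y) * k y ^ 2 := by
  set c := ∫ y, rho n (x - y) * k y with hc
  have i1 := int_rho hk n x
  have i2 := int_rho hk2 n x
  have i3 : Integrable fun y => rho n (x - y) := (rho_integrable n).comp_sub_left x
  have h0 : 0 ≤ ∫ y, rho n (x - y) * (k y - c) ^ 2 :=
    integral_nonneg fun y => mul_nonneg (rho_nonneg n _) (sq_nonneg _)
  have h1 : ∫ y, rho n (x - y) * (k y - c) ^ 2 =
      (∫ y, rho n (x - y) * k y ^ 2) - 2 * c * c + c ^ 2 * 1 := by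
    have e : (fun y => rho n (x - y) * (k y - c) ^ 2) = fun y =>
        (rho n (x - y) * k y ^ 2 - 2 * c * (rho n (x - y) * k y)) + c ^ 2 * rho n (x - y) := by
      funext y; ring
    have j : Integrable fun y => rho n (x - y) * k y ^ 2 - 2 * c * (rho n (x - y) * k y) :=
      i2.sub (i1.const_mul _)
    rw [e, integral_add j (i3.const_mul _),
      integral_sub i2 (i1.const_mul _), integral_const_mul, integral_const_mul, int_rho_one, ← hc]
  rw [h1] at h0
  nlinarith

/-- mass of a mollification -/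
lemma mo_mass {k : E2 → ℝ} (hk : Integrable k) (n : ℕ) :
    Integrable (mo k n) ∧ ∫ x, mo k n x = ∫ x, k x := by
  constructor
  · exact (rho_integrable n).integrable_convolution _ hk
  · unfold mo
    rw [integral_convolution _ (rho_integrable n) hk, rho_int]
    simp

lemma mo_fderiv {u : E2 → ℝ} (hu : LocallyIntegrable u volume) (n : ℕ) (x v : E2) :
    fderiv ℝ (mo u n) x v = ∫ y, fderiv ℝ (rho n) (x - y) v * u y := by
  have h1 := (rho_comp n).hasFDerivAt_convolution_left (lsmul ℝ ℝ)
    ((rho_smooth n).of_le (by simp)) hu x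
  have h2 : fderiv ℝ (mo u n) x = _ := h1.fderiv
  have hex := ((rho_comp n).fderiv ℝ).convolutionExists_left ((lsmul ℝ ℝ).precompL E2)
    ((rho_smooth n).continuous_fderiv (by simp)) hu x
  rw [h2, convolution_eq_swap, ContinuousLinearMap.integral_apply hex.integrable_swap]
  rfl

lemma abs_coord_le (z : E2) (i : Fin 2) : |z i| ≤ ‖z‖ := by
  have := PiLp.norm_apply_le z i
  rwa [Real.norm_eq_abs] at this

/-- the smaller squares -/
def sq (r : ℝ) : Set E2 := {x | r < x 0 ∧ x 0 < 1 - r ∧ r < x 1 ∧ x 1 < 1 - r}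

lemma sq_open (r : ℝ) : IsOpen (sq r) := by
  have c0 : Continuous fun x : E2 => x 0 := by fun_prop
  have c1 : Continuous fun x : E2 => x 1 := by fun_prop
  have e : sq r = {x : E2 | r < x 0} ∩ ({x : E2 | x 0 < 1 - r} ∩ ({x : E2 | r < x 1} ∩
    {x : E2 | x 1 < 1 - r})) := rfl
  rw [e]
  exact (isOpen_lt continuous_const c0).inter ((isOpen_lt c0 continuous_const).inter
    ((isOpen_lt continuous_const c1).inter (isOpen_lt c1 continuous_const)))

lemma unitSquare_eq : unitSquare = sq 0 := by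
  unfold unitSquare sq
  simp

lemma ball_sub {r : ℝ} {x : E2} (hx : x ∈ sq r) : Metric.closedBall x r ⊆ unitSquare := by
  obtain ⟨h1, h2, h3, h4⟩ := hx
  intro y hy
  rw [Metric.mem_closedBall, dist_eq_norm] at hy
  have a0 := (abs_coord_le (y - x) 0).trans hy
  have a1 := (abs_coord_le (y - x) 1).trans hy
  rw [PiLp.sub_apply, abs_le] at a0 a1
  exact ⟨by linarith [a0.1], by linarith [a0.2], by linarith [a1.1], by linarith [a1.2]⟩

lemma sq_bounded {r : ℝ} (hr : 0 ≤ r) : Bornology.IsBounded (sq r) := by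
  refine (Metric.isBounded_closedBall (x := (0 : E2)) (r := 2)).subset fun x hx => ?_
  obtain ⟨h1, h2, h3, h4⟩ := hx
  rw [Metric.mem_closedBall, dist_zero_right]
  have h5 : ‖x‖ ^ 2 = x 0 ^ 2 + x 1 ^ 2 := by
    rw [EuclideanSpace.norm_sq_eq, Fin.sum_univ_two]
    simp
  have h6 : ‖x‖ ^ 2 ≤ 2 ^ 2 := by
    rw [h5]; nlinarith
  exact (pow_le_pow_iff_left₀ (norm_nonneg _) (by norm_num) (by norm_num)).1 h6

/-- the gradient of a mollification inside the square -/
lemma grad_eq {u : E2 → ℝ} {g : E2 → E2} (h : IsH1 unitSquare u g)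
    (hu : LocallyIntegrable (unitSquare.indicator u) volume) {n : ℕ} {x : E2}
    (hx : Metric.closedBall x (rr n) ⊆ unitSquare) (v : E2) :
    fderiv ℝ (mo (unitSquare.indicator u) n) x v =
      ∫ y in unitSquare, rho n (x - y) * inner ℝ (g y) v := by
  have hm : MeasurableSet unitSquare := by
    rw [unitSquare_eq]; exact (sq_open 0).measurableSet
  rw [mo_fderiv hu]
  have e1 : (fun y => fderiv ℝ (rho n) (x - y) v * unitSquare.indicator u y) =
      unitSquare.indicator fun y => fderiv ℝ (rho n) (x - y) v * u y := by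
    funext y
    by_cases hy : y ∈ unitSquare
    · rw [indicator_of_mem hy, indicator_of_mem hy]
    · rw [indicator_of_notMem hy, indicator_of_notMem hy, mul_zero]
  rw [e1, integral_indicator hm]
  have e2 : ∀ y, fderiv ℝ (fun y => rho n (x - y)) y v = -(fderiv ℝ (rho n) (x - y) v) := by
    intro y
    have h1 : HasFDerivAt (rho n) (fderiv ℝ (rho n) (x - y)) (x - y) :=
      ((rho_smooth n).differentiable (by simp) (x - y)).hasFDerivAt
    have h2 : HasFDerivAt (fun y : E2 => x - y) (-ContinuousLinearMap.id ℝ E2) y :=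
      (hasFDerivAt_id y).const_sub x
    have h3 : HasFDerivAt (fun y => rho n (x - y))
      ((fderiv ℝ (rho n) (x - y)).comp (-ContinuousLinearMap.id ℝ E2)) y := h1.comp y h2
    rw [h3.fderiv]
    simp
  have hsup : tsupport (fun y => rho n (x - y)) ⊆ Metric.closedBall x (rr n) := by
    refine closure_minimal ?_ Metric.isClosed_closedBall
    intro y hy
    rw [Function.mem_support] at hy
    have h3 : x - y ∈ tsupport (rho n) := subset_tsupport _ (Function.mem_support.2 hy)
    rw [rho_tsupport, Metric.mem_closedBall, dist_zero_right] at h3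
    rw [Metric.mem_closedBall, dist_eq_norm, norm_sub_rev]
    exact h3
  have h4 := h.weak (fun y => rho n (x - y)) ((rho_smooth n).comp (contDiff_const.sub contDiff_id))
    (HasCompactSupport.of_support_subset_isCompact (isCompact_closedBall x (rr n))
      ((subset_tsupport _).trans hsup)) (hsup.trans hx) v
  simp only [e2] at h4
  have e3 : ∫ y in unitSquare, fderiv ℝ (rho n) (x - y) v * u y =
      -∫ y in unitSquare, u y * -(fderiv ℝ (rho n) (x - y) v) := by
    rw [← integral_neg]
    congr 1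
    funext y
    ring
  rw [e3, h4, neg_neg]
  congr 1
  funext y
  ring

/-- bound of the gradient of a mollification -/
lemma grad_bound {u : E2 → ℝ} {g : E2 → E2} (h : IsH1 unitSquare u g)
    (hu : LocallyIntegrable (unitSquare.indicator u) volume)
    (hk : Integrable (unitSquare.indicator fun y => ‖g y‖))
    (hk2 : Integrable fun y => (unitSquare.indicator fun y => ‖g y‖) y ^ 2) {n : ℕ} {x : E2}
    (hx : Metric.closedBall x (rr n) ⊆ unitSquare) :
    ‖fderiv ℝ (mo (unitSquare.indicator u) n) x‖ ^ 2 ≤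
      mo (fun y => (unitSquare.indicator fun y => ‖g y‖) y ^ 2) n x := by
  have hm : MeasurableSet unitSquare := by
    rw [unitSquare_eq]; exact (sq_open 0).measurableSet
  set k : E2 → ℝ := unitSquare.indicator fun y => ‖g y‖ with hkdef
  have hk0 : ∀ y, 0 ≤ k y := fun y => indicator_nonneg (fun y _ => norm_nonneg _) y
  have h1 : ‖fderiv ℝ (mo (unitSquare.indicator u) n) x‖ ≤ ∫ y, rho n (x - y) * k y := by
    refine ContinuousLinearMap.opNorm_le_bound _
      (integral_nonneg fun y => mul_nonneg (rho_nonneg n _) (hk0 y)) fun v => ?_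
    rw [grad_eq h hu hx v, ← integral_indicator hm, ← integral_mul_const]
    refine norm_integral_le_of_norm_le ((int_rho hk n x).mul_const _)
      (Filter.Eventually.of_forall fun y => ?_)
    by_cases hy : y ∈ unitSquare
    · rw [indicator_of_mem hy, norm_mul, Real.norm_eq_abs, abs_of_nonneg (rho_nonneg n _), mul_assoc]
      refine mul_le_mul_of_nonneg_left ?_ (rho_nonneg n _)
      rw [hkdef, indicator_of_mem hy]
      exact norm_inner_le_norm _ _
    · rw [indicator_of_notMem hy, norm_zero]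
      exact mul_nonneg (mul_nonneg (rho_nonneg n _) (hk0 y)) (norm_nonneg _)
  rw [mo_apply]
  calc _ ≤ (∫ y, rho n (x - y) * k y) ^ 2 := by gcongr
    _ ≤ _ := jensen hk hk2 n x

/-- the parametrization of the smaller square -/
noncomputable def par (r : ℝ) (z : W) : E2 :=
  em.symm (aff (r, r) (1 - 2 * r, 0) (0, 1 - 2 * r) z)

lemma par_coord (r : ℝ) (z : W) : (par r z) 0 = r + (1 - 2 * r) * z.1 ∧
    (par r z) 1 = r + (1 - 2 * r) * z.2 := by
  have h : em (par r z) = aff (r, r) (1 - 2 * r, 0) (0, 1 - 2 * r) z := em.apply_symm_apply _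
  rw [em_apply] at h
  have h0 : (par r z) 0 = r + z.1 * (1 - 2 * r) + z.2 * 0 := congrArg Prod.fst h
  have h1 : (par r z) 1 = r + z.1 * 0 + z.2 * (1 - 2 * r) := congrArg Prod.snd h
  constructor
  · rw [h0]; ring
  · rw [h1]; ring

lemma par_smooth (r : ℝ) : ContDiff ℝ ∞ (par r) := by
  unfold par aff
  exact em.symm.contDiff.comp (by fun_prop)

/-- change of variables -/
lemma int_par {r : ℝ} (hr : r ≤ 1 / 3) (F : E2 → ℝ) :
    ∫ x in sq r, F x = (1 - 2 * r) ^ 2 * ∫ z in Sq, F (par r z) := by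
  have hs : 0 < 1 - 2 * r := by linarith
  have hcr : cr ((1 - 2 * r, 0) : W) (0, 1 - 2 * r) = (1 - 2 * r) ^ 2 := by
    unfold cr; ring
  have himg : em '' sq r = aff (r, r) (1 - 2 * r, 0) (0, 1 - 2 * r) '' Sq := by
    ext w
    constructor
    · rintro ⟨x, ⟨h1, h2, h3, h4⟩, rfl⟩
      refine ⟨((x 0 - r) / (1 - 2 * r), (x 1 - r) / (1 - 2 * r)), ⟨⟨?_, ?_⟩, ?_, ?_⟩, ?_⟩
      · exact div_pos (by linarith) hs
      · show (x 0 - r) / (1 - 2 * r) < 1
        rw [div_lt_one hs]; linarith
      · exact div_pos (by linarith) hs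
      · show (x 1 - r) / (1 - 2 * r) < 1
        rw [div_lt_one hs]; linarith
      · rw [em_apply]
        ext
        · show r + (x 0 - r) / (1 - 2 * r) * (1 - 2 * r) + (x 1 - r) / (1 - 2 * r) * 0 = x 0
          rw [div_mul_cancel₀ _ hs.ne']; ring
        · show r + (x 0 - r) / (1 - 2 * r) * 0 + (x 1 - r) / (1 - 2 * r) * (1 - 2 * r) = x 1
          rw [div_mul_cancel₀ _ hs.ne']; ring
    · rintro ⟨z, ⟨⟨h1, h2⟩, h3, h4⟩, rfl⟩
      refine ⟨par r z, ?_, em.apply_symm_apply _⟩
      obtain ⟨e0, e1⟩ := par_coord r z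
      refine ⟨?_, ?_, ?_, ?_⟩
      · rw [e0]; nlinarith
      · rw [e0]; nlinarith
      · rw [e1]; nlinarith
      · rw [e1]; nlinarith
  have h1 : ∫ x in sq r, F x = ∫ w in em '' sq r, F (em.symm w) := by
    rw [← int_em (sq r) (fun w => F (em.symm w))]
    simp only [ContinuousLinearEquiv.symm_apply_apply]
  rw [h1, himg, integral_aff _ _ _ (by rw [hcr]; positivity) Sq_measurable, hcr,
    abs_of_nonneg (by positivity)]
  rfl

lemma en_par (r : ℝ) {f : E2 → ℝ} (hf : Differentiable ℝ f) (z : W) :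
    en 1 1 0 (fderiv ℝ (fun z => f (par r z)) z) =
      (1 - 2 * r) ^ 2 * ‖fderiv ℝ f (par r z)‖ ^ 2 := by
  have h1 : HasFDerivAt f (fderiv ℝ f (par r z)) (par r z) := (hf _).hasFDerivAt
  have h2 : HasFDerivAt (par r) ((em.symm : W →L[ℝ] E2).comp
      (lin2 (1 - 2 * r, 0) (0, 1 - 2 * r))) z := by
    unfold par
    rw [aff_eq]
    exact em.symm.hasFDerivAt.comp z ((lin2 (1 - 2 * r, 0) (0, 1 - 2 * r)).hasFDerivAt.const_add _)
  have h3 : HasFDerivAt (fun z => f (par r z)) _ z := h1.comp z h2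
  rw [h3.fderiv, norm_sq_dual]
  have e0 : em.symm (1 - 2 * r, 0) = (1 - 2 * r) • EuclideanSpace.single (0 : Fin 2) (1 : ℝ) := by
    apply em.injective
    rw [em.apply_symm_apply, em_apply]
    simp
  have e1 : em.symm (0, 1 - 2 * r) = (1 - 2 * r) • EuclideanSpace.single (1 : Fin 2) (1 : ℝ) := by
    apply em.injective
    rw [em.apply_symm_apply, em_apply]
    simp
  have l0 : lin2 ((1 - 2 * r, 0) : W) (0, 1 - 2 * r) (1, 0) = (1 - 2 * r, 0) := by
    rw [lin2_apply]; simp
  have l1 : lin2 ((1 - 2 * r, 0) : W) (0, 1 - 2 * r) (0, 1) = (0, 1 - 2 * r) := by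
    rw [lin2_apply]; simp
  simp only [en, ContinuousLinearMap.comp_apply, ContinuousLinearEquiv.coe_coe, l0, l1, e0, e1,
    map_smul, smul_eq_mul]
  ring

/-- Poincaré inequality on the smaller squares for smooth functions -/
lemma sq_poinc {θ r : ℝ} (hθ0 : 0 < θ) (hθ : θ < Real.pi) (hr0 : 0 ≤ r) (hr : r ≤ 1 / 3)
    {f : E2 → ℝ} (hf : ContDiff ℝ ∞ f) :
    θ ^ 2 * ∫ x in sq r, (f x - (∫ x in sq r, f x) / (1 - 2 * r) ^ 2) ^ 2 ≤
      ∫ x in sq r, ‖fderiv ℝ f x‖ ^ 2 := by
  have hs : 0 < 1 - 2 * r := by linarith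
  have hh : ContDiff ℝ ∞ fun z => f (par r z) := hf.comp (par_smooth r)
  have key := sq_poincare hθ0 hθ hh
  have e1 := int_par hr f
  have e3 := int_par hr fun x => ‖fderiv ℝ f x‖ ^ 2
  set c := (∫ x in sq r, f x) / (1 - 2 * r) ^ 2 with hc
  have hc' : ∫ z in Sq, f (par r z) = c := by
    rw [hc, e1]; field_simp
  have e2 := int_par hr fun x => (f x - c) ^ 2
  have i1 : IntegrableOn (fun z => f (par r z)) Sq := integrableOn_Sq hh.continuous
  have i2 : IntegrableOn (fun z => f (par r z) ^ 2) Sq := integrableOn_Sq (hh.continuous.pow 2)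
  have hvol : volume.real Sq = 1 := by
    have h := int_Sq (F := fun _ => (1 : ℝ)) continuous_const
    simp only [intervalIntegral.integral_const, integral_const, measureReal_restrict_apply_univ,
      smul_eq_mul] at h
    linarith
  have e4 : ∫ z in Sq, (f (par r z) - c) ^ 2 = (∫ z in Sq, f (par r z) ^ 2) - c ^ 2 := by
    have e : (fun z => (f (par r z) - c) ^ 2) = fun z =>
        (f (par r z) ^ 2 - 2 * c * f (par r z)) + c ^ 2 := by
      funext z; ring
    have j : IntegrableOn (fun z => f (par r z) ^ 2 - 2 * c * f (par r z)) Sq :=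
      i2.sub (i1.const_mul _)
    have hfin : IsFiniteMeasure (volume.restrict Sq) := by
      constructor
      rw [Measure.restrict_apply_univ]
      by_contra h
      rw [not_lt_top_iff] at h
      simp [Measure.real, h] at hvol
    rw [e, integral_add j (integrable_const _), integral_sub i2 (i1.const_mul _),
      integral_const_mul, hc', integral_const, measureReal_restrict_apply_univ, hvol]
    simp only [smul_eq_mul]
    ring
  rw [hc'] at key
  rw [e2, e4, e3]
  have e5 : ∫ z in Sq, en 1 1 0 (fderiv ℝ (fun z => f (par r z)) z) =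
      (1 - 2 * r) ^ 2 * ∫ z in Sq, ‖fderiv ℝ f (par r z)‖ ^ 2 := by
    rw [← integral_const_mul]
    congr 1
    funext z
    exact en_par r (hf.differentiable (by simp)) z
  rw [e5] at key
  have hnn : 0 ≤ ∫ z in Sq, ‖fderiv ℝ f (par r z)‖ ^ 2 := integral_nonneg fun z => by positivity
  have hs1 : (1 - 2 * r) ^ 2 ≤ 1 := by nlinarith
  calc θ ^ 2 * ((1 - 2 * r) ^ 2 * ((∫ z in Sq, f (par r z) ^ 2) - c ^ 2))
      = (1 - 2 * r) ^ 2 * (θ ^ 2 * ((∫ z in Sq, f (par r z) ^ 2) - c ^ 2)) := by ring
    _ ≤ (1 - 2 * r) ^ 2 * ((1 - 2 * r) ^ 2 * ∫ z in Sq, ‖fderiv ℝ f (par r z)‖ ^ 2) := by gcongr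
    _ ≤ (1 - 2 * r) ^ 2 * (1 * ∫ z in Sq, ‖fderiv ℝ f (par r z)‖ ^ 2) := by gcongr
    _ = _ := by ring

lemma sq_sub {r : ℝ} (hr : 0 ≤ r) : sq r ⊆ unitSquare := by
  rintro x ⟨h1, h2, h3, h4⟩
  exact ⟨by linarith, by linarith, by linarith, by linarith⟩

lemma unit_meas : MeasurableSet unitSquare := by
  rw [unitSquare_eq]; exact (sq_open 0).measurableSet

lemma unit_bounded : Bornology.IsBounded unitSquare := by
  rw [unitSquare_eq]; exact sq_bounded le_rfl

lemma int_cont {r : ℝ} (hr : 0 ≤ r) {F : E2 → ℝ} (hF : Continuous F) : IntegrableOn F (sq r) := by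
  obtain ⟨R, hR⟩ := (sq_bounded hr).subset_closedBall 0
  exact (hF.continuousOn.integrableOn_compact (isCompact_closedBall 0 R)).mono_set hR

/-- Poincaré inequality, any constant below the sharp one -/
lemma poinc_theta {u : E2 → ℝ} {g : E2 → E2} (h : IsH1 unitSquare u g)
    (h0 : ∫ x in unitSquare, u x = 0) {θ : ℝ} (hθ0 : 0 < θ) (hθ : θ < Real.pi) :
    θ ^ 2 * ∫ x in unitSquare, u x ^ 2 ≤ ∫ x in unitSquare, ‖g x‖ ^ 2 := by
  have hfin : IsFiniteMeasure (volume.restrict unitSquare) :=
    ⟨by rw [Measure.restrict_apply_univ]; exact unit_bounded.measure_lt_top⟩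
  have iu : IntegrableOn u unitSquare := h.memLp.integrable one_le_two
  have iu2 : IntegrableOn (fun x => u x ^ 2) unitSquare := h.memLp.integrable_sq
  have ig : IntegrableOn (fun x => ‖g x‖) unitSquare := (h.memLp_grad.integrable one_le_two).norm
  have ig2 : IntegrableOn (fun x => ‖g x‖ ^ 2) unitSquare := h.memLp_grad.norm.integrable_sq
  set U : E2 → ℝ := unitSquare.indicator u with hU
  set k : E2 → ℝ := unitSquare.indicator fun y => ‖g y‖ with hk
  have hUi : Integrable U := (integrable_indicator_iff unit_meas).2 iu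
  have hki : Integrable k := (integrable_indicator_iff unit_meas).2 ig
  have hk2e : (fun y => k y ^ 2) = unitSquare.indicator fun y => ‖g y‖ ^ 2 := by
    funext y
    by_cases hy : y ∈ unitSquare
    · rw [hk, indicator_of_mem hy, indicator_of_mem hy]
    · rw [hk, indicator_of_notMem hy, indicator_of_notMem hy]
      norm_num
  have hk2i : Integrable fun y => k y ^ 2 := by
    rw [hk2e]; exact (integrable_indicator_iff unit_meas).2 ig2
  set G : ℝ := ∫ x in unitSquare, ‖g x‖ ^ 2 with hG
  have hGk : ∫ y, k y ^ 2 = G := by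
    rw [hk2e, integral_indicator unit_meas]
  have hUl : LocallyIntegrable U volume := hUi.locallyIntegrable
  have hsm : ∀ n, ContDiff ℝ ∞ (mo U n) := mo_smooth hUl
  set c : ℕ → ℝ := fun n => (∫ x in sq (rr n), mo U n x) / (1 - 2 * rr n) ^ 2 with hc
  -- gradients
  have hgrad : ∀ n, ∫ x in sq (rr n), ‖fderiv ℝ (mo U n) x‖ ^ 2 ≤ G := by
    intro n
    obtain ⟨m1, m2⟩ := mo_mass hk2i n
    have c1 : Continuous fun x => ‖fderiv ℝ (mo U n) x‖ ^ 2 :=
      ((hsm n).continuous_fderiv (by simp)).norm.pow 2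
    have hnn : ∀ x, 0 ≤ mo (fun y => k y ^ 2) n x := by
      intro x
      rw [mo_apply]
      exact integral_nonneg fun y => mul_nonneg (rho_nonneg n _) (sq_nonneg _)
    calc ∫ x in sq (rr n), ‖fderiv ℝ (mo U n) x‖ ^ 2
        ≤ ∫ x in sq (rr n), mo (fun y => k y ^ 2) n x := by
          refine setIntegral_mono_on (int_cont (rr_pos n).le c1) m1.integrableOn
            (sq_open _).measurableSet fun x hx => ?_
          exact grad_bound h hUl hki hk2i (ball_sub hx)
      _ ≤ ∫ x, mo (fun y => k y ^ 2) n x :=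
          setIntegral_le_integral m1 (Filter.Eventually.of_forall hnn)
      _ = G := by rw [m2, hGk]
  have hpc : ∀ n, ∫ x in sq (rr n), (mo U n x - c n) ^ 2 ≤ G / θ ^ 2 := by
    intro n
    rw [le_div_iff₀ (by positivity), mul_comm]
    exact (sq_poinc hθ0 hθ (rr_pos n).le (rr_le n) (hsm n)).trans (hgrad n)
  -- means
  have hcb : ∀ n, c n ∈ Metric.closedBall (0 : ℝ) (9 * ∫ x, |U x|) := by
    intro n
    have hUa : Integrable fun x => |U x| := hUi.abs
    obtain ⟨m1, m2⟩ := mo_mass hUa n
    have hle : ∀ x, ‖mo U n x‖ ≤ mo (fun x => |U x|) n x := by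
      intro x
      rw [mo_apply, mo_apply]
      refine norm_integral_le_of_norm_le (int_rho hUa n x) (Filter.Eventually.of_forall fun y => ?_)
      rw [norm_mul, Real.norm_eq_abs, abs_of_nonneg (rho_nonneg n _), Real.norm_eq_abs]
    have h1 : |∫ x in sq (rr n), mo U n x| ≤ ∫ x, |U x| := by
      rw [← Real.norm_eq_abs]
      calc ‖∫ x in sq (rr n), mo U n x‖ ≤ ∫ x in sq (rr n), mo (fun x => |U x|) n x :=
            norm_integral_le_of_norm_le m1.integrableOn (Filter.Eventually.of_forall hle)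
        _ ≤ ∫ x, mo (fun x => |U x|) n x :=
            setIntegral_le_integral m1 (Filter.Eventually.of_forall fun x =>
              (norm_nonneg _).trans (hle x))
        _ = _ := m2
    rw [Metric.mem_closedBall, dist_zero_right, Real.norm_eq_abs, hc]
    simp only
    have h2 := rr_le n
    have h3 : 1 / 9 ≤ (1 - 2 * rr n) ^ 2 := by nlinarith
    rw [abs_div, abs_of_nonneg (by positivity : (0 : ℝ) ≤ (1 - 2 * rr n) ^ 2),
      div_le_iff₀ (by linarith)]
    have h4 : 0 ≤ ∫ x, |U x| := integral_nonneg fun x => abs_nonneg _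
    nlinarith
  obtain ⟨a, _, φ, hφ, ha⟩ := tendsto_subseq_of_bounded Metric.isBounded_closedBall hcb
  -- almost everywhere convergence
  have hae : ∀ᵐ x, Tendsto (fun n => mo U n x) atTop (𝓝 (U x)) := by
    refine ContDiffBump.ae_convolution_tendsto_right_of_locallyIntegrable (φ := bp) (K := 2)
      rr_tendsto (Filter.Eventually.of_forall fun n => ?_) hUl
    show rr n ≤ 2 * (rr n / 2)
    linarith
  set F : ℕ → E2 → ENNReal := fun j => (sq (rr (φ j))).indicator
    fun x => ENNReal.ofReal ((mo U (φ j) x - c (φ j)) ^ 2) with hF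
  have hFm : ∀ j, Measurable (F j) := by
    intro j
    refine Measurable.indicator ?_ (sq_open _).measurableSet
    exact (((hsm (φ j)).continuous.sub continuous_const).pow 2).measurable.ennreal_ofReal
  have hlim : ∀ᵐ x, Tendsto (fun j => F j x) atTop
      (𝓝 (unitSquare.indicator (fun x => ENNReal.ofReal ((u x - a) ^ 2)) x)) := by
    filter_upwards [hae] with x hx
    by_cases hxS : x ∈ unitSquare
    · rw [indicator_of_mem hxS]
      have hUx : U x = u x := indicator_of_mem hxS _
      have h1 : Tendsto (fun j => ENNReal.ofReal ((mo U (φ j) x - c (φ j)) ^ 2)) atTop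
          (𝓝 (ENNReal.ofReal ((u x - a) ^ 2))) := by
        refine ENNReal.tendsto_ofReal ?_
        rw [← hUx]
        exact ((hx.comp hφ.tendsto_atTop).sub ha).pow 2
      refine h1.congr' ?_
      have h2 : ∀ᶠ j in atTop, x ∈ sq (rr (φ j)) := by
        have h3 := rr_tendsto.comp hφ.tendsto_atTop
        obtain ⟨g1, g2, g3, g4⟩ := hxS
        have e1 := h3.eventually_lt_const g1
        have e2 := h3.eventually_lt_const (show (0 : ℝ) < 1 - x 0 by linarith)
        have e3 := h3.eventually_lt_const g3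
        have e4 := h3.eventually_lt_const (show (0 : ℝ) < 1 - x 1 by linarith)
        filter_upwards [e1, e2, e3, e4] with j j1 j2 j3 j4
        simp only [Function.comp_apply] at j1 j2 j3 j4
        exact ⟨j1, by linarith, j3, by linarith⟩
      filter_upwards [h2] with j hj
      rw [hF]
      simp only
      rw [indicator_of_mem hj]
    · rw [indicator_of_notMem hxS]
      have : ∀ j, F j x = 0 := fun j =>
        indicator_of_notMem (fun hx => hxS (sq_sub (rr_pos _).le hx)) _
      simp only [this]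
      exact tendsto_const_nhds
  have hfatou : ∫⁻ x, liminf (fun j => F j x) atTop ≤ liminf (fun j => ∫⁻ x, F j x) atTop :=
    lintegral_liminf_le hFm
  have e1 : ∫⁻ x, liminf (fun j => F j x) atTop =
      ∫⁻ x in unitSquare, ENNReal.ofReal ((u x - a) ^ 2) := by
    rw [← lintegral_indicator unit_meas]
    refine lintegral_congr_ae ?_
    filter_upwards [hlim] with x hx
    exact hx.liminf_eq
  have hFb : ∀ j, ∫⁻ x, F j x ≤ ENNReal.ofReal (G / θ ^ 2) := by
    intro j
    rw [hF]
    simp only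
    have hcj : Continuous fun x => (mo U (φ j) x - c (φ j)) ^ 2 :=
      ((hsm (φ j)).continuous.sub continuous_const).pow 2
    rw [lintegral_indicator (sq_open _).measurableSet,
      ← ofReal_integral_eq_lintegral_ofReal (int_cont (rr_pos _).le hcj)
        (Filter.Eventually.of_forall fun x => sq_nonneg _)]
    exact ENNReal.ofReal_le_ofReal (hpc (φ j))
  have e2 : liminf (fun j => ∫⁻ x, F j x) atTop ≤ ENNReal.ofReal (G / θ ^ 2) := by
    refine Filter.liminf_le_of_le (by isBoundedDefault) fun b hb => ?_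
    obtain ⟨j, hj⟩ := hb.exists
    exact hj.trans (hFb j)
  rw [e1] at hfatou
  have i3 : IntegrableOn (fun x => (u x - a) ^ 2) unitSquare := by
    have e : (fun x => (u x - a) ^ 2) = fun x => (u x ^ 2 - 2 * a * u x) + a ^ 2 := by
      funext x; ring
    rw [e]
    exact (iu2.sub (iu.const_mul _)).add (integrable_const _)
  rw [← ofReal_integral_eq_lintegral_ofReal i3 (Filter.Eventually.of_forall fun x => sq_nonneg _)]
    at hfatou
  have hG0 : 0 ≤ G := integral_nonneg fun x => by positivity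
  have h5 : ∫ x in unitSquare, (u x - a) ^ 2 ≤ G / θ ^ 2 :=
    (ENNReal.ofReal_le_ofReal_iff (by positivity)).1 (hfatou.trans e2)
  have h6 : ∫ x in unitSquare, (u x - a) ^ 2 = (∫ x in unitSquare, u x ^ 2) +
      a ^ 2 * volume.real unitSquare := by
    have e : (fun x => (u x - a) ^ 2) = fun x => (u x ^ 2 - 2 * a * u x) + a ^ 2 := by
      funext x; ring
    have j : IntegrableOn (fun x => u x ^ 2 - 2 * a * u x) unitSquare := iu2.sub (iu.const_mul _)
    rw [e, integral_add j (integrable_const _), integral_sub iu2 (iu.const_mul _),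
      integral_const_mul, h0, integral_const, measureReal_restrict_apply_univ]
    simp only [smul_eq_mul]
    ring
  have h7 : 0 ≤ a ^ 2 * volume.real unitSquare := by positivity
  rw [h6, le_div_iff₀ (by positivity)] at h5
  nlinarith [sq_nonneg θ]

/-- the sharp Poincaré inequality -/
theorem poinc {u : E2 → ℝ} {g : E2 → E2} (h : IsH1 unitSquare u g)
    (h0 : ∫ x in unitSquare, u x = 0) :
    Real.pi ^ 2 * ∫ x in unitSquare, u x ^ 2 ≤ ∫ x in unitSquare, ‖g x‖ ^ 2 := by
  have h1 : Tendsto (fun θ : ℝ => θ ^ 2 * ∫ x in unitSquare, u x ^ 2) (𝓝[<] Real.pi)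
      (𝓝 (Real.pi ^ 2 * ∫ x in unitSquare, u x ^ 2)) := by
    refine Tendsto.mono_left ?_ nhdsWithin_le_nhds
    have hc : Continuous fun θ : ℝ => θ ^ 2 * ∫ x in unitSquare, u x ^ 2 :=
      (continuous_pow 2).mul continuous_const
    exact hc.tendsto _
  refine le_of_tendsto h1 ?_
  have h2 : ∀ᶠ θ : ℝ in 𝓝[<] Real.pi, 0 < θ :=
    nhdsWithin_le_nhds (lt_mem_nhds Real.pi_pos)
  filter_upwards [h2, self_mem_nhdsWithin] with θ hθ0 hθ
  exact poinc_theta h h0 hθ0 hθ

end Pool.Agent.Lib.MP_03b26c_an.Own
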