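import Mathlib
import Pool.Agent.Lib.MP_03b26c_an.OwnSq

set_option autoImplicit false

/-! The unit square is a quadrilateral, and its first Neumann eigenvalue. -/

open MeasureTheory Set Topology

namespace Pool.Agent.Lib.MP_03b26c_an.Own

noncomputable def pt (p q : ℝ) : E2 := WithLp.toLp 2 ![p, q]

lemma pt0 (p q : ℝ) : (pt p q) 0 = p := rfl
lemma pt1 (p q : ℝ) : (pt p q) 1 = q := rfl

lemma seg_pt {p q p' q' : ℝ} {x : E2} (h : x ∈ segment ℝ (pt p q) (pt p' q')) :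
    ∃ t : ℝ, 0 ≤ t ∧ t ≤ 1 ∧ x 0 = p + t * (p' - p) ∧ x 1 = q + t * (q' - q) := by
  obtain ⟨t, h0, h1, e0, e1⟩ := seg_coord h
  exact ⟨t, h0, h1, e0, e1⟩

lemma simple_unit : SimplePolygon (pt 0 0) (pt 1 0) (pt 1 1) (pt 0 1) := by
  refine ⟨?_, ?_, ?_, ?_, ?_, ?_⟩
  · apply Subset.antisymm
    · rintro x ⟨h1, h2⟩
      obtain ⟨t, t0, t1, e0, e1⟩ := seg_pt h1
      obtain ⟨s, s0, s1, f0, f1⟩ := seg_pt h2
      exact mem_singleton_iff.2 (ext2 (by rw [pt0]; linarith) (by rw [pt1]; linarith))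
    · rintro x rfl
      exact ⟨right_mem_segment ℝ _ _, left_mem_segment ℝ _ _⟩
  · apply Subset.antisymm
    · rintro x ⟨h1, h2⟩
      obtain ⟨t, t0, t1, e0, e1⟩ := seg_pt h1
      obtain ⟨s, s0, s1, f0, f1⟩ := seg_pt h2
      exact mem_singleton_iff.2 (ext2 (by rw [pt0]; linarith) (by rw [pt1]; linarith))
    · rintro x rfl
      exact ⟨right_mem_segment ℝ _ _, left_mem_segment ℝ _ _⟩
  · apply Subset.antisymm
    · rintro x ⟨h1, h2⟩
      obtain ⟨t, t0, t1, e0, e1⟩ := seg_pt h1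
      obtain ⟨s, s0, s1, f0, f1⟩ := seg_pt h2
      exact mem_singleton_iff.2 (ext2 (by rw [pt0]; linarith) (by rw [pt1]; linarith))
    · rintro x rfl
      exact ⟨right_mem_segment ℝ _ _, left_mem_segment ℝ _ _⟩
  · apply Subset.antisymm
    · rintro x ⟨h1, h2⟩
      obtain ⟨t, t0, t1, e0, e1⟩ := seg_pt h1
      obtain ⟨s, s0, s1, f0, f1⟩ := seg_pt h2
      exact mem_singleton_iff.2 (ext2 (by rw [pt0]; linarith) (by rw [pt1]; linarith))
    · rintro x rfl
      exact ⟨right_mem_segment ℝ _ _, left_mem_segment ℝ _ _⟩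
  · rw [disjoint_left]
    intro x h1 h2
    obtain ⟨t, t0, t1, e0, e1⟩ := seg_pt h1
    obtain ⟨s, s0, s1, f0, f1⟩ := seg_pt h2
    linarith
  · rw [disjoint_left]
    intro x h1 h2
    obtain ⟨t, t0, t1, e0, e1⟩ := seg_pt h1
    obtain ⟨s, s0, s1, f0, f1⟩ := seg_pt h2
    linarith

lemma unit_open : IsOpen unitSquare := by
  rw [unitSquare_eq]; exact sq_open 0

lemma closure_unit : closure unitSquare = {x : E2 | 0 ≤ x 0 ∧ x 0 ≤ 1 ∧ 0 ≤ x 1 ∧ x 1 ≤ 1} := by
  have e : unitSquare = em.toHomeomorph ⁻¹' (Ioo (0 : ℝ) 1 ×ˢ Ioo (0 : ℝ) 1) := by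
    ext x
    constructor
    · rintro ⟨h1, h2, h3, h4⟩
      exact ⟨⟨h1, h2⟩, h3, h4⟩
    · rintro ⟨⟨h1, h2⟩, h3, h4⟩
      exact ⟨h1, h2, h3, h4⟩
  rw [e, ← Homeomorph.preimage_closure, closure_prod_eq, closure_Ioo (by norm_num)]
  ext x
  constructor
  · rintro ⟨⟨h1, h2⟩, h3, h4⟩
    exact ⟨h1, h2, h3, h4⟩
  · rintro ⟨h1, h2, h3, h4⟩
    exact ⟨⟨h1, h2⟩, h3, h4⟩

lemma frontier_unit : frontier unitSquare = polygon (pt 0 0) (pt 1 0) (pt 1 1) (pt 0 1) := by
  rw [unit_open.frontier_eq, closure_unit]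
  ext x
  constructor
  · rintro ⟨⟨h1, h2, h3, h4⟩, hn⟩
    by_cases a1 : x 0 = 0
    · right
      exact mem_seg (t := 1 - x 1) (by linarith) (by linarith) (by rw [pt0, pt0, a1]; ring)
        (by rw [pt1, pt1]; ring)
    by_cases a2 : x 0 = 1
    · left; left; right
      exact mem_seg (t := x 1) h3 h4 (by rw [pt0, pt0, a2]; ring) (by rw [pt1, pt1]; ring)
    by_cases a3 : x 1 = 0
    · left; left; left
      exact mem_seg (t := x 0) h1 h2 (by rw [pt0, pt0]; ring) (by rw [pt1, pt1, a3]; ring)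
    by_cases a4 : x 1 = 1
    · left; right
      exact mem_seg (t := 1 - x 0) (by linarith) (by linarith) (by rw [pt0, pt0]; ring)
        (by rw [pt1, pt1, a4]; ring)
    exfalso
    exact hn ⟨lt_of_le_of_ne h1 (Ne.symm a1), lt_of_le_of_ne h2 a2,
      lt_of_le_of_ne h3 (Ne.symm a3), lt_of_le_of_ne h4 a4⟩
  · rintro (((h | h) | h) | h)
    · obtain ⟨t, t0, t1, e0, e1⟩ := seg_pt h
      refine ⟨⟨by linarith, by linarith, by linarith, by linarith⟩, ?_⟩
      rintro ⟨h1, h2, h3, h4⟩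
      linarith
    · obtain ⟨t, t0, t1, e0, e1⟩ := seg_pt h
      refine ⟨⟨by linarith, by linarith, by linarith, by linarith⟩, ?_⟩
      rintro ⟨h1, h2, h3, h4⟩
      linarith
    · obtain ⟨t, t0, t1, e0, e1⟩ := seg_pt h
      refine ⟨⟨by linarith, by linarith, by linarith, by linarith⟩, ?_⟩
      rintro ⟨h1, h2, h3, h4⟩
      linarith
    · obtain ⟨t, t0, t1, e0, e1⟩ := seg_pt h
      refine ⟨⟨by linarith, by linarith, by linarith, by linarith⟩, ?_⟩
      rintro ⟨h1, h2, h3, h4⟩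
      linarith

lemma unit_nonempty : unitSquare.Nonempty :=
  ⟨pt (1 / 2) (1 / 2), by
    refine ⟨?_, ?_, ?_, ?_⟩ <;> simp only [pt0, pt1] <;> norm_num⟩

theorem unit_quad : IsQuadrilateral unitSquare :=
  ⟨unit_open, unit_bounded, unit_nonempty, pt 0 0, pt 1 0, pt 1 1, pt 0 1, simple_unit,
    frontier_unit⟩

theorem unit_vol : (volume unitSquare).toReal = 1 := by
  have h1 : em '' unitSquare = Sq := by
    ext z
    constructor
    · rintro ⟨x, ⟨h1, h2, h3, h4⟩, rfl⟩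
      exact ⟨⟨h1, h2⟩, h3, h4⟩
    · rintro ⟨⟨h1, h2⟩, h3, h4⟩
      refine ⟨em.symm z, ?_, em.apply_symm_apply z⟩
      have e := em.apply_symm_apply z
      rw [em_apply] at e
      have e0 : (em.symm z) 0 = z.1 := congrArg Prod.fst e
      have e1 : (em.symm z) 1 = z.2 := congrArg Prod.snd e
      exact ⟨by rw [e0]; exact h1, by rw [e0]; exact h2, by rw [e1]; exact h3,
        by rw [e1]; exact h4⟩
  rw [← vol_em, h1]
  have h := int_Sq (F := fun _ => (1 : ℝ)) continuous_const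
  simp only [intervalIntegral.integral_const, integral_const, measureReal_restrict_apply_univ,
    smul_eq_mul] at h
  rw [Measure.real] at h
  linarith

theorem unit_mu1 : mu1 unitSquare = Real.pi ^ 2 := by
  apply le_antisymm
  · have h := upper unit_quad
    rwa [unit_vol, one_mul] at h
  · refine le_csInf ?_ ?_
    · obtain ⟨r, f, h1, h2, h3, h4⟩ := RQ_nonempty unit_open unit_bounded unit_nonempty
      exact ⟨_, f, gradient f, isH1_smooth unit_meas unit_bounded h1, h2, h3, rfl⟩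
    · rintro r ⟨u, g, h1, h2, h3, rfl⟩
      rw [le_div_iff₀ h3]
      exact poinc h1 h2

end Pool.Agent.Lib.MP_03b26c_an.Own
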